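import Mathlib

/-!
Displays of labelled trees: definitions, and the case of one extra vertex.
-/

namespace StarTree

open SimpleGraph

/-- `U` displays `T`: there are a map `p` and an increasing choice `r` of survivors such that the
fibres of `p` induce connected subgraphs of `U` and contracting them gives exactly `T`. -/
def Displays {n m : ℕ} (T : SimpleGraph (Fin n)) (U : SimpleGraph (Fin m)) : Prop :=
  ∃ (p : Fin m → Fin n) (r : Fin n → Fin m), StrictMono r ∧ (∀ i, p (r i) = i) ∧
    (∀ i, (U.induce {v | p v = i}).Connected) ∧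
    ∀ i j, i ≠ j → (T.Adj i j ↔ ∃ u v, p u = i ∧ p v = j ∧ U.Adj u v)

/-- The support count: the number of trees on `m` labelled vertices which display `T`. -/
noncomputable def mu {n : ℕ} (T : SimpleGraph (Fin n)) (m : ℕ) : ℕ :=
  Nat.card {U : SimpleGraph (Fin m) // U.IsTree ∧ Displays T U}

/-- One-step relation: `U` has the edge between `w` and the `x`-th other vertex, and merging
`w` into the latter gives `T`. -/
def Step {n : ℕ} (T : SimpleGraph (Fin n)) (U : SimpleGraph (Fin (n + 1)))
    (w : Fin (n + 1)) (x : Fin n) : Prop :=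
  U.Adj w (w.succAbove x) ∧ ∀ i j, i ≠ j →
    (T.Adj i j ↔ U.Adj (w.succAbove i) (w.succAbove j) ∨ (i = x ∧ U.Adj w (w.succAbove j)) ∨
      (j = x ∧ U.Adj (w.succAbove i) w))

lemma strictMono_eq_succAbove {n : ℕ} (r : Fin n → Fin (n + 1)) (hr : StrictMono r) :
    ∃ w : Fin (n + 1), r = w.succAbove := by
  classical
  have hcard : (Finset.univ.image r).card = n := by
    rw [Finset.card_image_of_injective _ hr.injective]; simp
  have hne : ∃ w, w ∉ Finset.univ.image r := by
    by_contra h
    push Not at h
    have : (Finset.univ : Finset (Fin (n + 1))) ⊆ Finset.univ.image r := fun w _ => h w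
    have := Finset.card_le_card this
    simp at this
    omega
  obtain ⟨w, hw⟩ := hne
  refine ⟨w, ?_⟩
  have hsub : Finset.univ.image r ⊆ Finset.univ.erase w := by
    intro y hy
    refine Finset.mem_erase.2 ⟨fun h => hw (h ▸ hy), Finset.mem_univ _⟩
  have heq : Finset.univ.image r = Finset.univ.erase w := by
    apply Finset.eq_of_subset_of_card_le hsub
    rw [hcard, Finset.card_erase_of_mem (Finset.mem_univ _)]
    simp
  have h2 : Set.range r = Set.range w.succAbove := by
    rw [Fin.range_succAbove]
    ext y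
    have := congrArg (fun s => y ∈ s) heq
    simp at this
    simp [this]
  have hinj : StrictMono w.succAbove := Fin.strictMono_succAbove w
  exact (StrictMono.range_inj hr hinj).1 h2

lemma step_of_displays {n : ℕ} (T : SimpleGraph (Fin n)) (U : SimpleGraph (Fin (n + 1)))
    (h : Displays T U) : ∃ w x, Step T U w x := by
  obtain ⟨p, r, hr, hpr, hc, hadj⟩ := h
  obtain ⟨w, rfl⟩ := strictMono_eq_succAbove r hr
  refine ⟨w, p w, ?_, ?_⟩
  · -- the fibre of `p w` is `{w, succAbove (p w)}`
    have hconn := hc (p w)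
    set b := w.succAbove (p w) with hb
    have hbw : b ≠ w := Fin.succAbove_ne w (p w)
    have hmem : ∀ v, p v = p w → v = w ∨ v = b := by
      intro v hv
      by_cases hvw : v = w
      · exact Or.inl hvw
      · obtain ⟨i, rfl⟩ := Fin.exists_succAbove_eq hvw
        rw [hpr] at hv
        right; rw [hv]
    have hpre := hconn.preconnected ⟨w, rfl⟩ ⟨b, hpr _⟩
    obtain ⟨W⟩ := hpre
    have hne : (⟨w, rfl⟩ : {v | p v = p w}) ≠ ⟨b, hpr _⟩ := fun h =>
      hbw (congrArg Subtype.val h).symm
    have h1 : U.Adj w W.snd.1 := W.adj_snd (Walk.not_nil_of_ne hne)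
    rcases hmem W.snd.1 W.snd.2 with h | h
    · rw [h] at h1
      exact absurd rfl h1.ne
    · rw [h] at h1
      exact h1
  · intro i j hij
    rw [hadj i j hij]
    constructor
    · rintro ⟨u, v, hu, hv, huv⟩
      by_cases huw : u = w
      · subst huw
        have hvu : v ≠ u := huv.ne.symm
        obtain ⟨j', rfl⟩ := Fin.exists_succAbove_eq hvu
        rw [hpr] at hv
        subst hv
        exact Or.inr (Or.inl ⟨hu.symm, huv⟩)
      · obtain ⟨i', rfl⟩ := Fin.exists_succAbove_eq huw
        rw [hpr] at hu
        subst hu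
        by_cases hvw : v = w
        · subst hvw
          exact Or.inr (Or.inr ⟨hv.symm, huv⟩)
        · obtain ⟨j', rfl⟩ := Fin.exists_succAbove_eq hvw
          rw [hpr] at hv
          subst hv
          exact Or.inl huv
    · rintro (h | ⟨rfl, h⟩ | ⟨rfl, h⟩)
      · exact ⟨_, _, hpr i, hpr j, h⟩
      · exact ⟨_, _, rfl, hpr j, h⟩
      · exact ⟨_, _, hpr i, rfl, h⟩

lemma displays_of_step {n : ℕ} (T : SimpleGraph (Fin n)) (U : SimpleGraph (Fin (n + 1)))
    (w : Fin (n + 1)) (x : Fin n) (h : Step T U w x) : Displays T U := by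
  classical
  obtain ⟨h1, h2⟩ := h
  have hex : ∀ v : Fin (n + 1), ∃ i : Fin n, (v = w ∧ i = x) ∨ (v ≠ w ∧ w.succAbove i = v) := by
    intro v
    by_cases hv : v = w
    · exact ⟨x, Or.inl ⟨hv, rfl⟩⟩
    · obtain ⟨i, hi⟩ := Fin.exists_succAbove_eq hv
      exact ⟨i, Or.inr ⟨hv, hi⟩⟩
  choose p hp using hex
  have hpw : p w = x := by
    rcases hp w with h | h
    · exact h.2
    · exact absurd rfl h.1
  have hps : ∀ i, p (w.succAbove i) = i := by
    intro i
    rcases hp (w.succAbove i) with h | h
    · exact absurd h.1 (Fin.succAbove_ne w i)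
    · exact Fin.succAbove_right_injective h.2
  refine ⟨p, w.succAbove, Fin.strictMono_succAbove w, hps, ?_, ?_⟩
  · intro i
    have hb : ∀ v : {v | p v = i}, (U.induce {v | p v = i}).Reachable ⟨w.succAbove i, hps i⟩ v := by
      rintro ⟨v, hv⟩
      by_cases hvw : v = w
      · subst hvw
        have hxi : x = i := by rw [← hpw]; exact hv
        subst hxi
        refine Adj.reachable ?_
        exact h1.symm
      · obtain ⟨j, rfl⟩ := Fin.exists_succAbove_eq hvw
        have hv' : p (w.succAbove j) = i := hv
        rw [hps] at hv'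
        subst hv'
        exact Reachable.refl _
    have : Nonempty {v | p v = i} := ⟨⟨w.succAbove i, hps i⟩⟩
    exact ⟨fun a b => (hb a).symm.trans (hb b)⟩
  · intro i j hij
    rw [h2 i j hij]
    constructor
    · rintro (h | ⟨rfl, h⟩ | ⟨rfl, h⟩)
      · exact ⟨_, _, hps i, hps j, h⟩
      · exact ⟨_, _, hpw, hps j, h⟩
      · exact ⟨_, _, hps i, hpw, h⟩
    · rintro ⟨u, v, hu, hv, huv⟩
      by_cases huw : u = w
      · subst huw
        have hvu : v ≠ u := huv.ne.symm
        obtain ⟨j', rfl⟩ := Fin.exists_succAbove_eq hvu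
        rw [hps] at hv
        subst hv
        rw [hpw] at hu
        exact Or.inr (Or.inl ⟨hu.symm, huv⟩)
      · obtain ⟨i', rfl⟩ := Fin.exists_succAbove_eq huw
        rw [hps] at hu
        subst hu
        by_cases hvw : v = w
        · subst hvw
          rw [hpw] at hv
          exact Or.inr (Or.inr ⟨hv.symm, huv⟩)
        · obtain ⟨j', rfl⟩ := Fin.exists_succAbove_eq hvw
          rw [hps] at hv
          subst hv
          exact Or.inl huv

end StarTree
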