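import Pool.Agent.Lib.StarTree.Gam

namespace StarTree

open SimpleGraph Finset

lemma exists_fourth {n : ℕ} (hn : 3 ≤ n) (x y z : Fin (n + 1)) : ∃ t, t ≠ x ∧ t ≠ y ∧ t ≠ z := by
  by_contra h
  push Not at h
  have h1 : (Finset.univ : Finset (Fin (n + 1))) ⊆ {x, y, z} := by
    intro t _
    simp only [Finset.mem_insert, Finset.mem_singleton]
    by_cases h1 : t = x
    · exact Or.inl h1
    by_cases h2 : t = y
    · exact Or.inr (Or.inl h2)
    exact Or.inr (Or.inr (h t h1 h2))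
  have h2 := (Finset.card_le_card h1).trans Finset.card_le_three
  simp at h2
  omega

section core
variable {V : Type} [DecidableEq V] [Fintype V]

lemma core {w g w' g' cc cs : V} {A A' : Finset V} (hwg : w ≠ g) (hw : w ∉ A) (hg : g ∉ A)
    (hwg' : w' ≠ g') (hw' : w' ∉ A') (hg' : g' ∉ A') (h1 : w ≠ cc) (h1' : w' ≠ cc)
    (h2 : g = cc ∨ g = cs) (h2' : g' = cc ∨ g' = cs) (hA : A.Nonempty) (hA' : A'.Nonempty)
    (heq : Gam w g A = Gam w' g' A') :
    w = w' ∧ ((g = g' ∧ A = A') ∨ (g ≠ g' ∧ (∀ z, z ≠ w → z = g ∨ z ∈ A) ∧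
      (∀ z, z ≠ w → z = g' ∨ z ∈ A'))) := by
  have s1 : w = w' ∨ w = g' := by
    by_contra hcon
    push Not at hcon
    obtain ⟨a, ha⟩ := hA
    have e1 := (Gam_adj_w hw hwg g).2 (Or.inl rfl)
    have e2 := (Gam_adj_w hw hwg a).2 (Or.inr ha)
    rw [heq, Gam_adj_other hw' hg' hcon.1 hcon.2] at e1 e2
    exact hg (by rw [e1, ← e2]; exact ha)
  have s2 : w' = w ∨ w' = g := by
    by_contra hcon
    push Not at hcon
    obtain ⟨a, ha⟩ := hA'
    have e1 := (Gam_adj_w hw' hwg' g').2 (Or.inl rfl)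
    have e2 := (Gam_adj_w hw' hwg' a).2 (Or.inr ha)
    rw [← heq, Gam_adj_other hw hg hcon.1 hcon.2] at e1 e2
    exact hg' (by rw [e1, ← e2]; exact ha)
  have hww : w = w' := by
    rcases s1 with h | h
    · exact h
    rcases s2 with h' | h'
    · exact h'.symm
    exfalso
    rcases h2 with h3 | h3
    · exact h1' (h'.trans h3)
    · rcases h2' with h4 | h4
      · exact h1 (h.trans h4)
      · exact hwg (by rw [h, h4, h3])
  subst hww
  refine ⟨rfl, ?_⟩
  have hN : ∀ z, (z = g ∨ z ∈ A) ↔ (z = g' ∨ z ∈ A') := by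
    intro z
    rw [← Gam_adj_w hw hwg z, ← Gam_adj_w hw' hwg' z, heq]
  by_cases hgg : g = g'
  · left
    subst hgg
    refine ⟨rfl, ?_⟩
    ext z
    by_cases hz : z = g
    · subst hz; simp [hg, hg']
    · have := hN z
      simpa [hz] using this
  · right
    have hfull : ∀ z, z ≠ w → z = g ∨ z ∈ A := by
      intro z hzw
      by_contra hcon
      have hcon' : ¬ (z = g' ∨ z ∈ A') := fun h => hcon ((hN z).2 h)
      push Not at hcon hcon'
      have e1 := (Gam_adj_g hw' hg' hwg' z).2 ⟨hcon'.1, hcon'.2⟩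
      rw [← heq] at e1
      have e2 := (Gam_adj_other hw hg hzw hcon.1 g').1 e1.symm
      rw [par_nmem hcon.2] at e2
      exact hgg e2.symm
    exact ⟨hgg, hfull, fun z hz => (hN z).1 (hfull z hz)⟩

lemma core0 {w g cc cs : V} {A : Finset V} (hcc : cs ≠ cc) (hwg : w ≠ g) (hw : w ∉ A)
    (hg : g ∉ A) (h1 : w ≠ cc) (hA : A.Nonempty) : Gam cs cc ∅ ≠ Gam w g A := by
  intro heq
  obtain ⟨a, ha⟩ := hA
  have haw : a ≠ w := fun h => hw (h ▸ ha)
  have hag : a ≠ g := fun h => hg (h ▸ ha)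
  by_cases hac : a = cc
  · subst hac
    have e1 : (Gam cs a ∅).Adj a g :=
      (Gam_adj_g (by simp) (by simp) hcc g).2 ⟨hag.symm, by simp⟩
    rw [heq, Gam_adj_other hw hg haw hag, par_mem hw ha] at e1
    exact hwg e1.symm
  · have e1 : (Gam cs cc ∅).Adj cc a :=
      (Gam_adj_g (by simp) (by simp) hcc a).2 ⟨hac, by simp⟩
    rw [heq] at e1
    have e2 := (Gam_adj_other hw hg haw hag cc).1 e1.symm
    rw [par_mem hw ha] at e2
    exact h1 e2.symm

/-- swapping the two centres -/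
lemma Gam_swap {w g : V} {A : Finset V} (hwg : w ≠ g) (hw : w ∉ A) (hg : g ∉ A) :
    Gam w g A = Gam g w (Finset.univ.filter fun z => z ≠ w ∧ z ≠ g ∧ z ∉ A) := by
  apply eq_Gam (Gam_isTree hw hg)
  · simp
  · simp
  · exact (Gam_adj_g hw hg hwg w).2 ⟨hwg, hw⟩
  · intro z hz
    simp at hz
    exact (Gam_adj_g hw hg hwg z).2 ⟨hz.2.1, hz.2.2⟩
  · intro z hz hzg hzw
    simp at hz
    exact (Gam_adj_w hw hwg z).2 (Or.inr (hz hzw hzg))

/-- stars: the other centre does not matter -/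
lemma Gam_star {w w' g : V} (hwg : w ≠ g) (hwg' : w' ≠ g) : Gam w g ∅ = Gam w' g ∅ := by
  apply eq_Gam (Gam_isTree (by simp) (by simp))
  · simp
  · simp
  · exact ((Gam_adj_g (by simp) (by simp) hwg w').2 ⟨hwg', by simp⟩).symm
  · intro z hz; simp at hz
  · intro z _ _ hzg
    exact (Gam_adj_g (by simp) (by simp) hwg z).2 ⟨hzg, by simp⟩

end core

section count
variable {n : ℕ} (c : Fin n)

lemma sA_le {w : Fin (n + 1)} (h : w ≤ c.castSucc) : w.succAbove c = c.succ :=
  Fin.succAbove_of_le_castSucc w c h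
lemma sA_gt {w : Fin (n + 1)} (h : c.castSucc < w) : w.succAbove c = c.castSucc :=
  Fin.succAbove_of_castSucc_lt w c h
lemma sA_or (w : Fin (n + 1)) : w.succAbove c = c.castSucc ∨ w.succAbove c = c.succ := by
  rcases le_or_gt w c.castSucc with h | h
  · exact Or.inr (sA_le c h)
  · exact Or.inl (sA_gt c h)

/-- codes of the first family -/
def C1 : Finset (Σ _ : Fin (n + 1), Finset (Fin (n + 1))) :=
  (Finset.univ.erase c.castSucc).sigma
    (fun w => ((Finset.univ \ {w, w.succAbove c}).powerset).erase ∅)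

def C2 : Finset (Fin (n + 1) × Fin (n + 1)) := Finset.Iio c.castSucc ×ˢ Finset.Ioi c.castSucc
def C3 : Finset (Fin (n + 1) × Fin (n + 1)) := Finset.Ioi c.succ ×ˢ Finset.Iic c.castSucc

lemma mem_C1 {w : Fin (n + 1)} {A : Finset (Fin (n + 1))} :
    (⟨w, A⟩ : Σ _ : Fin (n + 1), Finset (Fin (n + 1))) ∈ C1 c ↔
      w ≠ c.castSucc ∧ A.Nonempty ∧ w ∉ A ∧ w.succAbove c ∉ A := by
  unfold C1
  rw [Finset.mem_sigma]
  simp only [Finset.mem_erase, Finset.mem_univ, and_true, Finset.mem_powerset,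
    Finset.nonempty_iff_ne_empty]
  constructor
  · rintro ⟨h1, h2, h3⟩
    refine ⟨h1, h2, fun h => ?_, fun h => ?_⟩
    · have := h3 h; simp at this
    · have := h3 h; simp at this
  · rintro ⟨h1, h2, h3, h4⟩
    refine ⟨h1, h2, ?_⟩
    intro z hz
    simp only [Finset.mem_sdiff, Finset.mem_univ, true_and, Finset.mem_insert,
      Finset.mem_singleton, not_or]
    exact ⟨fun h => h3 (h ▸ hz), fun h => h4 (h ▸ hz)⟩

lemma card_C1 : (C1 c).card = n * (2 ^ (n - 1) - 1) := by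
  unfold C1
  rw [Finset.card_sigma]
  have : ∀ w ∈ Finset.univ.erase c.castSucc,
      (((Finset.univ \ {w, w.succAbove c} : Finset (Fin (n + 1))).powerset).erase ∅).card =
        2 ^ (n - 1) - 1 := by
    intro w _
    rw [Finset.card_erase_of_mem (by simp), Finset.card_powerset,
      Finset.card_sdiff_of_subset (Finset.subset_univ _), Finset.card_pair
        (Fin.succAbove_ne w c).symm]
    simp
  rw [Finset.sum_congr rfl this, Finset.sum_const,
    Finset.card_erase_of_mem (Finset.mem_univ _)]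
  simp

lemma card_C2 : (C2 c).card = c.val * (n - c.val) := by
  unfold C2
  rw [Finset.card_product, Fin.card_Iio, Fin.card_Ioi]
  simp

lemma card_C3 : (C3 c).card = (n - (c.val + 1)) * (c.val + 1) := by
  unfold C3
  rw [Finset.card_product, Fin.card_Iic, Fin.card_Ioi]
  simp

open Classical in
/-- the trees -/
noncomputable def D1 : Finset (SimpleGraph (Fin (n + 1))) :=
  (C1 c).image (fun s => Gam s.1 (s.1.succAbove c) s.2)
open Classical in
noncomputable def D2 : Finset (SimpleGraph (Fin (n + 1))) :=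
  (C2 c).image (fun p => Gam p.1 c.castSucc {p.2})
open Classical in
noncomputable def D3 : Finset (SimpleGraph (Fin (n + 1))) :=
  (C3 c).image (fun p => Gam p.1 c.succ {p.2})

lemma cs_ne_cc : c.succ ≠ c.castSucc := by
  intro h
  have := congrArg Fin.val h
  simp at this

lemma mem_C2 {p : Fin (n + 1) × Fin (n + 1)} :
    p ∈ C2 c ↔ p.1 < c.castSucc ∧ c.castSucc < p.2 := by
  unfold C2; simp

lemma mem_C3 {p : Fin (n + 1) × Fin (n + 1)} :
    p ∈ C3 c ↔ c.succ < p.1 ∧ p.2 ≤ c.castSucc := by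
  unfold C3; simp

lemma cc_lt_cs : c.castSucc < c.succ := Fin.castSucc_lt_succ

lemma valid1 {w : Fin (n + 1)} {A : Finset (Fin (n + 1))}
    (h : (⟨w, A⟩ : Σ _ : Fin (n + 1), Finset (Fin (n + 1))) ∈ C1 c) :
    w ≠ w.succAbove c ∧ w ∉ A ∧ w.succAbove c ∉ A ∧ w ≠ c.castSucc ∧ A.Nonempty := by
  rw [mem_C1] at h
  exact ⟨(Fin.succAbove_ne w c).symm, h.2.2.1, h.2.2.2, h.1, h.2.1⟩

lemma valid2 {p : Fin (n + 1) × Fin (n + 1)} (h : p ∈ C2 c) :
    p.1 ≠ c.castSucc ∧ p.1 ∉ ({p.2} : Finset (Fin (n + 1))) ∧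
      c.castSucc ∉ ({p.2} : Finset (Fin (n + 1))) := by
  rw [mem_C2] at h
  refine ⟨h.1.ne, ?_, ?_⟩
  · rw [Finset.mem_singleton]; exact (h.1.trans h.2).ne
  · rw [Finset.mem_singleton]; exact h.2.ne

lemma valid3 {p : Fin (n + 1) × Fin (n + 1)} (h : p ∈ C3 c) :
    p.1 ≠ c.succ ∧ p.1 ∉ ({p.2} : Finset (Fin (n + 1))) ∧
      c.succ ∉ ({p.2} : Finset (Fin (n + 1))) ∧ p.1 ≠ c.castSucc := by
  rw [mem_C3] at h
  have h1 := cc_lt_cs c
  refine ⟨h.1.ne', ?_, ?_, ?_⟩
  · rw [Finset.mem_singleton]; exact ((h.2.trans_lt h1).trans h.1).ne'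
  · rw [Finset.mem_singleton]; exact (h.2.trans_lt h1).ne'
  · exact (h1.trans h.1).ne'

lemma card_D1 : (D1 c).card = n * (2 ^ (n - 1) - 1) := by
  classical
  unfold D1
  rw [Finset.card_image_of_injOn, card_C1]
  rintro ⟨w, A⟩ h ⟨w', A'⟩ h' heq
  obtain ⟨a1, a2, a3, a4, a5⟩ := valid1 c h
  obtain ⟨b1, b2, b3, b4, b5⟩ := valid1 c h'
  obtain ⟨e1, e2⟩ := core a1 a2 a3 b1 b2 b3 a4 b4 (sA_or c w) (sA_or c w') a5 b5 heq
  subst e1
  rcases e2 with ⟨_, e2⟩ | ⟨e2, _⟩
  · rw [e2]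
  · exact absurd rfl e2

lemma card_D2 : (D2 c).card = c.val * (n - c.val) := by
  classical
  unfold D2
  rw [Finset.card_image_of_injOn, card_C2]
  rintro ⟨b, a⟩ h ⟨b', a'⟩ h' heq
  obtain ⟨a1, a2, a3⟩ := valid2 c h
  obtain ⟨b1, b2, b3⟩ := valid2 c h'
  obtain ⟨e1, e2⟩ := core (cs := c.succ) a1 a2 a3 b1 b2 b3 a1 b1 (Or.inl rfl) (Or.inl rfl)
    (Finset.singleton_nonempty _) (Finset.singleton_nonempty _) heq
  rcases e2 with ⟨_, e2⟩ | ⟨e2, _⟩
  · exact Prod.ext e1 (Finset.singleton_injective e2)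
  · exact absurd rfl e2

lemma card_D3 : (D3 c).card = (n - (c.val + 1)) * (c.val + 1) := by
  classical
  unfold D3
  rw [Finset.card_image_of_injOn, card_C3]
  rintro ⟨b, a⟩ h ⟨b', a'⟩ h' heq
  obtain ⟨a1, a2, a3, a4⟩ := valid3 c h
  obtain ⟨b1, b2, b3, b4⟩ := valid3 c h'
  obtain ⟨e1, e2⟩ := core (cc := c.castSucc) (cs := c.succ) a1 a2 a3 b1 b2 b3 a4 b4
    (Or.inr rfl) (Or.inr rfl)
    (Finset.singleton_nonempty _) (Finset.singleton_nonempty _) heq
  rcases e2 with ⟨_, e2⟩ | ⟨e2, _⟩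
  · exact Prod.ext e1 (Finset.singleton_injective e2)
  · exact absurd rfl e2

lemma disj12 (hn : 3 ≤ n) : Disjoint (D1 c) (D2 c) := by
  classical
  rw [Finset.disjoint_left]
  intro U h1 h2
  unfold D1 at h1
  unfold D2 at h2
  rw [Finset.mem_image] at h1 h2
  obtain ⟨⟨w, A⟩, h, rfl⟩ := h1
  obtain ⟨⟨b, a⟩, h', heq⟩ := h2
  obtain ⟨a1, a2, a3, a4, a5⟩ := valid1 c h
  obtain ⟨b1, b2, b3⟩ := valid2 c h'
  obtain ⟨e1, e2⟩ := core a1 a2 a3 b1 b2 b3 a4 b1 (sA_or c w) (Or.inl rfl) a5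
    (Finset.singleton_nonempty _) heq.symm
  simp only at e1 e2
  subst e1
  rw [mem_C2] at h'
  rw [sA_le c h'.1.le] at e2
  rcases e2 with ⟨e2, _⟩ | ⟨_, _, e2⟩
  · exact cs_ne_cc c e2
  · obtain ⟨t, t1, t2, t3⟩ := exists_fourth hn w c.castSucc a
    rcases e2 t t1 with e | e
    · exact t2 e
    · rw [Finset.mem_singleton] at e; exact t3 e

lemma disj13 (hn : 3 ≤ n) : Disjoint (D1 c) (D3 c) := by
  classical
  rw [Finset.disjoint_left]
  intro U h1 h2
  unfold D1 at h1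
  unfold D3 at h2
  rw [Finset.mem_image] at h1 h2
  obtain ⟨⟨w, A⟩, h, rfl⟩ := h1
  obtain ⟨⟨b, a⟩, h', heq⟩ := h2
  obtain ⟨a1, a2, a3, a4, a5⟩ := valid1 c h
  obtain ⟨b1, b2, b3, b4⟩ := valid3 c h'
  obtain ⟨e1, e2⟩ := core a1 a2 a3 b1 b2 b3 a4 b4 (sA_or c w) (Or.inr rfl) a5
    (Finset.singleton_nonempty _) heq.symm
  simp only at e1 e2
  subst e1
  rw [mem_C3] at h'
  rw [sA_gt c ((cc_lt_cs c).trans h'.1)] at e2
  rcases e2 with ⟨e2, _⟩ | ⟨_, _, e2⟩
  · exact cs_ne_cc c e2.symm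
  · obtain ⟨t, t1, t2, t3⟩ := exists_fourth hn w c.succ a
    rcases e2 t t1 with e | e
    · exact t2 e
    · rw [Finset.mem_singleton] at e; exact t3 e

lemma disj23 : Disjoint (D2 c) (D3 c) := by
  classical
  rw [Finset.disjoint_left]
  intro U h1 h2
  unfold D2 at h1
  unfold D3 at h2
  rw [Finset.mem_image] at h1 h2
  obtain ⟨⟨b', a'⟩, h, rfl⟩ := h1
  obtain ⟨⟨b, a⟩, h', heq⟩ := h2
  obtain ⟨a1, a2, a3⟩ := valid2 c h
  obtain ⟨b1, b2, b3, b4⟩ := valid3 c h'
  obtain ⟨e1, e2⟩ := core a1 a2 a3 b1 b2 b3 a1 b4 (Or.inl rfl) (Or.inr rfl)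
    (Finset.singleton_nonempty _) (Finset.singleton_nonempty _) heq.symm
  simp only at e1
  subst e1
  rw [mem_C3] at h'
  rw [mem_C2] at h
  exact absurd (h'.1.trans h.1) (not_lt.2 (cc_lt_cs c).le)

open Classical in
/-- all trees on one more vertex which display the star with centre `c` -/
noncomputable def DD : Finset (SimpleGraph (Fin (n + 1))) :=
  insert (Gam c.succ c.castSucc ∅) (D1 c ∪ D2 c ∪ D3 c)

lemma card_DD (hn : 3 ≤ n) : (DD c).card = n * 2 ^ (n - 1) + 2 * (c.val * (n - 1 - c.val)) := by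
  classical
  unfold DD
  rw [Finset.card_insert_of_notMem, Finset.card_union_of_disjoint, Finset.card_union_of_disjoint,
    card_D1, card_D2, card_D3]
  · obtain ⟨k, hk⟩ : ∃ k, n = c.val + 1 + k := ⟨n - (c.val + 1), by omega⟩
    have hP : 1 ≤ 2 ^ (n - 1) := Nat.one_le_two_pow
    obtain ⟨P, hP⟩ : ∃ P, 2 ^ (n - 1) = P + 1 := ⟨2 ^ (n - 1) - 1, by omega⟩
    rw [hP]
    have h1 : n - c.val = k + 1 := by omega
    have h2 : n - (c.val + 1) = k := by omega
    have h3 : n - 1 - c.val = k := by omega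
    rw [h1, h2, h3]
    generalize c.val = d at *
    subst hk
    simp only [Nat.add_sub_cancel]
    ring
  · exact disj12 c hn
  · rw [Finset.disjoint_union_left]
    exact ⟨disj13 c hn, disj23 c⟩
  · intro h
    rw [Finset.mem_union, Finset.mem_union] at h
    rcases h with (h | h) | h
    · unfold D1 at h
      rw [Finset.mem_image] at h
      obtain ⟨⟨w, A⟩, h, heq⟩ := h
      obtain ⟨a1, a2, a3, a4, a5⟩ := valid1 c h
      exact core0 (cs_ne_cc c) a1 a2 a3 a4 a5 heq.symm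
    · unfold D2 at h
      rw [Finset.mem_image] at h
      obtain ⟨⟨w, a⟩, h, heq⟩ := h
      obtain ⟨a1, a2, a3⟩ := valid2 c h
      exact core0 (cs_ne_cc c) a1 a2 a3 a1 (Finset.singleton_nonempty _) heq.symm
    · unfold D3 at h
      rw [Finset.mem_image] at h
      obtain ⟨⟨w, a⟩, h, heq⟩ := h
      obtain ⟨a1, a2, a3, a4⟩ := valid3 c h
      exact core0 (cs_ne_cc c) a1 a2 a3 a4 (Finset.singleton_nonempty _) heq.symm

lemma mem_DD_of1 {w : Fin (n + 1)} {A : Finset (Fin (n + 1))} (h1 : w ≠ c.castSucc)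
    (h2 : w ∉ A) (h3 : w.succAbove c ∉ A) (h4 : A.Nonempty) :
    Gam w (w.succAbove c) A ∈ DD c := by
  classical
  unfold DD D1
  rw [Finset.mem_insert, Finset.mem_union, Finset.mem_union, Finset.mem_image]
  exact Or.inr (Or.inl (Or.inl ⟨⟨w, A⟩, (mem_C1 c).2 ⟨h1, h4, h2, h3⟩, rfl⟩))

lemma mem_DD_star : Gam c.succ c.castSucc ∅ ∈ DD c := by
  classical
  unfold DD
  exact Finset.mem_insert_self _ _

/-- first family, arbitrary code -/
lemma mem_DD_of1' {w : Fin (n + 1)} {A : Finset (Fin (n + 1))}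
    (h2 : w ∉ A) (h3 : w.succAbove c ∉ A) : Gam w (w.succAbove c) A ∈ DD c := by
  classical
  have hlt := cc_lt_cs c
  have hne : c.succ ≠ c.castSucc := cs_ne_cc c
  have hcs : c.succ.succAbove c = c.castSucc := sA_gt c hlt
  have hcc : c.castSucc.succAbove c = c.succ := sA_le c le_rfl
  by_cases hw : w = c.castSucc
  · subst hw
    rw [hcc] at h3 ⊢
    rw [Gam_swap hne.symm h2 h3]
    by_cases hA : (Finset.univ.filter fun z => z ≠ c.castSucc ∧ z ≠ c.succ ∧ z ∉ A).Nonempty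
    · have := mem_DD_of1 c (w := c.succ)
        (A := Finset.univ.filter fun z => z ≠ c.castSucc ∧ z ≠ c.succ ∧ z ∉ A) hne
        (by simp) (by rw [hcs]; simp) hA
      rw [hcs] at this
      exact this
    · rw [Finset.not_nonempty_iff_eq_empty] at hA
      rw [hA]
      exact mem_DD_star c
  · by_cases hA : A.Nonempty
    · exact mem_DD_of1 c hw h2 h3 hA
    · rw [Finset.not_nonempty_iff_eq_empty] at hA
      subst hA
      rcases le_or_gt w c.castSucc with h | h
      · -- star at `c.succ`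
        rw [sA_le c h]
        rw [Gam_star (w' := c.castSucc) (by rintro rfl; exact absurd h (not_le.2 hlt)) hne.symm,
          Gam_swap hne.symm (by simp) (by simp)]
        by_cases hB : (Finset.univ.filter fun z : Fin (n + 1) =>
            z ≠ c.castSucc ∧ z ≠ c.succ ∧ z ∉ (∅ : Finset (Fin (n + 1)))).Nonempty
        · have := mem_DD_of1 c (w := c.succ)
            (A := Finset.univ.filter fun z => z ≠ c.castSucc ∧ z ≠ c.succ ∧
              z ∉ (∅ : Finset (Fin (n + 1)))) hne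
            (by simp) (by rw [hcs]; simp) hB
          rw [hcs] at this
          exact this
        · rw [Finset.not_nonempty_iff_eq_empty] at hB
          rw [hB]
          exact mem_DD_star c
      · rw [sA_gt c h, Gam_star (w' := c.succ) h.ne' hne]
        exact mem_DD_star c

lemma mem_DD_of2 {a b : Fin (n + 1)} (hba : b ≠ a) (hbg : b ≠ a.succAbove c) :
    Gam b (a.succAbove c) {a} ∈ DD c := by
  classical
  have hlt := cc_lt_cs c
  have hga : a.succAbove c ≠ a := Fin.succAbove_ne a c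
  have hb : b ∉ ({a} : Finset (Fin (n + 1))) := by simpa using hba
  have hg : a.succAbove c ∉ ({a} : Finset (Fin (n + 1))) := by simpa using hga
  by_cases hsame : b.succAbove c = a.succAbove c
  · rw [← hsame] at hg ⊢
    exact mem_DD_of1' c hb hg
  rcases le_or_gt a c.castSucc with ha | ha
  · rw [sA_le c ha] at hsame hbg ⊢
    have hb1 : c.castSucc < b := by
      by_contra h
      exact hsame (sA_le c (not_lt.1 h))
    have hb2 : c.succ < b := by
      rcases lt_or_gt_of_ne hbg with h | h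
      · exfalso
        have h1 : c.castSucc.val < b.val := hb1
        have h2 : b.val < c.succ.val := h
        simp at h1 h2
        omega
      · exact h
    unfold DD D3
    rw [Finset.mem_insert, Finset.mem_union, Finset.mem_union]
    refine Or.inr (Or.inr ?_)
    rw [Finset.mem_image]
    exact ⟨(b, a), (mem_C3 c).2 ⟨hb2, ha⟩, rfl⟩
  · rw [sA_gt c ha] at hsame hbg ⊢
    have hb1 : b ≤ c.castSucc := by
      by_contra h
      exact hsame (sA_gt c (not_le.1 h))
    have hb2 : b < c.castSucc := lt_of_le_of_ne hb1 hbg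
    unfold DD D2
    rw [Finset.mem_insert, Finset.mem_union, Finset.mem_union]
    refine Or.inr (Or.inl (Or.inr ?_))
    rw [Finset.mem_image]
    exact ⟨(b, a), (mem_C2 c).2 ⟨hb2, ha⟩, rfl⟩

lemma mem_DD_iff (U : SimpleGraph (Fin (n + 1))) :
    U ∈ DD c ↔ U.IsTree ∧ Displays (starG c) U := by
  classical
  constructor
  · intro h
    unfold DD at h
    rw [Finset.mem_insert, Finset.mem_union, Finset.mem_union] at h
    rcases h with rfl | (h | h) | h
    · refine ⟨Gam_isTree (by simp) (by simp), ?_⟩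
      have := displays_Gam c c.succ ∅ (by simp) (by simp)
      rw [sA_gt c (cc_lt_cs c)] at this
      exact this
    · unfold D1 at h
      rw [Finset.mem_image] at h
      obtain ⟨⟨w, A⟩, h, rfl⟩ := h
      obtain ⟨a1, a2, a3, a4, a5⟩ := valid1 c h
      exact ⟨Gam_isTree a2 a3, displays_Gam c w A a2 a3⟩
    · unfold D2 at h
      rw [Finset.mem_image] at h
      obtain ⟨⟨b, a⟩, h, rfl⟩ := h
      obtain ⟨a1, a2, a3⟩ := valid2 c h
      refine ⟨Gam_isTree a2 a3, ?_⟩
      rw [mem_C2] at h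
      have := displays_Gam' c a b (h.1.trans h.2).ne (by rw [sA_gt c h.2]; exact a1)
      rw [sA_gt c h.2] at this
      exact this
    · unfold D3 at h
      rw [Finset.mem_image] at h
      obtain ⟨⟨b, a⟩, h, rfl⟩ := h
      obtain ⟨a1, a2, a3, a4⟩ := valid3 c h
      refine ⟨Gam_isTree a2 a3, ?_⟩
      rw [mem_C3] at h
      have := displays_Gam' c a b (by simpa using a2) (by rw [sA_le c h.2]; exact a1)
      rw [sA_le c h.2] at this
      exact this
  · rintro ⟨h1, h2⟩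
    rcases shape_of_displays c U h1 h2 with ⟨w, A, a1, a2, rfl⟩ | ⟨a, b, a1, a2, rfl⟩
    · exact mem_DD_of1' c a1 a2
    · exact mem_DD_of2 c a1 a2

theorem mu_star (hn : 3 ≤ n) :
    mu (starG c) (n + 1) = n * 2 ^ (n - 1) + 2 * (c.val * (n - 1 - c.val)) := by
  classical
  rw [← card_DD c hn]
  unfold mu
  rw [Nat.card_congr (Equiv.subtypeEquivRight (fun U => (mem_DD_iff c U).symm)),
    Nat.card_eq_fintype_card]
  exact Fintype.card_coe (DD c)

end count

end StarTree
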