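import Pool.Agent.Lib.StarTree.Upper

namespace StarTree

open SimpleGraph Finset

section
variable {n : ℕ} (T : SimpleGraph (Fin n))

lemma sum_nb (hT : T.IsTree) : ∑ x, (nb T x).card = 2 * (n - 1) := by
  classical
  have h1 := T.sum_degrees_eq_twice_card_edges
  have h2 := hT.card_edgeFinset
  rw [Fintype.card_fin] at h2
  have h3 : T.edgeFinset.card = n - 1 := by omega
  rw [h3] at h1
  rw [← h1]
  refine Finset.sum_congr rfl fun x _ => ?_
  rw [← T.card_neighborFinset_eq_degree]
  congr 1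
  ext y
  simp [nb]

lemma sum_half (hT : T.IsTree) : ∑ x, ((nb T x).filter (fun y => y < x)).card = n - 1 := by
  classical
  have h1 : ∑ x, ((nb T x).filter (fun y => y < x)).card =
      ∑ x, ((nb T x).filter (fun y => x < y)).card := by
    simp_rw [nb, Finset.filter_filter, Finset.card_filter]
    rw [Finset.sum_comm]
    refine Finset.sum_congr rfl fun x _ => Finset.sum_congr rfl fun y _ => ?_
    rw [T.adj_comm]
  have h2 : ∀ x, (nb T x).card = ((nb T x).filter (fun y => y < x)).card +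
      ((nb T x).filter (fun y => x < y)).card := by
    intro x
    rw [← Finset.card_filter_add_card_filter_not (s := nb T x) (fun y => y < x)]
    congr 2
    ext y
    simp only [Finset.mem_filter, and_congr_right_iff, not_lt]
    intro hy
    rw [mem_nb] at hy
    exact ⟨fun h => lt_of_le_of_ne h hy.ne, fun h => h.le⟩
  have h3 := sum_nb T hT
  simp_rw [h2] at h3
  rw [Finset.sum_add_distrib, ← h1] at h3
  omega

open Classical in
/-- leaves -/
noncomputable def leaves : Finset (Fin n) := Finset.univ.filter (fun l => (nb T l).card = 1)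

lemma sum_lf : ∑ x, (lf T x).card = (leaves T).card := by
  classical
  have h1 : ∀ x, lf T x = (leaves T).filter (fun l => T.Adj l x) := by
    intro x
    ext l
    simp only [lf, leaves, Finset.mem_filter, Finset.mem_univ, true_and]
    constructor
    · intro h
      refine ⟨?_, (h x).2 rfl⟩
      rw [Finset.card_eq_one]
      refine ⟨x, ?_⟩
      ext y
      rw [mem_nb, Finset.mem_singleton, h y]
    · rintro ⟨h1, h2⟩ y
      rw [Finset.card_eq_one] at h1
      obtain ⟨z, hz⟩ := h1
      have hx : x ∈ nb T l := mem_nb.2 h2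
      rw [hz, Finset.mem_singleton] at hx
      subst hx
      rw [← mem_nb, hz, Finset.mem_singleton]
  simp_rw [h1, Finset.card_filter]
  rw [Finset.sum_comm, Finset.card_eq_sum_ones]
  refine Finset.sum_congr rfl fun l hl => ?_
  unfold leaves at hl
  rw [Finset.mem_filter] at hl
  rw [← Finset.card_filter, ← hl.2]
  congr 1

theorem mu_upper (hT : T.IsTree) :
    mu T (n + 1) + (leaves T).card + n ^ 2 ≤ n * ∑ x, 2 ^ (nb T x).card + 1 := by
  have hn : 1 ≤ n := by
    obtain ⟨x⟩ := hT.connected.nonempty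
    have := x.isLt
    omega
  have h1 := (mu_le_EE T).trans (card_EE_le T)
  rw [Finset.sum_add_distrib, Finset.sum_add_distrib] at h1
  have h2 : ∑ x, (E2 T x).card + (n * n + n * (2 * (n - 1))) = n * ∑ x, 2 ^ (nb T x).card := by
    rw [← sum_nb T hT, Finset.mul_sum, Finset.mul_sum]
    have : n * n = ∑ _x : Fin n, n := by simp
    rw [this, ← Finset.sum_add_distrib, ← Finset.sum_add_distrib]
    refine Finset.sum_congr rfl fun x _ => ?_
    rw [← card_E2 T x]
    ring
  have h3 : ∑ x, (E1 T x).card = (n - 1) * (n - 1) := by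
    simp_rw [card_E1]
    rw [← Finset.mul_sum, sum_half T hT]
  have h4 : ∑ x, (E0 T x).card + (leaves T).card = n * n := by
    rw [← sum_lf T, ← Finset.sum_add_distrib]
    simp_rw [card_E0]
    simp
  obtain ⟨k, rfl⟩ : ∃ k, n = k + 1 := ⟨n - 1, by omega⟩
  simp only [Nat.add_sub_cancel] at h2 h3
  nlinarith

end

/-- the chord inequality for `2 ^ d` -/
lemma chord (d : ℕ) (hd : 1 ≤ d) (k : ℕ) :
    ((d + k : ℕ) - 1 : ℤ) * (2 ^ d - 2) ≤ (d - 1) * (2 ^ (d + k) - 2) := by
  induction k with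
  | zero => simp
  | succ k ih =>
    have h1 : (2 : ℤ) ^ (d + (k + 1)) = 2 * 2 ^ (d + k) := by ring
    rw [h1]
    have h2 : ((d + (k + 1) : ℕ) - 1 : ℤ) = ((d + k : ℕ) - 1 : ℤ) + 1 := by push_cast; ring
    rw [h2]
    rcases Nat.lt_or_ge d 2 with h | h
    · have : d = 1 := by omega
      subst this
      norm_num
    · have h3 : (2 : ℤ) ^ d ≤ 2 ^ (d + k) := by
        apply pow_le_pow_right₀ (by norm_num); omega
      have h4 : (1 : ℤ) ≤ (d : ℤ) - 1 := by
        have : (2 : ℤ) ≤ d := by exact_mod_cast h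
        linarith
      have h5 : (0 : ℤ) < 2 ^ (d + k) := by positivity
      nlinarith

section
variable {n : ℕ} (T : SimpleGraph (Fin n))

lemma nb_pos (hT : T.IsTree) (hn : 2 ≤ n) (x : Fin n) : 1 ≤ (nb T x).card := by
  classical
  have : Nontrivial (Fin n) := Fin.nontrivial_iff_two_le.2 hn
  obtain ⟨y, hy⟩ := hT.connected.preconnected.exists_adj_of_nontrivial x
  exact Finset.card_pos.2 ⟨y, mem_nb.2 hy⟩

lemma leaves_ge (hT : T.IsTree) (hn : 2 ≤ n) : 2 ≤ (leaves T).card := by
  classical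
  have h1 := sum_nb T hT
  have h2 : ∀ x, 2 ≤ (nb T x).card + (if x ∈ leaves T then 1 else 0) := by
    intro x
    have h3 := nb_pos T hT hn x
    by_cases hx : x ∈ leaves T
    · rw [if_pos hx]; omega
    · rw [if_neg hx]
      have : (nb T x).card ≠ 1 := by
        intro h
        exact hx (by simp [leaves, h])
      omega
  have h3 := Finset.sum_le_sum (fun x (_ : x ∈ (Finset.univ : Finset (Fin n))) => h2 x)
  rw [Finset.sum_add_distrib, h1] at h3
  simp only [Finset.sum_const, Finset.card_univ, Fintype.card_fin, smul_eq_mul,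
    Finset.sum_ite_mem, Finset.univ_inter, mul_one] at h3
  omega

lemma nb_le (hns : ∀ c, ∃ x, x ≠ c ∧ ¬ T.Adj c x) (x : Fin n) : (nb T x).card + 2 ≤ n := by
  classical
  obtain ⟨y, h1, h2⟩ := hns x
  have hsub : nb T x ⊆ (Finset.univ.erase x).erase y := by
    intro z hz
    rw [mem_nb] at hz
    rw [Finset.mem_erase, Finset.mem_erase]
    exact ⟨fun h => h2 (h ▸ hz), hz.ne', Finset.mem_univ _⟩
  have h3 := Finset.card_le_card hsub
  rw [Finset.card_erase_of_mem (Finset.mem_erase.2 ⟨h1, Finset.mem_univ _⟩),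
    Finset.card_erase_of_mem (Finset.mem_univ _), Finset.card_univ, Fintype.card_fin] at h3
  have h4 : 2 ≤ n := by
    have := x.isLt
    have := y.isLt
    have : x.val ≠ y.val := fun h => h1 (Fin.ext h.symm)
    omega
  omega

lemma pow_big (n : ℕ) (hn : 4 ≤ n) :
    (n : ℤ) ^ 3 + 3 * n + 3 < n * (n - 4) * 2 ^ (n - 2) + 5 * n ^ 2 := by
  rcases Nat.lt_or_ge n 5 with h | h
  · have : n = 4 := by omega
    subst this
    norm_num
  · have h1 : (n : ℤ) + 3 ≤ 2 ^ (n - 2) := by
      obtain ⟨k, rfl⟩ : ∃ k, n = k + 5 := ⟨n - 5, by omega⟩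
      have h2 : k + 5 - 2 = k + 3 := by omega
      rw [h2]
      clear h2 h hn
      induction k with
      | zero => norm_num
      | succ k ih =>
        have : (2 : ℤ) ^ (k + 1 + 3) = 2 * 2 ^ (k + 3) := by ring
        rw [this]
        push_cast at ih ⊢
        linarith
    have h2 : (5 : ℤ) ≤ n := by exact_mod_cast h
    have h3 : (0 : ℤ) ≤ n * (n - 4) := by nlinarith
    have h4 := mul_le_mul_of_nonneg_left h1 h3
    nlinarith

/-- trees which are not stars have a small support count at `n + 1` -/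
theorem mu_nonstar (hT : T.IsTree) (hn : 4 ≤ n) (hns : ∀ c, ∃ x, x ≠ c ∧ ¬ T.Adj c x) :
    mu T (n + 1) < n * 2 ^ (n - 1) := by
  classical
  have h1 := mu_upper T hT
  have h2 := leaves_ge T hT (by omega)
  have h3 := sum_nb T hT
  -- the chord inequality at each vertex
  have h4 : ∀ x, ((n : ℤ) - 3) * (2 ^ (nb T x).card - 2) ≤
      ((nb T x).card - 1) * (2 ^ (n - 2) - 2) := by
    intro x
    have h5 := nb_le T hns x
    have h6 := chord (nb T x).card (nb_pos T hT (by omega) x) (n - 2 - (nb T x).card)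
    have h7 : (nb T x).card + (n - 2 - (nb T x).card) = n - 2 := by omega
    rw [h7] at h6
    have h8 : ((n - 2 : ℕ) : ℤ) - 1 = n - 3 := by
      rw [Nat.cast_sub (by omega)]; push_cast; ring
    rw [h8] at h6
    exact h6
  have h5 := Finset.sum_le_sum (fun x (_ : x ∈ (Finset.univ : Finset (Fin n))) => h4 x)
  rw [← Finset.mul_sum, ← Finset.sum_mul, Finset.sum_sub_distrib, Finset.sum_sub_distrib] at h5
  have h6 : ∑ x : Fin n, ((nb T x).card : ℤ) = 2 * (n - 1) := by
    have : ((∑ x : Fin n, (nb T x).card : ℕ) : ℤ) = ((2 * (n - 1) : ℕ) : ℤ) := by rw [h3]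
    rw [Nat.cast_sum] at this
    rw [this]
    push_cast [Nat.cast_sub (show 1 ≤ n by omega)]
    ring
  rw [h6] at h5
  simp only [Finset.sum_const, Finset.card_univ, Fintype.card_fin, nsmul_eq_mul, mul_one] at h5
  set S : ℤ := ∑ x : Fin n, (2 : ℤ) ^ (nb T x).card with hS
  have h7 : (mu T (n + 1) : ℤ) + (leaves T).card + n ^ 2 ≤ n * S + 1 := by
    have : ((mu T (n + 1) + (leaves T).card + n ^ 2 : ℕ) : ℤ) ≤
        ((n * ∑ x, 2 ^ (nb T x).card + 1 : ℕ) : ℤ) := by exact_mod_cast h1
    push_cast at this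
    exact this
  have h8 : (2 : ℤ) ≤ (leaves T).card := by exact_mod_cast h2
  have h9 := pow_big n hn
  have h10 : (2 : ℤ) ^ (n - 1) = 2 * 2 ^ (n - 2) := by
    rw [← pow_succ']
    congr 1
    omega
  have hn' : (4 : ℤ) ≤ n := by exact_mod_cast hn
  have hgoal : (mu T (n + 1) : ℤ) < n * 2 ^ (n - 1) := by
    rw [h10]
    by_contra hcon
    push Not at hcon
    set P : ℤ := 2 ^ (n - 2) with hP
    have h11 : (n : ℤ) * (2 * P) + 1 + n ^ 2 ≤ n * S := by linarith
    -- multiply by `n - 3`
    have h12 : ((n : ℤ) - 3) * (n * (2 * P) + 1 + n ^ 2) ≤ ((n : ℤ) - 3) * (n * S) :=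
      mul_le_mul_of_nonneg_left h11 (by linarith)
    have h13 : (n : ℤ) * (((n : ℤ) - 3) * (S - n * 2)) ≤ n * ((2 * (n - 1) - n) * (P - 2)) :=
      mul_le_mul_of_nonneg_left h5 (by linarith)
    nlinarith
  exact_mod_cast hgoal

lemma starG_isTree (c : Fin n) : (starG c).IsTree := by
  have h : starG c = parG (fun _ : Fin n => c) := by
    ext x y
    constructor
    · rintro ⟨h1, h2 | h2⟩
      · exact ⟨h1, Or.inr h2.symm⟩
      · exact ⟨h1, Or.inl h2.symm⟩
    · rintro ⟨h1, h2 | h2⟩
      · exact ⟨h1, Or.inr h2.symm⟩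
      · exact ⟨h1, Or.inl h2.symm⟩
  rw [h]
  exact parG_isTree _ c (fun _ => rfl)

lemma eq_starG (hT : T.IsTree) {c : Fin n} (h : ∀ x, x ≠ c → T.Adj c x) : T = starG c := by
  refine eq_of_le_tree hT (starG_isTree c).connected ?_
  intro x y hxy
  obtain ⟨h1, rfl | rfl⟩ := hxy
  · exact h y h1.symm
  · exact (h x h1).symm

lemma starG_rev (c : Fin n) : (starG c).comap Fin.rev = starG (Fin.rev c) := by
  ext x y
  simp only [comap_adj, starG]
  constructor
  · rintro ⟨h1, h2 | h2⟩
    · exact ⟨fun h => h1 (by rw [h]), Or.inl (by rw [← h2, Fin.rev_rev])⟩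
    · exact ⟨fun h => h1 (by rw [h]), Or.inr (by rw [← h2, Fin.rev_rev])⟩
  · rintro ⟨h1, h2 | h2⟩
    · exact ⟨fun h => h1 (Fin.rev_injective h), Or.inl (by rw [h2, Fin.rev_rev])⟩
    · exact ⟨fun h => h1 (Fin.rev_injective h), Or.inr (by rw [h2, Fin.rev_rev])⟩

/-- a tree with at most three vertices is a star -/
lemma small_star (hT : T.IsTree) (hn : n ≤ 3) : ∃ c, ∀ x, x ≠ c → T.Adj c x := by
  by_contra hcon
  push Not at hcon
  have h1 := sum_nb T hT
  obtain ⟨x0⟩ := hT.connected.nonempty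
  have h2 : ∀ x, (nb T x).card ≤ n - 2 := fun x => by
    have := nb_le T hcon x; omega
  have h3 := Finset.sum_le_sum (fun x (_ : x ∈ (Finset.univ : Finset (Fin n))) => h2 x)
  rw [h1] at h3
  simp only [Finset.sum_const, Finset.card_univ, Fintype.card_fin, smul_eq_mul] at h3
  have h4 := nb_le T hcon x0
  interval_cases n <;> omega

end

theorem star_main {n : ℕ} (T₁ T₂ : SimpleGraph (Fin n)) (h₁ : T₁.IsTree) (h₂ : T₂.IsTree)
    (hs : ∃ c, ∀ x, x ≠ c → T₁.Adj c x) (h : mu T₁ (n + 1) = mu T₂ (n + 1)) :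
    T₂ = T₁ ∨ T₂ = T₁.comap Fin.rev := by
  classical
  obtain ⟨c, hc⟩ := hs
  have e1 := eq_starG T₁ h₁ hc
  subst e1
  have hs2 : ∃ c', ∀ x, x ≠ c' → T₂.Adj c' x := by
    rcases Nat.lt_or_ge n 4 with hn | hn
    · exact small_star T₂ h₂ (by omega)
    · by_contra hcon
      push Not at hcon
      have h3 := mu_nonstar T₂ h₂ hn hcon
      rw [← h, mu_star c (by omega)] at h3
      omega
  obtain ⟨c', hc'⟩ := hs2
  have e2 := eq_starG T₂ h₂ hc'
  subst e2
  rw [starG_rev]
  have hcc : c' = c ∨ c' = Fin.rev c := by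
    have l1 := c.isLt
    have l2 := c'.isLt
    rcases Nat.lt_or_ge n 3 with hn | hn
    · by_cases h3 : c'.val = c.val
      · exact Or.inl (Fin.ext h3)
      · right
        apply Fin.ext
        rw [Fin.val_rev]
        omega
    · rw [mu_star c hn, mu_star c' hn] at h
      have h3 : c.val * (n - 1 - c.val) = c'.val * (n - 1 - c'.val) := by omega
      obtain ⟨a, ha⟩ : ∃ a, n - 1 - c.val = a := ⟨_, rfl⟩
      obtain ⟨b, hb⟩ : ∃ b, n - 1 - c'.val = b := ⟨_, rfl⟩
      rw [ha, hb] at h3
      have h4 : c.val + a = c'.val + b := by omega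
      have h5 : ((c.val : ℤ) - c'.val) * ((c.val : ℤ) - b) = 0 := by
        have h6 : (c.val : ℤ) * a = c'.val * b := by exact_mod_cast h3
        have h7 : (c.val : ℤ) + a = c'.val + b := by exact_mod_cast h4
        have h8 : (a : ℤ) = c'.val + b - c.val := by linarith
        rw [h8] at h6
        nlinarith
      rcases mul_eq_zero.1 h5 with h6 | h6
      · left
        apply Fin.ext
        omega
      · right
        apply Fin.ext
        rw [Fin.val_rev]
        omega
  rcases hcc with h3 | h3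
  · left; rw [h3]
  · right; rw [h3]

end StarTree
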