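import Pool.Agent.Lib.StarTree.Basic

namespace StarTree

open SimpleGraph

/-- The graph joining every vertex to its image under `f`. -/
def parG {V : Type} (f : V → V) : SimpleGraph V where
  Adj x y := x ≠ y ∧ (f x = y ∨ f y = x)
  symm := ⟨fun _ _ h => ⟨h.1.symm, h.2.symm⟩⟩
  loopless := ⟨fun _ h => h.1 rfl⟩

lemma parG_le {V : Type} (f : V → V) (U : SimpleGraph V)
    (h : ∀ z, z ≠ f z → U.Adj z (f z)) : parG f ≤ U := by
  intro x y hxy
  obtain ⟨hne, h1 | h1⟩ := hxy
  · rw [← h1]; exact h x (by rw [h1]; exact hne)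
  · rw [← h1]; exact (h y (by rw [h1]; exact hne.symm)).symm

lemma parG_isTree {V : Type} [Fintype V] (f : V → V) (r : V) (h : ∀ z, f (f z) = r) :
    (parG f).IsTree := by
  classical
  have hr : f r = r := by
    have h1 := h (f r)
    rw [h r] at h1
    exact h1
  have hfix : ∀ z, z ≠ r → z ≠ f z := by
    intro z hz hzf
    apply hz
    have := h z
    rw [← hzf, ← hzf] at this
    exact this
  rw [isTree_iff_connected_and_card]
  constructor
  · have hb : ∀ z, (parG f).Reachable r z := by
      have h1 : ∀ z, (parG f).Reachable (f z) z := by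
        intro z
        by_cases hz : z = f z
        · rw [← hz]
        · exact Adj.reachable ⟨fun h => hz h.symm, Or.inr rfl⟩
      intro z
      have h2 := (h1 (f z)).trans (h1 z)
      rw [h z] at h2
      exact h2
    have : Nonempty V := ⟨r⟩
    exact ⟨fun a b => (hb a).symm.trans (hb b)⟩
  · have hbij : Nat.card {z : V // z ≠ r} = Nat.card (parG f).edgeSet := by
      refine Nat.card_congr (Equiv.ofBijective
        (fun z : {z : V // z ≠ r} => (⟨s(z.1, f z.1), hfix z.1 z.2, Or.inl rfl⟩ :
          (parG f).edgeSet)) ⟨?_, ?_⟩)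
      · rintro ⟨z, hz⟩ ⟨z', hz'⟩ heq
        simp only [Subtype.mk.injEq, Sym2.eq_iff] at heq
        rcases heq with ⟨h1, _⟩ | ⟨h1, h2⟩
        · exact Subtype.ext h1
        · exfalso
          apply hz
          rw [h1, ← h2]
          exact h z
      · rintro ⟨e, he⟩
        induction e with
        | _ x y =>
          obtain ⟨hne, h1 | h1⟩ := he
          · refine ⟨⟨x, ?_⟩, ?_⟩
            · rintro rfl
              exact hne (by rw [← h1, hr])
            · simp [h1]
          · refine ⟨⟨y, ?_⟩, ?_⟩
            · rintro rfl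
              exact hne (by rw [← h1, hr])
            · simp [h1, Sym2.eq_swap]
    rw [← hbij, Nat.card_eq_fintype_card, Nat.card_eq_fintype_card, Fintype.card_subtype,
      Finset.filter_ne', Finset.card_erase_of_mem (Finset.mem_univ _), Finset.card_univ]
    have : 0 < Fintype.card V := Fintype.card_pos_iff.2 ⟨r⟩
    omega

lemma eq_of_le_tree {V : Type} [Fintype V] {G U : SimpleGraph V} (hU : U.IsTree)
    (hG : G.Connected) (h : G ≤ U) : U = G :=
  ((isTree_iff_minimal_connected.1 hU).eq_of_le hG h).symm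

/-- parent function of a double star with centres `w`, `g` (root `g`), `A` hanging at `w` -/
def par {V : Type} [DecidableEq V] (w g : V) (A : Finset V) (z : V) : V :=
  if z = w then g else if z ∈ A then w else g

/-- double star with centres `w`, `g`: the vertices of `A` hang at `w`, the others at `g` -/
def Gam {V : Type} [DecidableEq V] (w g : V) (A : Finset V) : SimpleGraph V :=
  parG (par w g A)

section
variable {V : Type} [DecidableEq V] [Fintype V] {w g : V} {A : Finset V}

lemma par_w : par w g A w = g := by simp [par]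
lemma par_mem (hw : w ∉ A) {z : V} (hz : z ∈ A) : par w g A z = w := by
  have : z ≠ w := fun h => hw (h ▸ hz)
  simp [par, this, hz]
lemma par_nmem {z : V} (hz : z ∉ A) : par w g A z = g := by
  by_cases h : z = w <;> simp [par, h, hz]

lemma par_par (hw : w ∉ A) (hg : g ∉ A) (z : V) : par w g A (par w g A z) = g := by
  by_cases hz : z ∈ A
  · rw [par_mem hw hz, par_w]
  · rw [par_nmem hz, par_nmem hg]

lemma Gam_isTree (hw : w ∉ A) (hg : g ∉ A) : (Gam w g A).IsTree :=
  parG_isTree _ g (par_par hw hg)

/-- a tree with the right edges is the double star -/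
lemma eq_Gam {U : SimpleGraph V} (hU : U.IsTree) (hw : w ∉ A) (hg : g ∉ A)
    (h1 : U.Adj w g) (h2 : ∀ z ∈ A, U.Adj w z) (h3 : ∀ z, z ∉ A → z ≠ w → z ≠ g → U.Adj g z) :
    U = Gam w g A := by
  refine eq_of_le_tree hU (Gam_isTree hw hg).connected (parG_le _ _ ?_)
  intro z hz
  by_cases hzw : z = w
  · subst hzw; rw [par_w]; exact h1
  by_cases hzA : z ∈ A
  · rw [par_mem hw hzA]; exact (h2 z hzA).symm
  · rw [par_nmem hzA] at hz ⊢
    exact (h3 z hzA hzw hz).symm

/-- adjacency in the double star -/
lemma Gam_adj_w (hw : w ∉ A) (hwg : w ≠ g) (z : V) : (Gam w g A).Adj w z ↔ z = g ∨ z ∈ A := by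
  constructor
  · rintro ⟨hne, h | h⟩
    · rw [par_w] at h; exact Or.inl h.symm
    · by_cases hz : z ∈ A
      · exact Or.inr hz
      · rw [par_nmem hz] at h; exact absurd h.symm hwg
  · rintro (h | h)
    · subst h; exact ⟨hwg, Or.inl par_w⟩
    · refine ⟨fun h' => hw (h' ▸ h), Or.inr (par_mem hw h)⟩

lemma Gam_adj_g (hw : w ∉ A) (hg : g ∉ A) (hwg : w ≠ g) (z : V) :
    (Gam w g A).Adj g z ↔ z ≠ g ∧ z ∉ A := by
  constructor
  · rintro ⟨hne, h | h⟩
    · rw [par_nmem hg] at h; exact absurd h hne
    · refine ⟨hne.symm, fun hz => ?_⟩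
      rw [par_mem hw hz] at h; exact hwg h
  · rintro ⟨h1, h2⟩
    exact ⟨h1.symm, Or.inr (par_nmem h2)⟩

/-- the other vertices are leaves -/
lemma Gam_adj_other (hw : w ∉ A) (hg : g ∉ A) {y : V} (hyw : y ≠ w) (hyg : y ≠ g) (z : V) :
    (Gam w g A).Adj y z ↔ z = par w g A y := by
  have hy : ∀ z, par w g A z ≠ y := by
    intro z h
    by_cases hz : z ∈ A
    · rw [par_mem hw hz] at h; exact hyw h.symm
    · rw [par_nmem hz] at h; exact hyg h.symm
  constructor
  · rintro ⟨hne, h | h⟩
    · exact h.symm
    · exact absurd h (hy z)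
  · intro h
    exact ⟨fun h' => hy y (by rw [← h]; exact h'.symm), Or.inl h.symm⟩

end

/-- the star with centre `c` -/
def starG {V : Type} (c : V) : SimpleGraph V where
  Adj x y := x ≠ y ∧ (x = c ∨ y = c)
  symm := ⟨fun _ _ h => ⟨h.1.symm, h.2.symm⟩⟩
  loopless := ⟨fun _ h => h.1 rfl⟩

/-- trees which display a star by one step -/
lemma shape_of_displays {n : ℕ} (c : Fin n) (U : SimpleGraph (Fin (n + 1))) (hU : U.IsTree)
    (h : Displays (starG c) U) :
    (∃ w A, w ∉ A ∧ w.succAbove c ∉ A ∧ U = Gam w (w.succAbove c) A) ∨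
    (∃ a b, b ≠ a ∧ b ≠ a.succAbove c ∧ U = Gam b (a.succAbove c) {a}) := by
  classical
  obtain ⟨w, x, h1, h2⟩ := step_of_displays _ U h
  have hgw : w.succAbove c ≠ w := Fin.succAbove_ne w c
  by_cases hx : x = c
  · subst hx
    left
    refine ⟨w, Finset.univ.filter (fun y => y ≠ w.succAbove x ∧ U.Adj w y), ?_, ?_, ?_⟩
    · simp
    · simp
    · apply eq_Gam hU
      · simp
      · simp
      · exact h1
      · intro z hz
        simp at hz
        exact hz.2
      · intro z hz hzw hzg
        simp at hz
        have hz' := hz hzg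
        obtain ⟨j, rfl⟩ := Fin.exists_succAbove_eq hzw
        have hjx : j ≠ x := fun h => hzg (h ▸ rfl)
        have h3 := (h2 x j hjx.symm).1 ⟨hjx.symm, Or.inl rfl⟩
        rcases h3 with h3 | h3 | h3
        · exact h3
        · exact absurd h3.2 hz'
        · exact absurd h3.1 hjx
  · set g := w.succAbove c with hg
    set b := w.succAbove x with hb
    have hbg : b ≠ g := fun h => hx (Fin.succAbove_right_injective h)
    have hbw : b ≠ w := Fin.succAbove_ne w x
    have hrest : ∀ z, z ≠ w → z ≠ g → z ≠ b → U.Adj g z := by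
      intro z hzw hzg hzb
      obtain ⟨j, rfl⟩ := Fin.exists_succAbove_eq hzw
      have hjc : j ≠ c := fun h => hzg (h ▸ rfl)
      have hjx : j ≠ x := fun h => hzb (h ▸ rfl)
      have h3 := (h2 c j hjc.symm).1 ⟨hjc.symm, Or.inl rfl⟩
      rcases h3 with h3 | h3 | h3
      · exact h3
      · exact absurd h3.1.symm hx
      · exact absurd h3.1 hjx
    have h3 := (h2 c x (Ne.symm hx)).1 ⟨Ne.symm hx, Or.inl rfl⟩
    rcases h3 with h3 | h3 | h3
    · right
      refine ⟨w, b, hbw, hbg, ?_⟩
      apply eq_Gam hU
      · simpa using hbw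
      · simpa using hgw
      · exact h3.symm
      · intro z hz
        rw [Finset.mem_singleton] at hz
        subst hz
        exact h1.symm
      · intro z hz hzb hzg
        rw [Finset.mem_singleton] at hz
        exact hrest z hz hzg hzb
    · exact absurd h3.1.symm hx
    · left
      refine ⟨w, {b}, ?_, ?_, ?_⟩
      · simpa using hbw.symm
      · simpa using hbg.symm
      · apply eq_Gam hU
        · simpa using hbw.symm
        · simpa using hbg.symm
        · exact h3.2.symm
        · intro z hz
          rw [Finset.mem_singleton] at hz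
          subst hz
          exact h1
        · intro z hz hzw hzg
          rw [Finset.mem_singleton] at hz
          exact hrest z hzw hzg hz

lemma displays_Gam {n : ℕ} (c : Fin n) (w : Fin (n + 1)) (A : Finset (Fin (n + 1)))
    (hw : w ∉ A) (hg : w.succAbove c ∉ A) :
    Displays (starG c) (Gam w (w.succAbove c) A) := by
  have hwg : w ≠ w.succAbove c := (Fin.succAbove_ne w c).symm
  apply displays_of_step _ _ w c
  refine ⟨(Gam_adj_w hw hwg _).2 (Or.inl rfl), ?_⟩
  have key : ∀ j, j ≠ c → ((Gam w (w.succAbove c) A).Adj (w.succAbove c) (w.succAbove j) ∨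
      (Gam w (w.succAbove c) A).Adj w (w.succAbove j)) := by
    intro j hj
    rw [Gam_adj_g hw hg hwg, Gam_adj_w hw hwg]
    by_cases h : w.succAbove j ∈ A
    · exact Or.inr (Or.inr h)
    · exact Or.inl ⟨fun h' => hj (Fin.succAbove_right_injective h'), h⟩
  intro i j hij
  constructor
  · rintro ⟨_, rfl | rfl⟩
    · rcases key j hij.symm with h | h
      · exact Or.inl h
      · exact Or.inr (Or.inl ⟨rfl, h⟩)
    · rcases key i hij with h | h
      · exact Or.inl h.symm
      · exact Or.inr (Or.inr ⟨rfl, h.symm⟩)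
  · rintro (h | h | h)
    · refine ⟨hij, ?_⟩
      by_contra hcon
      push Not at hcon
      have h1 : w.succAbove i ≠ w.succAbove c := fun h' => hcon.1 (Fin.succAbove_right_injective h')
      have h2 : w.succAbove j ≠ w.succAbove c := fun h' => hcon.2 (Fin.succAbove_right_injective h')
      rw [Gam_adj_other hw hg (Fin.succAbove_ne w i) h1] at h
      by_cases hA : w.succAbove i ∈ A
      · rw [par_mem hw hA] at h; exact Fin.succAbove_ne w j h
      · rw [par_nmem hA] at h; exact h2 h
    · exact ⟨hij, Or.inl h.1⟩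
    · exact ⟨hij, Or.inr h.1⟩

lemma displays_Gam' {n : ℕ} (c : Fin n) (a b : Fin (n + 1)) (hba : b ≠ a)
    (hbg : b ≠ a.succAbove c) :
    Displays (starG c) (Gam b (a.succAbove c) {a}) := by
  have hga : a.succAbove c ≠ a := Fin.succAbove_ne a c
  have hb : b ∉ ({a} : Finset (Fin (n + 1))) := by simpa using hba
  have hg : a.succAbove c ∉ ({a} : Finset (Fin (n + 1))) := by simpa using hga
  obtain ⟨x, rfl⟩ := Fin.exists_succAbove_eq hba
  have hxc : x ≠ c := fun h => hbg (h ▸ rfl)
  apply displays_of_step _ _ a x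
  refine ⟨((Gam_adj_w hb hbg _).2 (Or.inr (Finset.mem_singleton_self _))).symm, ?_⟩
  have hleaf : ∀ z, (Gam (a.succAbove x) (a.succAbove c) {a}).Adj a z ↔ z = a.succAbove x := by
    intro z
    rw [Gam_adj_other hb hg hba.symm hga.symm, par_mem hb (Finset.mem_singleton_self _)]
  have hcen : ∀ j, (Gam (a.succAbove x) (a.succAbove c) {a}).Adj (a.succAbove c)
      (a.succAbove j) ↔ j ≠ c := by
    intro j
    rw [Gam_adj_g hb hg hbg]
    constructor
    · rintro ⟨h, _⟩ rfl
      exact h rfl
    · intro h
      exact ⟨fun h' => h (Fin.succAbove_right_injective h'),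
        by simpa using Fin.succAbove_ne a j⟩
  intro i j hij
  constructor
  · rintro ⟨_, rfl | rfl⟩
    · exact Or.inl ((hcen j).2 hij.symm)
    · exact Or.inl ((hcen i).2 hij).symm
  · rintro (h | h | h)
    · refine ⟨hij, ?_⟩
      by_contra hcon
      push Not at hcon
      obtain ⟨hne, h | h⟩ := h
      · rw [par_nmem (by simpa using Fin.succAbove_ne a i)] at h
        exact hcon.2 (Fin.succAbove_right_injective h).symm
      · rw [par_nmem (by simpa using Fin.succAbove_ne a j)] at h
        exact hcon.1 (Fin.succAbove_right_injective h).symm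
    · obtain ⟨rfl, h⟩ := h
      rw [hleaf] at h
      exact absurd (Fin.succAbove_right_injective h).symm hij
    · obtain ⟨rfl, h⟩ := h
      have h' := (hleaf _).1 h.symm
      exact absurd (Fin.succAbove_right_injective h') hij

end StarTree
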