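import Pool.Agent.Lib.StarTree.Split

namespace StarTree

open SimpleGraph Finset

section
variable {n : ℕ} (T : SimpleGraph (Fin n))

lemma mu_eq_card (m : ℕ) : ∃ S : Finset (SimpleGraph (Fin m)), S.card = mu T m ∧
    ∀ U, U ∈ S ↔ U.IsTree ∧ Displays T U := by
  classical
  refine ⟨Finset.univ.filter (fun U => U.IsTree ∧ Displays T U), ?_, by simp⟩
  unfold mu
  rw [Nat.card_eq_fintype_card, Fintype.card_subtype]

theorem mu_lower (hT : T.IsTree) (x : Fin n) :
    n * 2 ^ (nb T x).card ≤ mu T (n + 1) + n * (n - 1) := by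
  classical
  obtain ⟨f, hx, rfl, hall⟩ := exists_parent hT x
  set N := nb (parG f) x with hN
  have hNA : ∀ A ∈ N.powerset, ∀ i ∈ A, i ≠ x ∧ f i = x := by
    intro A hA i hi
    have h1 : i ∈ N := Finset.mem_powerset.1 hA hi
    rw [hN, mem_nb] at h1
    obtain ⟨h2, h3 | h3⟩ := h1
    · rw [hx] at h3
      exact absurd h3 h2
    · exact ⟨h2.symm, h3⟩
  obtain ⟨S, hS, hS'⟩ := mu_eq_card (parG f) (n + 1)
  rw [← hS]
  set W : Finset (Fin (n + 1)) := Finset.univ.erase x.castSucc with hW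
  have hWc : W.card = n := by
    rw [hW, Finset.card_erase_of_mem (Finset.mem_univ _)]; simp
  let F : Fin (n + 1) → Finset (SimpleGraph (Fin (n + 1))) := fun w => N.powerset.image (SP f x w)
  have hFc : ∀ w, (F w).card = 2 ^ N.card := by
    intro w
    rw [Finset.card_image_of_injOn, Finset.card_powerset]
    intro A hA B hB hAB
    have h1 := SP_cA (w := w) hx (hNA A hA)
    have h2 := SP_cA (w := w) hx (hNA B hB)
    have hAB' : SP f x w A = SP f x w B := hAB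
    rw [← h1, ← h2, hAB']
  have hFS : ∀ w, F w ⊆ S := by
    intro w U hU
    obtain ⟨A, hA, rfl⟩ := Finset.mem_image.1 hU
    rw [hS']
    exact ⟨SP_isTree hx hall (hNA A hA), displays_of_step _ _ w x (SP_step hx (hNA A hA))⟩
  have hFst : ∀ w U, U ∈ F w → U.IsTree ∧ Step (parG f) U w x := by
    intro w U hU
    obtain ⟨A, hA, rfl⟩ := Finset.mem_image.1 hU
    exact ⟨SP_isTree hx hall (hNA A hA), SP_step hx (hNA A hA)⟩
  have hint : ∀ w ∈ W, ∀ w' ∈ W, w ≠ w' → (F w ∩ F w').card ≤ 1 := by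
    intro w hw w' hw' hne
    rw [Finset.card_le_one]
    intro U hU U' hU'
    rw [Finset.mem_inter] at hU hU'
    obtain ⟨t1, s1⟩ := hFst w U hU.1
    obtain ⟨_, s2⟩ := hFst w' U hU.2
    obtain ⟨t1', s1'⟩ := hFst w U' hU'.1
    obtain ⟨_, s2'⟩ := hFst w' U' hU'.2
    have n1 : w ≠ x.castSucc := (Finset.mem_erase.1 hw).1
    have n2 : w' ≠ x.castSucc := (Finset.mem_erase.1 hw').1
    exact det t1 t1' s1 s1' (Finset.Subset.antisymm
      (pair_det t1 t1' hne n1 n2 s1 s2 s1' s2') (pair_det t1' t1 hne n1 n2 s1' s2' s1 s2))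
  let G : Fin (n + 1) → Finset (SimpleGraph (Fin (n + 1))) := fun w =>
    F w \ ((W.erase w).biUnion F)
  have hGc : ∀ w ∈ W, 2 ^ N.card ≤ (G w).card + (n - 1) := by
    intro w hw
    have h1 : (F w ∩ ((W.erase w).biUnion F)).card ≤ n - 1 := by
      rw [Finset.inter_biUnion]
      refine Finset.card_biUnion_le.trans ?_
      have h2 : ∀ w' ∈ W.erase w, (F w ∩ F w').card ≤ 1 := fun w' hw' =>
        hint w hw w' (Finset.mem_erase.1 hw').2 (Finset.mem_erase.1 hw').1.symm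
      refine (Finset.sum_le_sum h2).trans ?_
      rw [Finset.sum_const, smul_eq_mul, mul_one, Finset.card_erase_of_mem hw, hWc]
    have h3 := Finset.card_sdiff_add_card_inter (F w) ((W.erase w).biUnion F)
    rw [hFc] at h3
    show 2 ^ N.card ≤ (F w \ ((W.erase w).biUnion F)).card + (n - 1)
    omega
  have hdis : (W : Set (Fin (n + 1))).PairwiseDisjoint G := by
    intro w hw w' hw' hne
    simp only [Function.onFun]
    rw [Finset.disjoint_left]
    intro U h1 h2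
    have h3 : U ∈ F w' := (Finset.mem_sdiff.1 h2).1
    have h4 : U ∉ (W.erase w).biUnion F := (Finset.mem_sdiff.1 h1).2
    exact h4 (Finset.mem_biUnion.2 ⟨w', Finset.mem_erase.2 ⟨hne.symm, hw'⟩, h3⟩)
  have hsub : W.biUnion G ⊆ S := by
    intro U hU
    obtain ⟨w, _, h⟩ := Finset.mem_biUnion.1 hU
    exact hFS w (Finset.mem_sdiff.1 h).1
  have h5 := Finset.card_le_card hsub
  rw [Finset.card_biUnion hdis] at h5
  have h6 := Finset.sum_le_sum hGc
  rw [Finset.sum_add_distrib, Finset.sum_const, Finset.sum_const, hWc, smul_eq_mul,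
    smul_eq_mul] at h6
  omega

/-- if all degrees are at most `d + 1`, the sum of `2 ^ degree` is bounded -/
lemma sum_pow_le (hT : T.IsTree) (hn : 2 ≤ n) (d : ℕ) (hd : ∀ x, (nb T x).card ≤ d + 1) :
    (d : ℤ) * (∑ x : Fin n, (2 : ℤ) ^ (nb T x).card - n * 2) ≤ (n - 2) * (2 ^ (d + 1) - 2) := by
  have h4 : ∀ x, (d : ℤ) * (2 ^ (nb T x).card - 2) ≤
      ((nb T x).card - 1) * (2 ^ (d + 1) - 2) := by
    intro x
    have h6 := chord (nb T x).card (nb_pos T hT hn x) (d + 1 - (nb T x).card)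
    have h7 : (nb T x).card + (d + 1 - (nb T x).card) = d + 1 := by have := hd x; omega
    rw [h7] at h6
    have h8 : ((d + 1 : ℕ) : ℤ) - 1 = d := by push_cast; ring
    rw [h8] at h6
    exact h6
  have h5 := Finset.sum_le_sum (fun x (_ : x ∈ (Finset.univ : Finset (Fin n))) => h4 x)
  rw [← Finset.mul_sum, ← Finset.sum_mul, Finset.sum_sub_distrib, Finset.sum_sub_distrib] at h5
  have h6 : ∑ x : Fin n, ((nb T x).card : ℤ) = 2 * (n - 1) := by
    have : ((∑ x : Fin n, (nb T x).card : ℕ) : ℤ) = ((2 * (n - 1) : ℕ) : ℤ) := by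
      rw [sum_nb T hT]
    rw [Nat.cast_sum] at this
    rw [this]
    push_cast [Nat.cast_sub (show 1 ≤ n by omega)]
    ring
  rw [h6] at h5
  simp only [Finset.sum_const, Finset.card_univ, Fintype.card_fin, nsmul_eq_mul, mul_one] at h5
  have h7 : (2 * ((n : ℤ) - 1) - n) = n - 2 := by ring
  rw [h7] at h5
  exact h5

end

lemma two_pow_big (k : ℕ) (hk : 7 ≤ k) : (4 : ℤ) * k ^ 2 + 11 ≤ 2 ^ k + 12 * k := by
  induction k, hk using Nat.le_induction with
  | base => norm_num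
  | succ k hk ih =>
    have h1 : (2 : ℤ) ^ (k + 1) = 2 * 2 ^ k := by ring
    rw [h1]
    have h2 : (7 : ℤ) ≤ k := by exact_mod_cast hk
    push_cast
    nlinarith

/-- a tree with a vertex of large degree has a larger support count than all trees whose degrees
are smaller -/
theorem mu_gap {n : ℕ} (hn : 12 ≤ n) (T₁ T₂ : SimpleGraph (Fin n)) (h₁ : T₁.IsTree)
    (h₂ : T₂.IsTree) (x : Fin n) (hD : n + 3 ≤ 2 * (nb T₁ x).card)
    (hlt : ∀ y, (nb T₂ y).card < (nb T₁ x).card) : mu T₂ (n + 1) < mu T₁ (n + 1) := by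
  by_contra hcon
  push Not at hcon
  have a1 := mu_lower T₁ h₁ x
  have a2 := mu_upper T₂ h₂
  have a3 := leaves_ge T₂ h₂ (by omega)
  obtain ⟨d, hd⟩ : ∃ d, (nb T₁ x).card = d + 2 := ⟨(nb T₁ x).card - 2, by omega⟩
  rw [hd] at a1 hD hlt
  have a4 := sum_pow_le T₂ h₂ (by omega) d (fun y => by have := hlt y; omega)
  have b1 : ((n * 2 ^ (d + 2) : ℕ) : ℤ) ≤ ((mu T₁ (n + 1) + n * (n - 1) : ℕ) : ℤ) := by
    exact_mod_cast a1
  have b2 : ((mu T₂ (n + 1) + (leaves T₂).card + n ^ 2 : ℕ) : ℤ) ≤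
      ((n * ∑ x, 2 ^ (nb T₂ x).card + 1 : ℕ) : ℤ) := by exact_mod_cast a2
  push_cast [Nat.cast_sub (show 1 ≤ n by omega)] at b1 b2
  have b3 : (2 : ℤ) ≤ (leaves T₂).card := by exact_mod_cast a3
  have b4 : (mu T₁ (n + 1) : ℤ) ≤ mu T₂ (n + 1) := by exact_mod_cast hcon
  set S : ℤ := ∑ x : Fin n, (2 : ℤ) ^ (nb T₂ x).card with hS
  set P : ℤ := 2 ^ (d + 1) with hP
  have hP2 : (2 : ℤ) ^ (d + 2) = 2 * P := by rw [hP]; ring
  rw [hP2] at b1
  have hn' : (12 : ℤ) ≤ n := by exact_mod_cast hn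
  -- S is at least 2 P + 2
  have c1 : 2 * P + 2 ≤ S := by
    by_contra h
    push Not at h
    have h' : S ≤ 2 * P + 1 := by omega
    have := mul_le_mul_of_nonneg_left h' (show (0 : ℤ) ≤ n by linarith)
    nlinarith
  have hd' : (n : ℤ) + 3 ≤ 2 * (d + 2) := by exact_mod_cast hD
  have hk : (n : ℤ) ≤ 2 * (d + 1) - 1 := by linarith
  have c2 : (n : ℤ) ^ 2 - 4 * n + 6 ≤ P := by
    have h := two_pow_big (d + 1) (by omega)
    push_cast at h
    rw [← hP] at h
    nlinarith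
  have c3 : (d : ℤ) * (2 * P + 2 - n * 2) ≤ (n - 2) * (P - 2) := by
    refine le_trans ?_ a4
    refine mul_le_mul_of_nonneg_left (by linarith) (by positivity)
  have c4 : (1 : ℤ) ≤ 2 * d - (n - 2) := by linarith
  have e1 : P * (2 * d - (n - 2)) ≤ ((n : ℤ) - 2) * (n - 3) + (2 * d - (n - 2)) * (n - 1) := by
    linarith
  have e2 : ((n : ℤ) ^ 2 - 4 * n + 6) * (2 * d - (n - 2)) ≤ P * (2 * d - (n - 2)) :=
    mul_le_mul_of_nonneg_right c2 (by linarith)
  have e3 : (0 : ℤ) ≤ (n : ℤ) ^ 2 - 5 * n + 7 := by nlinarith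
  have e4 : (0 : ℤ) ≤ ((n : ℤ) ^ 2 - 5 * n + 7) * (2 * d - (n - 2) - 1) :=
    mul_nonneg e3 (by linarith)
  linarith

lemma ncard_eq {n : ℕ} (T : SimpleGraph (Fin n)) (x : Fin n) :
    (T.neighborSet x).ncard = (nb T x).card := by
  classical
  rw [← Set.ncard_coe_finset]
  congr 1
  ext y
  simp [nb]

/-- the maximum degree -/
noncomputable def maxDeg {n : ℕ} (T : SimpleGraph (Fin n)) : ℕ :=
  Finset.univ.sup (fun x => (T.neighborSet x).ncard)

lemma maxDeg_attained {n : ℕ} (hn : 0 < n) (T : SimpleGraph (Fin n)) :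
    ∃ x, (nb T x).card = maxDeg T ∧ ∀ y, (nb T y).card ≤ maxDeg T := by
  have : Nonempty (Fin n) := ⟨⟨0, hn⟩⟩
  obtain ⟨x, _, hx⟩ := Finset.exists_mem_eq_sup (Finset.univ : Finset (Fin n))
    Finset.univ_nonempty (fun x => (T.neighborSet x).ncard)
  refine ⟨x, ?_, ?_⟩
  · rw [← ncard_eq]; exact hx.symm
  · intro y
    rw [← ncard_eq]
    exact Finset.le_sup (f := fun x => (T.neighborSet x).ncard) (Finset.mem_univ y)

theorem maxDeg_main {n : ℕ} (hn : 12 ≤ n) (T₁ T₂ : SimpleGraph (Fin n)) (h₁ : T₁.IsTree)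
    (h₂ : T₂.IsTree) (hD : n + 3 ≤ 2 * maxDeg T₁) (h : mu T₁ (n + 1) = mu T₂ (n + 1)) :
    maxDeg T₂ = maxDeg T₁ := by
  obtain ⟨x, hx, hx'⟩ := maxDeg_attained (by omega) T₁
  obtain ⟨y, hy, hy'⟩ := maxDeg_attained (by omega) T₂
  rcases lt_trichotomy (maxDeg T₂) (maxDeg T₁) with hlt | heq | hlt
  · exfalso
    have := mu_gap hn T₁ T₂ h₁ h₂ x (by rw [hx]; exact hD)
      (fun z => by rw [hx]; exact (hy' z).trans_lt hlt)
    omega
  · exact heq
  · exfalso
    have := mu_gap hn T₂ T₁ h₂ h₁ y (by rw [hy]; omega)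
      (fun z => by rw [hy]; exact (hx' z).trans_lt hlt)
    omega

end StarTree
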