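import Pool.Agent.Lib.StarTree.Lower

namespace StarTree

/-- Among the trees on `n ≥ 12` labelled vertices the support count at `n + 1` is strictly
increasing in the maximum degree, once this is at least `(n + 3) / 2`; in particular equal support
counts force equal maximum degrees.  (Formerly the hand-in MaximumDegree; it also follows from the
sharp two-sided estimate of `DegreeSum` by convexity.) -/
theorem maximumDegree (n : ℕ) (hn : 12 ≤ n) (T₁ T₂ : SimpleGraph (Fin n)) (h₁ : T₁.IsTree)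
    (h₂ : T₂.IsTree) (hD : n + 3 ≤ 2 * maxDeg T₁) :
    (maxDeg T₂ < maxDeg T₁ → mu T₂ (n + 1) < mu T₁ (n + 1)) ∧
      (mu T₁ (n + 1) = mu T₂ (n + 1) → maxDeg T₂ = maxDeg T₁) := by
  refine ⟨fun hlt => ?_, maxDeg_main hn T₁ T₂ h₁ h₂ hD⟩
  obtain ⟨x, hx, hx'⟩ := maxDeg_attained (by omega) T₁
  obtain ⟨y, hy, hy'⟩ := maxDeg_attained (by omega) T₂
  exact mu_gap hn T₁ T₂ h₁ h₂ x (by rw [hx]; exact hD)
    (fun z => by rw [hx]; exact (hy' z).trans_lt hlt)

end StarTree
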