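import Pool.Agent.Lib.StarTree.TwoSided

namespace StarTree

open SimpleGraph Finset

/-- `U` has the edge `w X`, and contracting it (removing `w`) gives `G` -/
def St {V : Type} (G U : SimpleGraph V) (w X : V) : Prop :=
  U.Adj w X ∧ ∀ u v, u ≠ w → v ≠ w → u ≠ v →
    (G.Adj u v ↔ U.Adj u v ∨ (u = X ∧ U.Adj w v) ∨ (v = X ∧ U.Adj u w))

/-- no triangle -/
def NT {V : Type} (G : SimpleGraph V) : Prop :=
  ∀ a b c, G.Adj a b → G.Adj b c → G.Adj a c → False

/-- no cycle of length four -/
def NF {V : Type} (G : SimpleGraph V) : Prop :=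
  ∀ a b c d, G.Adj a b → G.Adj b c → G.Adj a d → G.Adj d c → a ≠ c → b ≠ d → False

section abstr

variable {V : Type} {G₁ G₂ U U' : SimpleGraph V} {p q X Y X' Y' : V}

lemma St.part (h : St G₁ U p X) (hU : NT U) {u v : V} (hu : u ≠ p) (hv : v ≠ p) :
    U.Adj u v ↔ G₁.Adj u v ∧ ¬ (U.Adj p u ∧ U.Adj p v) := by
  by_cases huv : u = v
  · subst huv
    simp
  constructor
  · intro a
    exact ⟨(h.2 u v hu hv huv).2 (Or.inl a), fun b => hU p u v b.1 a b.2⟩
  · rintro ⟨a, b⟩
    rcases (h.2 u v hu hv huv).1 a with c | ⟨rfl, c⟩ | ⟨rfl, c⟩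
    · exact c
    · exact absurd ⟨h.1, c⟩ b
    · exact absurd ⟨c.symm, h.1⟩ b

/-- `U` is determined by the neighbours of `p` -/
lemma St.det (h : St G₁ U p X) (h' : St G₁ U' p X') (hU : NT U) (hU' : NT U')
    (hN : ∀ v, U.Adj p v ↔ U'.Adj p v) : U = U' := by
  ext u v
  by_cases hu : u = p
  · subst hu
    exact hN v
  by_cases hv : v = p
  · subst hv
    rw [U.adj_comm, U'.adj_comm]
    exact hN u
  rw [h.part hU hu hv, h'.part hU' hu hv, hN u, hN v]

lemma St.far (h : St G₂ U q Y) (hpq : p ≠ q) (hn : ¬ U.Adj p q) (v : V) :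
    U.Adj p v ↔ v ≠ q ∧ G₂.Adj p v := by
  by_cases hv : v = q
  · subst hv
    simp [hn]
  by_cases hvp : v = p
  · subst hvp
    simp
  have h1 := h.2 p v hpq hv (fun e => hvp e.symm)
  rw [h1]
  constructor
  · intro a
    exact ⟨hv, Or.inl a⟩
  · rintro ⟨_, a | ⟨rfl, _⟩ | ⟨_, a⟩⟩
    · exact a
    · exact absurd h.1.symm hn
    · exact absurd a hn

lemma St.adjY (h : St G₂ U q Y) (hpq : U.Adj p q) {v : V} (hvq : v ≠ q) (hvp : v ≠ p) :
    G₂.Adj p v ↔ U.Adj p v ∨ (p = Y ∧ U.Adj q v) ∨ v = Y := by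
  have h1 := h.2 p v hpq.ne hvq (fun e => hvp e.symm)
  rw [h1]
  constructor
  · rintro (a | a | a)
    · exact Or.inl a
    · exact Or.inr (Or.inl a)
    · exact Or.inr (Or.inr a.1)
  · rintro (a | a | a)
    · exact Or.inl a
    · exact Or.inr (Or.inl a)
    · exact Or.inr (Or.inr ⟨a, hpq⟩)

/-- the case of a vertex that separates the two neighbourhoods -/
lemma near_unique (hG : NF G₂) (hU : NT U) (hU' : NT U') (h1 : St G₁ U p X)
    (h2 : St G₂ U q Y) (h1' : St G₁ U' p X') (h2' : St G₂ U' q Y') (hpq : U.Adj p q)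
    (hpq' : U'.Adj p q) {z : V} (hzp : z ≠ p) (hzq : z ≠ q) (hz : G₁.Adj q z)
    (hz' : ¬ G₂.Adj p z) : U = U' := by
  have key : ∀ {U : SimpleGraph V} {X Y : V}, St G₁ U p X → St G₂ U q Y → U.Adj p q →
      Y ≠ p ∧ Y ≠ q ∧ Y ≠ z ∧ G₂.Adj p Y ∧ G₂.Adj Y z := by
    intro U X Y h1 h2 hpq
    have hP : ¬ U.Adj p z := fun a => hz' ((h2.adjY hpq hzq hzp).2 (Or.inl a))
    have hQ : U.Adj q z := by
      rcases (h1.adjY hpq.symm hzp hzq).1 hz with a | a | a
      · exact a
      · exact absurd a.2 hP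
      · exact absurd (a ▸ h1.1) hP
    have c1 : Y ≠ p := by
      rintro rfl
      exact hz' ((h2.adjY hpq hzq hzp).2 (Or.inr (Or.inl ⟨rfl, hQ⟩)))
    have c2 : Y ≠ q := h2.1.ne.symm
    have c3 : Y ≠ z := by
      rintro rfl
      exact hz' ((h2.adjY hpq hzq hzp).2 (Or.inr (Or.inr rfl)))
    refine ⟨c1, c2, c3, (h2.adjY hpq c2 c1).2 (Or.inr (Or.inr rfl)), ?_⟩
    exact (h2.2 Y z c2 hzq c3).2 (Or.inr (Or.inl ⟨rfl, hQ⟩))
  obtain ⟨c1, c2, c3, c4, c5⟩ := key h1 h2 hpq
  obtain ⟨d1, d2, d3, d4, d5⟩ := key h1' h2' hpq'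
  have hYY : Y = Y' := by
    by_contra hne
    exact hG p Y z Y' c4 c5 d4 d5 (fun e => hzp e.symm) hne
  subst hYY
  refine h1.det h1' hU hU' fun v => ?_
  have main : ∀ {U : SimpleGraph V}, NT U → St G₂ U q Y → U.Adj p q → ∀ v, v ≠ q → v ≠ p →
      (U.Adj p v ↔ G₂.Adj p v ∧ v ≠ Y) := by
    intro U hU h2 hpq v hvq hvp
    constructor
    · intro a
      refine ⟨(h2.adjY hpq hvq hvp).2 (Or.inl a), ?_⟩
      rintro rfl
      exact hU p q v hpq h2.1 a
    · rintro ⟨a, b⟩
      rcases (h2.adjY hpq hvq hvp).1 a with c | c | c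
      · exact c
      · exact absurd c.1.symm c1
      · exact absurd c b
  by_cases hvq : v = q
  · subst hvq
    exact ⟨fun _ => hpq', fun _ => hpq⟩
  by_cases hvp : v = p
  · subst hvp
    simp
  rw [main hU h2 hpq v hvq hvp, main hU' h2' hpq' v hvq hvp]

/-- if the neighbourhoods agree, the edge `p q` may be contracted -/
lemma St.move (hG : NT G₁) (h1 : St G₁ U p X) (h2 : St G₂ U q Y) (hpq : U.Adj p q)
    (hN : ∀ v, v ≠ p → v ≠ q → (G₁.Adj q v ↔ G₂.Adj p v)) : St G₁ U p q := by
  refine ⟨hpq, fun u v hu hv huv => ?_⟩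
  rw [h1.2 u v hu hv huv]
  constructor
  · rintro (a | ⟨rfl, a⟩ | ⟨rfl, a⟩)
    · exact Or.inl a
    · by_cases huq : u = q
      · exact Or.inr (Or.inl ⟨huq, a⟩)
      by_cases hvq : v = q
      · exact Or.inr (Or.inr ⟨hvq, h1.1.symm⟩)
      exfalso
      have a1 : G₁.Adj q u := (hN u hu huq).2 ((h2.adjY hpq huq hu).2 (Or.inl h1.1))
      have a2 : G₁.Adj q v := (hN v hv hvq).2 ((h2.adjY hpq hvq hv).2 (Or.inl a))
      exact hG q u v a1 ((h1.2 u v hu hv huv).2 (Or.inr (Or.inl ⟨rfl, a⟩))) a2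
    · by_cases hvq : v = q
      · exact Or.inr (Or.inr ⟨hvq, a⟩)
      by_cases huq : u = q
      · exact Or.inr (Or.inl ⟨huq, h1.1⟩)
      exfalso
      have a1 : G₁.Adj q v := (hN v hv hvq).2 ((h2.adjY hpq hvq hv).2 (Or.inl h1.1))
      have a2 : G₁.Adj q u := (hN u hu huq).2 ((h2.adjY hpq huq hu).2 (Or.inl a.symm))
      exact hG q u v a2 ((h1.2 u v hu hv huv).2 (Or.inr (Or.inr ⟨rfl, a⟩))) a1
  · rintro (a | ⟨rfl, a⟩ | ⟨rfl, a⟩)
    · exact Or.inl a
    · have a1 : G₁.Adj u v := (hN v hv (fun e => huv e.symm)).2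
        ((h2.adjY hpq (fun e => huv e.symm) hv).2 (Or.inl a))
      exact (h1.2 u v hu hv huv).1 a1
    · have a1 : G₁.Adj v u := (hN u hu huv).2 ((h2.adjY hpq huv hu).2 (Or.inl a.symm))
      exact (h1.2 u v hu hv huv).1 a1.symm

end abstr


section concrete

variable {n : ℕ} {T : SimpleGraph (Fin n)}

/-- `T` on the labels different from `w` -/
def GG (T : SimpleGraph (Fin n)) (w : Fin (n + 1)) : SimpleGraph (Fin (n + 1)) :=
  T.map (Fin.succAboveEmb w)

lemma GG_adj {w : Fin (n + 1)} {a b : Fin (n + 1)} :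
    (GG T w).Adj a b ↔ ∃ i j, T.Adj i j ∧ w.succAbove i = a ∧ w.succAbove j = b := by
  unfold GG
  rw [SimpleGraph.map_adj]
  rfl

lemma GG_adj' {w : Fin (n + 1)} {i j : Fin n} :
    (GG T w).Adj (w.succAbove i) (w.succAbove j) ↔ T.Adj i j := by
  rw [GG_adj]
  constructor
  · rintro ⟨i', j', h, h1, h2⟩
    rw [Fin.succAbove_right_injective h1, Fin.succAbove_right_injective h2] at h
    exact h
  · intro h
    exact ⟨i, j, h, rfl, rfl⟩

lemma GG_NT (hT : T.IsTree) (w : Fin (n + 1)) : NT (GG T w) := by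
  intro a b c h1 h2 h3
  rw [GG_adj] at h1
  obtain ⟨i, j, h1, rfl, rfl⟩ := h1
  rw [GG_adj] at h2
  obtain ⟨j', k, h2, e, rfl⟩ := h2
  rw [Fin.succAbove_right_injective e] at h2
  rw [GG_adj'] at h3
  exact no_triangle hT h1 h2 h3

lemma GG_NF (hT : T.IsTree) (w : Fin (n + 1)) : NF (GG T w) := by
  intro a b c d h1 h2 h3 h4 hac hbd
  rw [GG_adj] at h1
  obtain ⟨i, j, h1, rfl, rfl⟩ := h1
  rw [GG_adj] at h2
  obtain ⟨j', k, h2, e, rfl⟩ := h2
  rw [Fin.succAbove_right_injective e] at h2
  rw [GG_adj] at h3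
  obtain ⟨i', l, h3, e, rfl⟩ := h3
  rw [Fin.succAbove_right_injective e] at h3
  rw [GG_adj'] at h4
  exact no_four hT h1 h2 h3 h4 (fun e => hac (e ▸ rfl)) (fun e => hbd (e ▸ rfl))

lemma tree_NT {V : Type} [DecidableEq V] {U : SimpleGraph V} (hU : U.IsTree) : NT U :=
  fun _ _ _ h1 h2 h3 => no_triangle hU h1 h2 h3

lemma st_iff {U : SimpleGraph (Fin (n + 1))} {w : Fin (n + 1)} {x : Fin n} :
    Step T U w x ↔ St (GG T w) U w (w.succAbove x) := by
  constructor
  · rintro ⟨h1, h2⟩
    refine ⟨h1, fun u v hu hv huv => ?_⟩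
    obtain ⟨i, rfl⟩ := Fin.exists_succAbove_eq hu
    obtain ⟨j, rfl⟩ := Fin.exists_succAbove_eq hv
    have hij : i ≠ j := fun e => huv (e ▸ rfl)
    rw [GG_adj', h2 i j hij, (Fin.succAbove_right_injective (p := w)).eq_iff,
      (Fin.succAbove_right_injective (p := w)).eq_iff]
  · rintro ⟨h1, h2⟩
    refine ⟨h1, fun i j hij => ?_⟩
    have h3 := h2 (w.succAbove i) (w.succAbove j) (Fin.succAbove_ne w i) (Fin.succAbove_ne w j)
      (fun e => hij (Fin.succAbove_right_injective e))
    rw [GG_adj', (Fin.succAbove_right_injective (p := w)).eq_iff,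
      (Fin.succAbove_right_injective (p := w)).eq_iff] at h3
    exact h3

/-- at most three trees display `T` by removing `p` and by removing `q`, if the labels are not
consecutive -/
lemma far3 (hT : T.IsTree) {p q : Fin (n + 1)} (hpq : p.val + 2 ≤ q.val)
    (s : Finset (SimpleGraph (Fin (n + 1))))
    (hs : ∀ U ∈ s, U.IsTree ∧ (∃ x, Step T U p x) ∧ ∃ y, Step T U q y) : s.card ≤ 3 := by
  classical
  have hne : p ≠ q := fun e => by rw [e] at hpq; omega
  have hsub : s.card ≤ (Finset.univ : Finset (Fin 3)).card := by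
    refine Finset.card_le_card_of_injOn (fun U => if ¬ U.Adj p q then (0 : Fin 3)
      else if ∀ v, U.Adj p v → v = q then 1 else 2) (fun _ _ => Finset.mem_univ _) ?_
    intro U hU U' hU' heq
    obtain ⟨tU, ⟨x, hx⟩, ⟨y, hy⟩⟩ := hs U hU
    obtain ⟨tU', ⟨x', hx'⟩, ⟨y', hy'⟩⟩ := hs U' hU'
    rw [st_iff] at hx hy hx' hy'
    have nU := tree_NT tU
    have nU' := tree_NT tU'
    simp only at heq
    by_cases c : U.Adj p q
    · by_cases c' : U'.Adj p q
      · -- both adjacent
        by_cases e1 : ∃ z, z ≠ p ∧ z ≠ q ∧ (GG T p).Adj q z ∧ ¬ (GG T q).Adj p z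
        · obtain ⟨z, z1, z2, z3, z4⟩ := e1
          exact near_unique (GG_NF hT q) nU nU' hx hy hx' hy' c c' z1 z2 z3 z4
        by_cases e2 : ∃ z, z ≠ p ∧ z ≠ q ∧ (GG T q).Adj p z ∧ ¬ (GG T p).Adj q z
        · obtain ⟨z, z1, z2, z3, z4⟩ := e2
          exact near_unique (GG_NF hT p) nU nU' hy hx hy' hx' c.symm c'.symm z2 z1 z3 z4
        push Not at e1 e2
        have hN : ∀ v, v ≠ p → v ≠ q → ((GG T p).Adj q v ↔ (GG T q).Adj p v) :=
          fun v a b => ⟨e1 v a b, e2 v a b⟩
        have m1 := hx.move (GG_NT hT p) hy c hN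
        have m2 := hy.move (GG_NT hT q) hx c.symm (fun v a b => (hN v b a).symm)
        obtain ⟨x₀, hx₀⟩ := Fin.exists_succAbove_eq hne.symm
        obtain ⟨y₀, hy₀⟩ := Fin.exists_succAbove_eq hne
        have s1 : Step T U p x₀ := by rw [st_iff, hx₀]; exact m1
        have s2 : Step T U q y₀ := by rw [st_iff, hy₀]; exact m2
        have hx0v : x₀.val + 1 = q.val := by
          have := congrArg Fin.val hx₀
          rw [sA_val] at this
          split_ifs at this with hc <;> omega
        have hd := same_edge hT (Fin.lt_def.2 (by omega)) hx₀.symm hy₀.symm (by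
          intro e
          have := congrArg Fin.val e
          simp at this
          omega) s1 s2
        have uniq : ∀ v v', v ≠ p → v' ≠ p → (GG T p).Adj q v → (GG T p).Adj q v' → v = v' := by
          intro v v' hv hv' a a'
          obtain ⟨i, rfl⟩ := Fin.exists_succAbove_eq hv
          obtain ⟨j, rfl⟩ := Fin.exists_succAbove_eq hv'
          rw [← hx₀, GG_adj'] at a a'
          rw [Finset.card_le_one.1 hd i (mem_nb.2 a) j (mem_nb.2 a')]
        have inG : ∀ {U : SimpleGraph (Fin (n + 1))} {Y : Fin (n + 1)}, St (GG T q) U q Y →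
            U.Adj p q → ∀ v, U.Adj p v → v ≠ q → (GG T p).Adj q v := by
          intro U Y hy c v a hvq
          exact (hN v a.ne.symm hvq).2 ((hy.adjY c hvq a.ne.symm).2 (Or.inl a))
        rw [if_neg (not_not.2 c), if_neg (not_not.2 c')] at heq
        refine hx.det hx' nU nU' fun v => ?_
        by_cases hvq : v = q
        · subst hvq
          exact ⟨fun _ => c', fun _ => c⟩
        by_cases a : ∀ v, U.Adj p v → v = q
        · have a' : ∀ v, U'.Adj p v → v = q := by
            by_contra hcon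
            rw [if_pos a, if_neg hcon] at heq
            exact absurd heq (by decide)
          exact ⟨fun b => absurd (a v b) hvq, fun b => absurd (a' v b) hvq⟩
        · have a' : ¬ ∀ v, U'.Adj p v → v = q := by
            intro hcon
            rw [if_neg a, if_pos hcon] at heq
            exact absurd heq (by decide)
          push Not at a a'
          obtain ⟨z, z1, z2⟩ := a
          obtain ⟨z', z1', z2'⟩ := a'
          have g1 := inG hy c z z1 z2
          have g2 := inG hy' c' z' z1' z2'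
          constructor
          · intro b
            rw [uniq v z' b.ne.symm z1'.ne.symm (inG hy c v b hvq) g2]
            exact z1'
          · intro b
            rw [uniq v z b.ne.symm z1.ne.symm (inG hy' c' v b hvq) g1]
            exact z1
      · exfalso
        rw [if_neg (not_not.2 c), if_pos c'] at heq
        split_ifs at heq <;> exact absurd heq (by decide)
    · by_cases c' : U'.Adj p q
      · exfalso
        rw [if_pos c, if_neg (not_not.2 c')] at heq
        split_ifs at heq <;> exact absurd heq (by decide)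
      · refine hx.det hx' nU nU' fun v => ?_
        rw [hy.far hne c v, hy'.far hne c' v]
  simpa using hsub

/-- consecutive labels `t`, `t + 1` -/
lemma near_card (t : Fin n) (s : Finset (SimpleGraph (Fin (n + 1))))
    (hs : ∀ U ∈ s, U.IsTree ∧ (∃ x, x ≠ t ∧ Step T U t.castSucc x) ∧ ∃ y, Step T U t.succ y) :
    s.card ≤ (nb T t).card + 1 := by
  classical
  have hne : t.castSucc ≠ t.succ := fun e => by
    have := congrArg Fin.val e
    simp at this
  have hq : t.castSucc.succAbove t = t.succ := sA_castSucc_self t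
  have hp : t.succ.succAbove t = t.castSucc := sA_succ_self t
  set p := t.castSucc with hpd
  set q := t.succ with hqd
  have hN : ∀ v, v ≠ p → v ≠ q → ((GG T p).Adj q v ↔ (GG T q).Adj p v) := by
    intro v h1 h2
    obtain ⟨j, rfl⟩ := Fin.exists_succAbove_eq h1
    have hj : j ≠ t := by
      rintro rfl
      exact h2 hq
    have e : q.succAbove j = p.succAbove j := sA_agree hj
    have e1 : (GG T p).Adj q (p.succAbove j) ↔ T.Adj t j := by
      rw [← hq, GG_adj']
    have e2 : (GG T q).Adj p (p.succAbove j) ↔ T.Adj t j := by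
      have e3 : (GG T q).Adj (q.succAbove t) (q.succAbove j) ↔ T.Adj t j := GG_adj'
      rwa [hp, e] at e3
    rw [e1, e2]
  -- split
  let sA := s.filter (fun U => ¬ U.Adj p q)
  let sB := s.filter (fun U => U.Adj p q)
  have hsplit : s.card = sB.card + sA.card :=
    (Finset.card_filter_add_card_filter_not (s := s) (fun U => U.Adj p q)).symm
  have hA : sA.card ≤ 1 := by
    rw [Finset.card_le_one]
    intro U hU U' hU'
    obtain ⟨h1, c⟩ := Finset.mem_filter.1 hU
    obtain ⟨h1', c'⟩ := Finset.mem_filter.1 hU'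
    obtain ⟨tU, ⟨x, _, hx⟩, ⟨y, hy⟩⟩ := hs U h1
    obtain ⟨tU', ⟨x', _, hx'⟩, ⟨y', hy'⟩⟩ := hs U' h1'
    rw [st_iff] at hx hy hx' hy'
    refine hx.det hx' (tree_NT tU) (tree_NT tU') fun v => ?_
    rw [hy.far hne c v, hy'.far hne c' v]
  have hB : sB.card ≤ (nb T t).card := by
    let f : SimpleGraph (Fin (n + 1)) → Fin n := fun U =>
      if h : ∃ x, x ≠ t ∧ Step T U p x then Classical.choose h else t
    have hf : ∀ U ∈ sB, f U ≠ t ∧ Step T U p (f U) := by
      intro U hU
      obtain ⟨h1, _⟩ := Finset.mem_filter.1 hU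
      have h := (hs U h1).2.1
      show (dite _ _ _) ≠ t ∧ Step T U p (dite _ _ _)
      rw [dif_pos h]
      exact Classical.choose_spec h
    have hnb : ∀ U ∈ sB, ∀ v, U.Adj p v ↔ v = q ∨ v = p.succAbove (f U) := by
      intro U hU v
      obtain ⟨f1, f2⟩ := hf U hU
      obtain ⟨h1, c⟩ := Finset.mem_filter.1 hU
      obtain ⟨tU, _, ⟨y, hy⟩⟩ := hs U h1
      rw [st_iff] at f2 hy
      constructor
      · intro a
        by_cases hvq : v = q
        · exact Or.inl hvq
        have b := (hN v a.ne.symm hvq).2 ((hy.adjY c hvq a.ne.symm).2 (Or.inl a))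
        rcases (f2.adjY c.symm a.ne.symm hvq).1 b with d | d | d
        · exact absurd d (fun d => tree_NT tU p q v c d a)
        · exfalso
          apply f1
          apply Fin.succAbove_right_injective (p := p)
          rw [← d.1, hq]
        · exact Or.inr d
      · rintro (rfl | rfl)
        · exact c
        · exact f2.1
    refine Finset.card_le_card_of_injOn f ?_ ?_
    · intro U hU
      obtain ⟨f1, f2⟩ := hf U hU
      obtain ⟨h1, c⟩ := Finset.mem_filter.1 hU
      rw [st_iff] at f2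
      have b := (f2.adjY c.symm (Fin.succAbove_ne p (f U)) (fun e => f1
        (Fin.succAbove_right_injective (p := p) (e.trans hq.symm)))).2 (Or.inr (Or.inr rfl))
      rw [← hq, GG_adj'] at b
      exact mem_nb.2 b
    · intro U hU U' hU' heq
      obtain ⟨f1, f2⟩ := hf U hU
      obtain ⟨f1', f2'⟩ := hf U' hU'
      obtain ⟨h1, _⟩ := Finset.mem_filter.1 hU
      obtain ⟨h1', _⟩ := Finset.mem_filter.1 hU'
      rw [st_iff] at f2 f2'
      refine f2.det f2' (tree_NT (hs U h1).1) (tree_NT (hs U' h1').1) fun v => ?_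
      rw [hnb U hU v, hnb U' hU' v, heq]
  omega

open Classical in
/-- two codes with the same removed label -/
lemma same_card (hT : T.IsTree) {w : Fin (n + 1)} {x x' : Fin n} (hxx : x ≠ x')
    (s : Finset (SimpleGraph (Fin (n + 1))))
    (hs : ∀ U ∈ s, U.IsTree ∧ Step T U w x ∧ Step T U w x') :
    s.card ≤ if T.Adj x x' then 1 else 0 := by
  have key : ∀ U ∈ s, T.Adj x x' ∧ cA U w x = {x'} := by
    intro U hU
    obtain ⟨tU, h1, h2⟩ := hs U hU
    have a : T.Adj x x' := (h1.2 x x' hxx).2 (Or.inr (Or.inl ⟨rfl, h2.1⟩))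
    refine ⟨a, ?_⟩
    ext j
    rw [mem_cA, Finset.mem_singleton]
    constructor
    · rintro ⟨hj, b⟩
      by_contra hne
      have b1 : T.Adj x j := (h1.2 x j hj.symm).2 (Or.inr (Or.inl ⟨rfl, b⟩))
      have b2 : T.Adj x' j := (h2.2 x' j (fun e => hne e.symm)).2 (Or.inr (Or.inl ⟨rfl, b⟩))
      exact no_triangle hT a b2 b1
    · rintro rfl
      exact ⟨hxx.symm, h2.1⟩
  split_ifs with ha
  · rw [Finset.card_le_one]
    intro U hU U' hU'
    obtain ⟨tU, h1, _⟩ := hs U hU
    obtain ⟨tU', h1', _⟩ := hs U' hU'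
    exact det tU tU' h1 h1' ((key U hU).2.trans (key U' hU').2.symm)
  · rw [Nat.le_zero, Finset.card_eq_zero, Finset.eq_empty_iff_forall_notMem]
    intro U hU
    exact ha (key U hU).1

end concrete

lemma bonf {ι β : Type} [LinearOrder ι] [DecidableEq β] (F : ι → Finset β) (s : Finset ι) :
    ∑ a ∈ s, (F a).card ≤ (s.biUnion F).card +
      ∑ a ∈ s, ∑ b ∈ s.filter (· < a), (F a ∩ F b).card := by
  induction s using Finset.induction_on_max with
  | empty => simp
  | insert a s ha ih =>
    have hna : a ∉ s := fun h => lt_irrefl a (ha a h)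
    rw [Finset.sum_insert hna, Finset.biUnion_insert, Finset.sum_insert hna]
    have e1 : (insert a s).filter (· < a) = s := by
      ext x
      simp only [Finset.mem_filter, Finset.mem_insert]
      constructor
      · rintro ⟨rfl | h, h'⟩
        · exact absurd h' (lt_irrefl _)
        · exact h
      · intro h
        exact ⟨Or.inr h, ha x h⟩
    have e2 : ∀ x ∈ s, (insert a s).filter (· < x) = s.filter (· < x) := by
      intro x hx
      rw [Finset.filter_insert, if_neg (not_lt.2 (ha x hx).le)]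
    have e3 : ∑ x ∈ s, ∑ b ∈ (insert a s).filter (· < x), (F x ∩ F b).card =
        ∑ x ∈ s, ∑ b ∈ s.filter (· < x), (F x ∩ F b).card :=
      Finset.sum_congr rfl (fun x hx => by rw [e2 x hx])
    rw [e1, e3]
    have h1 := Finset.card_union_add_card_inter (F a) (s.biUnion F)
    have h2 : (F a ∩ s.biUnion F).card ≤ ∑ b ∈ s, (F a ∩ F b).card := by
      rw [Finset.inter_biUnion]
      exact Finset.card_biUnion_le
    omega


theorem mu_lower_sharp {n : ℕ} (T : SimpleGraph (Fin n)) (hT : T.IsTree) :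
    n * ∑ x, 2 ^ (nb T x).card ≤ mu T (n + 1) + 3 * n ^ 2 := by
  classical
  obtain ⟨S, hS, hS'⟩ := mu_eq_card T (n + 1)
  rw [← hS]
  have hn : 1 ≤ n := by
    obtain ⟨v⟩ := hT.connected.nonempty
    have := v.isLt
    omega
  let F : Fin n → Fin (n + 1) → Finset (SimpleGraph (Fin (n + 1))) := fun x w =>
    S.filter (fun U => Step T U w x)
  have hFm : ∀ x w U, U ∈ F x w → U.IsTree ∧ Step T U w x := by
    intro x w U hU
    obtain ⟨h1, h2⟩ := Finset.mem_filter.1 hU
    exact ⟨((hS' U).1 h1).1, h2⟩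
  have hFlow : ∀ x w, 2 ^ (nb T x).card ≤ (F x w).card := by
    intro x w
    obtain ⟨f, hx, hTf, hall⟩ := exists_parent hT x
    subst hTf
    have hNA : ∀ A ∈ (nb (parG f) x).powerset, ∀ i ∈ A, i ≠ x ∧ f i = x := by
      intro A hA i hi
      have h1 : i ∈ nb (parG f) x := Finset.mem_powerset.1 hA hi
      rw [mem_nb] at h1
      obtain ⟨h2, h3 | h3⟩ := h1
      · rw [hx] at h3
        exact absurd h3 h2
      · exact ⟨h2.symm, h3⟩
    have hc : ((nb (parG f) x).powerset.image (SP f x w)).card = 2 ^ (nb (parG f) x).card := by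
      rw [Finset.card_image_of_injOn, Finset.card_powerset]
      intro A hA B hB hAB
      have h1 := SP_cA (w := w) hx (hNA A hA)
      have h2 := SP_cA (w := w) hx (hNA B hB)
      have hAB' : SP f x w A = SP f x w B := hAB
      rw [← h1, ← h2, hAB']
    rw [← hc]
    apply Finset.card_le_card
    intro U hU
    obtain ⟨A, hA, rfl⟩ := Finset.mem_image.1 hU
    have st : Step (parG f) (SP f x w A) w x := SP_step hx (hNA A hA)
    refine Finset.mem_filter.2 ⟨(hS' _).2 ⟨SP_isTree hx hall (hNA A hA), ?_⟩, st⟩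
    exact displays_of_step _ _ w x st
  let X : Fin (n + 1) → Finset (Fin n) := fun w => Finset.univ.filter (fun x => w ≠ x.castSucc)
  let G : Fin (n + 1) → Finset (SimpleGraph (Fin (n + 1))) := fun w =>
    (X w).biUnion (fun x => F x w)
  have hGm : ∀ w U, U ∈ G w → U.IsTree ∧ ∃ x, w ≠ x.castSucc ∧ Step T U w x := by
    intro w U hU
    obtain ⟨x, hx, h⟩ := Finset.mem_biUnion.1 hU
    obtain ⟨h1, h2⟩ := hFm x w U h
    exact ⟨h1, x, (Finset.mem_filter.1 hx).2, h2⟩
  -- (1) for each removed label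
  have h1 : ∀ w, ∑ x ∈ X w, 2 ^ (nb T x).card ≤ (G w).card + (n - 1) := by
    intro w
    refine (Finset.sum_le_sum (fun x _ => hFlow x w)).trans ?_
    refine (bonf (fun x => F x w) (X w)).trans ?_
    refine Nat.add_le_add_left ?_ _
    have e1 : ∀ x ∈ X w, ∑ y ∈ (X w).filter (· < x), (F x w ∩ F y w).card ≤
        ((nb T x).filter (fun y => y < x)).card := by
      intro x _
      rw [Finset.card_eq_sum_ones, ← Finset.sum_filter_add_sum_filter_not
        ((X w).filter (· < x)) (fun y => T.Adj x y)]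
      have z : ∑ y ∈ ((X w).filter (· < x)).filter (fun y => ¬ T.Adj x y),
          (F x w ∩ F y w).card = 0 := by
        apply Finset.sum_eq_zero
        intro y hy
        obtain ⟨hy1, hy2⟩ := Finset.mem_filter.1 hy
        have hyx : y < x := (Finset.mem_filter.1 hy1).2
        have := same_card hT (w := w) (x := x) (x' := y) hyx.ne' (F x w ∩ F y w) (by
          intro U hU
          obtain ⟨a, b⟩ := Finset.mem_inter.1 hU
          exact ⟨(hFm x w U a).1, (hFm x w U a).2, (hFm y w U b).2⟩)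
        rw [if_neg hy2] at this
        exact Nat.le_zero.1 this
      rw [z, add_zero]
      refine (Finset.sum_le_sum (g := fun _ => 1) ?_).trans ?_
      · intro y hy
        obtain ⟨hy1, hy2⟩ := Finset.mem_filter.1 hy
        have hyx : y < x := (Finset.mem_filter.1 hy1).2
        have := same_card hT (w := w) (x := x) (x' := y) hyx.ne' (F x w ∩ F y w) (by
          intro U hU
          obtain ⟨a, b⟩ := Finset.mem_inter.1 hU
          exact ⟨(hFm x w U a).1, (hFm x w U a).2, (hFm y w U b).2⟩)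
        rw [if_pos hy2] at this
        exact this
      · apply Finset.sum_le_sum_of_subset
        intro y hy
        obtain ⟨hy1, hy2⟩ := Finset.mem_filter.1 hy
        exact Finset.mem_filter.2 ⟨mem_nb.2 hy2, (Finset.mem_filter.1 hy1).2⟩
    refine (Finset.sum_le_sum e1).trans ?_
    rw [← sum_half T hT]
    exact Finset.sum_le_sum_of_subset (Finset.subset_univ _)
  -- (2) the total number of codes
  have h2 : ∑ w, ∑ x ∈ X w, 2 ^ (nb T x).card = n * ∑ x, 2 ^ (nb T x).card := by
    have e : ∀ w, ∑ x ∈ X w, 2 ^ (nb T x).card =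
        ∑ x, if w ≠ x.castSucc then 2 ^ (nb T x).card else 0 := by
      intro w
      rw [← Finset.sum_filter]
    rw [Finset.sum_congr rfl (fun w _ => e w), Finset.sum_comm, Finset.mul_sum]
    refine Finset.sum_congr rfl fun x _ => ?_
    rw [← Finset.sum_filter, Finset.sum_const, Finset.filter_ne', Finset.card_erase_of_mem
      (Finset.mem_univ _)]
    simp
  -- (3) different removed labels
  have h3 : ∀ t : Fin n, ∑ w' ∈ Finset.univ.filter (· < t.succ), (G t.succ ∩ G w').card ≤
      ((nb T t).card + 1) + 3 * t.val := by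
    intro t
    have e : Finset.univ.filter (· < t.succ) =
        insert t.castSucc (Finset.univ.filter (· < t.castSucc)) := by
      ext a
      simp only [Finset.mem_filter, Finset.mem_univ, true_and, Finset.mem_insert, Fin.lt_def,
        Fin.ext_iff, Fin.val_succ, Fin.val_castSucc]
      omega
    rw [e, Finset.sum_insert (by simp)]
    apply Nat.add_le_add
    · apply near_card t
      intro U hU
      obtain ⟨a, b⟩ := Finset.mem_inter.1 hU
      obtain ⟨tU, y, _, hy⟩ := hGm _ U a
      obtain ⟨_, x, hx, hx'⟩ := hGm _ U b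
      exact ⟨tU, ⟨x, fun e => hx (by rw [e]), hx'⟩, ⟨y, hy⟩⟩
    · refine (Finset.sum_le_sum (g := fun _ => 3) ?_).trans ?_
      · intro w' hw'
        have hlt := (Finset.mem_filter.1 hw').2
        rw [Fin.lt_def] at hlt
        apply far3 hT (p := w') (q := t.succ)
        · simp at hlt ⊢
          omega
        · intro U hU
          obtain ⟨a, b⟩ := Finset.mem_inter.1 hU
          obtain ⟨tU, y, _, hy⟩ := hGm _ U a
          obtain ⟨_, x, _, hx⟩ := hGm _ U b
          exact ⟨tU, ⟨x, hx⟩, ⟨y, hy⟩⟩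
      · rw [Finset.sum_const, smul_eq_mul, mul_comm]
        apply Nat.mul_le_mul_left
        have : (Finset.univ.filter (fun a : Fin (n + 1) => a < t.castSucc)) =
            Finset.Iio t.castSucc := by
          ext a
          simp
        rw [this, Fin.card_Iio]
        simp
  have h4 := bonf G Finset.univ
  have h5 : (Finset.univ.biUnion G).card ≤ S.card := by
    apply Finset.card_le_card
    intro U hU
    obtain ⟨w, _, h⟩ := Finset.mem_biUnion.1 hU
    obtain ⟨x, _, h⟩ := Finset.mem_biUnion.1 h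
    exact (Finset.mem_filter.1 h).1
  have h6 : ∑ w, ∑ w' ∈ Finset.univ.filter (· < w), (G w ∩ G w').card ≤
      ∑ t : Fin n, (((nb T t).card + 1) + 3 * t.val) := by
    rw [Fin.sum_univ_succ]
    have z : ∑ w' ∈ Finset.univ.filter (fun a : Fin (n + 1) => a < 0), (G 0 ∩ G w').card = 0 := by
      rw [Finset.filter_false_of_mem (by simp)]
      simp
    rw [z, zero_add]
    exact Finset.sum_le_sum fun t _ => h3 t
  have h7 : 2 * ∑ t : Fin n, (((nb T t).card + 1) + 3 * t.val) =
      2 * (2 * (n - 1)) + 2 * n + 3 * (n * (n - 1)) := by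
    rw [Finset.sum_add_distrib, Finset.sum_add_distrib, sum_nb T hT, ← Finset.mul_sum]
    have e : (∑ t : Fin n, t.val) * 2 = n * (n - 1) := by
      rw [Fin.sum_univ_eq_sum_range (fun i => i) n, Finset.sum_range_id_mul_two]
    simp only [Finset.sum_const, Finset.card_univ, Fintype.card_fin, smul_eq_mul, mul_one]
    omega
  have h8 : n * ∑ x, 2 ^ (nb T x).card ≤ ∑ w, (G w).card + (n + 1) * (n - 1) := by
    rw [← h2]
    refine (Finset.sum_le_sum fun w _ => h1 w).trans ?_
    rw [Finset.sum_add_distrib]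
    simp
  obtain ⟨k, rfl⟩ : ∃ k, n = k + 1 := ⟨n - 1, by omega⟩
  simp only [Nat.add_sub_cancel] at h7 h8
  nlinarith [h4, h5, h6, h7, h8]

end StarTree
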