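import Pool.Agent.Lib.StarTree.Sharp

namespace StarTree

open SimpleGraph Finset

section
variable {n : ℕ} {T : SimpleGraph (Fin n)}

/-- if the edge `w w'` can be contracted to `T` in both ways, the labels from `w` to `x` may be
shifted; all of them are leaves of `T` -/
lemma shift_leaves {U : SimpleGraph (Fin (n + 1))}
    (hT : T.IsTree) {w w' : Fin (n + 1)} {x x' : Fin n} (hlt : w < w')
    (hx : w' = w.succAbove x) (hx' : w = w'.succAbove x') (hne : w ≠ x.castSucc)
    (h : Step T U w x) (h' : Step T U w' x') (i : Fin n) (hi : w.val ≤ i.val)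
    (hi' : i.val ≤ x.val) : (nb T i).card ≤ 1 := by
  classical
  have hd := same_edge hT hlt hx hx' hne h h'
  have v1 : w.val ≤ x.val ∧ w'.val = x.val + 1 := by
    have e := congrArg Fin.val hx
    rw [sA_val] at e
    have l := Fin.lt_def.1 hlt
    split_ifs at e with c
    · omega
    · omega
  have v2 : x'.val = w.val := by
    have e := congrArg Fin.val hx'
    rw [sA_val] at e
    have l := Fin.lt_def.1 hlt
    split_ifs at e with c
    · omega
    · omega
  -- the shift
  let s : Fin n → Fin n := fun i =>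
    if hi : w.val ≤ i.val ∧ i.val < x.val then ⟨i.val + 1, by have := x.isLt; omega⟩
    else if i = x then x' else i
  have s1 : ∀ i : Fin n, w.val ≤ i.val → i.val < x.val → (s i).val = i.val + 1 := by
    intro i c1 c2
    show (dite _ _ _ : Fin n).val = _
    rw [dif_pos ⟨c1, c2⟩]
  have s2 : s x = x' := by
    show dite _ _ _ = _
    rw [dif_neg (by omega), if_pos rfl]
  have s3 : ∀ i : Fin n, ¬ (w.val ≤ i.val ∧ i.val ≤ x.val) → s i = i := by
    intro i c
    show dite _ _ _ = _
    rw [dif_neg (by omega), if_neg (by rintro rfl; omega)]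
  have s4 : ∀ i : Fin n, i ≠ x → w.succAbove i = w'.succAbove (s i) := by
    intro i hi
    have hi' : i.val ≠ x.val := fun h => hi (Fin.ext h)
    apply Fin.ext
    rw [sA_val, sA_val]
    by_cases c : w.val ≤ i.val ∧ i.val < x.val
    · rw [s1 i c.1 c.2]
      split_ifs <;> omega
    · have e : s i = i := s3 i (by omega)
      rw [e]
      split_ifs <;> omega
  have s5 : ∀ i j, i ≠ j → s i ≠ s j := by
    intro i j hij hs
    by_cases hi : i = x
    · subst hi
      have hj : j ≠ i := hij.symm
      have e := s4 j hj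
      rw [← hs, s2, ← hx'] at e
      exact Fin.succAbove_ne w j e
    by_cases hj : j = x
    · subst hj
      have e := s4 i hi
      rw [hs, s2, ← hx'] at e
      exact Fin.succAbove_ne w i e
    · have e1 := s4 i hi
      rw [hs, ← s4 j hj] at e1
      exact hij (Fin.succAbove_right_injective e1)
  have half : ∀ j, j ≠ x → T.Adj x j → T.Adj x' (s j) := by
    intro j hj hadj
    have hne2 : x' ≠ s j := by rw [← s2]; exact s5 x j hj.symm
    have e := s4 j hj
    rcases (h.2 x j hj.symm).1 hadj with c | c | c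
    · refine (h'.2 x' (s j) hne2).2 (Or.inr (Or.inl ⟨rfl, ?_⟩))
      rw [← hx, e] at c
      exact c
    · refine (h'.2 x' (s j) hne2).2 (Or.inl ?_)
      rw [← hx', ← e]
      exact c.2
    · exact absurd c.1 hj
  have hs : ∀ i j, T.Adj i j → T.Adj (s i) (s j) := by
    intro i j hadj
    by_cases hi : i = x
    · subst hi
      rw [s2]
      exact half j hadj.ne.symm hadj
    by_cases hj : j = x
    · subst hj
      rw [s2]
      exact (half i hi hadj.symm).symm
    · have c : U.Adj (w.succAbove i) (w.succAbove j) := by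
        rcases (h.2 i j hadj.ne).1 hadj with c | c | c
        · exact c
        · exact absurd c.1 hi
        · exact absurd c.1 hj
      rw [s4 i hi, s4 j hj] at c
      exact (h'.2 (s i) (s j) (s5 i j hadj.ne)).2 (Or.inl c)
  have hcard : ∀ i, (nb T i).card ≤ (nb T (s i)).card := by
    intro i
    have hsub : (nb T i).image s ⊆ nb T (s i) := by
      intro z hz
      obtain ⟨y, hy, rfl⟩ := Finset.mem_image.1 hz
      rw [mem_nb] at hy ⊢
      exact hs i y hy
    have hc : ((nb T i).image s).card = (nb T i).card := by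
      apply Finset.card_image_of_injective
      intro a b hab
      by_contra hne'
      exact s5 a b hne' hab
    rw [← hc]
    exact Finset.card_le_card hsub
  have : ∀ k, ∀ i : Fin n, i.val + k = x.val → w.val ≤ i.val → (nb T i).card ≤ 1 := by
    intro k
    induction k with
    | zero =>
      intro i hi _
      have : i = x := Fin.ext (by omega)
      rw [this]
      exact hd
    | succ k ih =>
      intro i hi hwi
      have h4 := s1 i hwi (by omega)
      exact (hcard i).trans (ih (s i) (by omega) (by omega))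
  exact this (x.val - i.val) i (by omega) hi

/-- two adjacent vertices of degree one -/
lemma two_leaves (hT : T.IsTree) {a b : Fin n} (hab : T.Adj a b) (ha : (nb T a).card ≤ 1)
    (hb : (nb T b).card ≤ 1) : n ≤ 2 := by
  classical
  have ea : ∀ y, T.Adj a y → y = b := fun y hy =>
    Finset.card_le_one.1 ha y (mem_nb.2 hy) b (mem_nb.2 hab)
  have eb : ∀ y, T.Adj b y → y = a := fun y hy =>
    Finset.card_le_one.1 hb y (mem_nb.2 hy) a (mem_nb.2 hab.symm)
  have hall : ∀ y, y = a ∨ y = b := by
    intro y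
    obtain ⟨W⟩ := hT.connected.preconnected a y
    have : ∀ {c d : Fin n} (W : T.Walk c d), (c = a ∨ c = b) → (d = a ∨ d = b) := by
      intro c d W
      induction W with
      | nil => exact id
      | cons hcd _ ih =>
        rintro (rfl | rfl)
        · exact ih (Or.inr (ea _ hcd))
        · exact ih (Or.inl (eb _ hcd))
    exact this W (Or.inl rfl)
  have h1 : (Finset.univ : Finset (Fin n)) ⊆ {a, b} := by
    intro y _
    rw [Finset.mem_insert, Finset.mem_singleton]
    exact hall y
  have h2 := Finset.card_le_card h1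
  rw [Finset.card_univ, Fintype.card_fin] at h2
  exact h2.trans Finset.card_le_two

/-- at most two trees, if no label between is removable -/
lemma far2 (hT : T.IsTree) (hn : 3 ≤ n) {p q : Fin (n + 1)} (hpq : p.val + 2 ≤ q.val)
    (s : Finset (SimpleGraph (Fin (n + 1))))
    (hs : ∀ U ∈ s, U.IsTree ∧ (∃ x, Step T U p x) ∧ (∃ y, Step T U q y) ∧
      ∀ w, p < w → w < q → ∀ x, w ≠ x.castSucc → ¬ Step T U w x) : s.card ≤ 2 := by
  classical
  have hne : p ≠ q := fun e => by rw [e] at hpq; omega
  have hsplit : s.card = (s.filter (fun U => U.Adj p q)).card +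
      (s.filter (fun U => ¬ U.Adj p q)).card :=
    (Finset.card_filter_add_card_filter_not (s := s) (fun U => U.Adj p q)).symm
  have hA : (s.filter (fun U => ¬ U.Adj p q)).card ≤ 1 := by
    rw [Finset.card_le_one]
    intro U hU U' hU'
    obtain ⟨h1, c⟩ := Finset.mem_filter.1 hU
    obtain ⟨h1', c'⟩ := Finset.mem_filter.1 hU'
    obtain ⟨tU, ⟨x, hx⟩, ⟨y, hy⟩, _⟩ := hs U h1
    obtain ⟨tU', ⟨x', hx'⟩, ⟨y', hy'⟩, _⟩ := hs U' h1'
    rw [st_iff] at hx hy hx' hy'
    refine hx.det hx' (tree_NT tU) (tree_NT tU') fun v => ?_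
    rw [hy.far hne c v, hy'.far hne c' v]
  by_cases e1 : (∃ z, z ≠ p ∧ z ≠ q ∧ (GG T p).Adj q z ∧ ¬ (GG T q).Adj p z) ∨
      (∃ z, z ≠ p ∧ z ≠ q ∧ (GG T q).Adj p z ∧ ¬ (GG T p).Adj q z)
  · have hB : (s.filter (fun U => U.Adj p q)).card ≤ 1 := by
      rw [Finset.card_le_one]
      intro U hU U' hU'
      obtain ⟨h1, c⟩ := Finset.mem_filter.1 hU
      obtain ⟨h1', c'⟩ := Finset.mem_filter.1 hU'
      obtain ⟨tU, ⟨x, hx⟩, ⟨y, hy⟩, _⟩ := hs U h1
      obtain ⟨tU', ⟨x', hx'⟩, ⟨y', hy'⟩, _⟩ := hs U' h1'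
      rw [st_iff] at hx hy hx' hy'
      rcases e1 with ⟨z, z1, z2, z3, z4⟩ | ⟨z, z1, z2, z3, z4⟩
      · exact near_unique (GG_NF hT q) (tree_NT tU) (tree_NT tU') hx hy hx' hy' c c'
          z1 z2 z3 z4
      · exact near_unique (GG_NF hT p) (tree_NT tU) (tree_NT tU') hy hx hy' hx' c.symm c'.symm
          z2 z1 z3 z4
    omega
  rw [not_or] at e1
  obtain ⟨e1, e2⟩ := e1
  push Not at e1 e2
  have hN : ∀ v, v ≠ p → v ≠ q → ((GG T p).Adj q v ↔ (GG T q).Adj p v) :=
    fun v a b => ⟨e1 v a b, e2 v a b⟩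
  rcases Finset.eq_empty_or_nonempty (s.filter (fun U => U.Adj p q)) with hE | ⟨UB, hUB⟩
  · rw [hE, Finset.card_empty] at hsplit
    omega
  obtain ⟨x₀, hx₀⟩ := Fin.exists_succAbove_eq hne.symm
  obtain ⟨y₀, hy₀⟩ := Fin.exists_succAbove_eq hne
  have hx0v : x₀.val + 1 = q.val := by
    have := congrArg Fin.val hx₀
    rw [sA_val] at this
    split_ifs at this with hc <;> omega
  have hy0v : y₀.val = p.val := by
    have := congrArg Fin.val hy₀
    rw [sA_val] at this
    split_ifs at this with hc <;> omega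
  have hleaf : ∀ i : Fin n, p.val ≤ i.val → i.val ≤ x₀.val → (nb T i).card ≤ 1 := by
    obtain ⟨h1, c⟩ := Finset.mem_filter.1 hUB
    obtain ⟨tU, ⟨x, hx⟩, ⟨y, hy⟩, _⟩ := hs UB h1
    rw [st_iff] at hx hy
    have m1 := hx.move (GG_NT hT p) hy c hN
    have m2 := hy.move (GG_NT hT q) hx c.symm (fun v a b => (hN v b a).symm)
    have s1 : Step T UB p x₀ := by rw [st_iff, hx₀]; exact m1
    have s2 : Step T UB q y₀ := by rw [st_iff, hy₀]; exact m2
    exact shift_leaves hT (Fin.lt_def.2 (by omega)) hx₀.symm hy₀.symm (by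
      intro e
      have := congrArg Fin.val e
      simp at this
      omega) s1 s2
  have uniq : ∀ v v', v ≠ p → v' ≠ p → (GG T p).Adj q v → (GG T p).Adj q v' → v = v' := by
    intro v v' hv hv' a a'
    obtain ⟨i, rfl⟩ := Fin.exists_succAbove_eq hv
    obtain ⟨j, rfl⟩ := Fin.exists_succAbove_eq hv'
    rw [← hx₀, GG_adj'] at a a'
    rw [Finset.card_le_one.1 (hleaf x₀ (by omega) le_rfl) i (mem_nb.2 a) j (mem_nb.2 a')]
  have inG : ∀ {U : SimpleGraph (Fin (n + 1))} {Y : Fin (n + 1)}, St (GG T q) U q Y →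
      U.Adj p q → ∀ v, U.Adj p v → v ≠ q → (GG T p).Adj q v := by
    intro U Y hy c v a hvq
    exact (hN v a.ne.symm hvq).2 ((hy.adjY c hvq a.ne.symm).2 (Or.inl a))
  -- no tree in which `p`, `q` are not adjacent
  have hA0 : s.filter (fun U => ¬ U.Adj p q) = ∅ := by
    rw [Finset.eq_empty_iff_forall_notMem]
    intro U hU
    obtain ⟨h1, c⟩ := Finset.mem_filter.1 hU
    obtain ⟨tU, ⟨x, hx⟩, ⟨y, hy⟩, hcons⟩ := hs U h1
    have hx2 := hx
    rw [st_iff] at hx hy
    have hfar := hy.far hne c
    obtain ⟨a1, a2⟩ := (hfar _).1 hx.1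
    have a3 := (hN _ (Fin.succAbove_ne p x) a1).2 a2
    have a4 : T.Adj x₀ x := by rw [← hx₀, GG_adj'] at a3; exact a3
    have hout : ¬ (p.val ≤ x.val ∧ x.val ≤ x₀.val) := by
      rintro ⟨b1, b2⟩
      have := two_leaves hT a4 (hleaf x₀ (by omega) le_rfl) (hleaf x b1 b2)
      omega
    have hsame : q.succAbove x = p.succAbove x := by
      apply Fin.ext
      rw [sA_val, sA_val]
      split_ifs <;> omega
    have a5 : T.Adj y₀ x := by
      have : (GG T q).Adj (q.succAbove y₀) (q.succAbove x) := by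
        rw [hy₀, hsame]
        exact a2
      exact GG_adj'.1 this
    have hl : ∀ y, T.Adj y₀ y ↔ y = x := by
      intro y
      constructor
      · intro a
        exact Finset.card_le_one.1 (hleaf y₀ (by omega) (by omega)) y (mem_nb.2 a) x
          (mem_nb.2 a5)
      · rintro rfl
        exact a5
    have hyc : y₀.castSucc = p := Fin.ext (by simpa using hy0v)
    have hcA : cA U y₀.castSucc x = ∅ := by
      rw [Finset.eq_empty_iff_forall_notMem]
      intro j hj
      rw [mem_cA, hyc] at hj
      obtain ⟨j1, j2⟩ := hj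
      obtain ⟨b1, b2⟩ := (hfar _).1 j2
      have b3 := (hN _ (Fin.succAbove_ne p j) b1).2 b2
      exact j1 (Fin.succAbove_right_injective
        (uniq _ _ (Fin.succAbove_ne p j) (Fin.succAbove_ne p x) b3 a3))
    have hst : Step T U y₀.castSucc x := by rw [hyc]; exact hx2
    have hmv := leafmove hst hcA hl
    refine hcons y₀.succ ?_ ?_ x ?_ hmv
    · rw [Fin.lt_def, Fin.val_succ]; omega
    · rw [Fin.lt_def, Fin.val_succ]; omega
    · intro e
      have := congrArg Fin.val e
      simp at this
      omega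
  rw [hA0, Finset.card_empty, add_zero] at hsplit
  rw [hsplit]
  have hsub : (s.filter (fun U => U.Adj p q)).card ≤ (Finset.univ : Finset Bool).card := by
    refine Finset.card_le_card_of_injOn (fun U => decide (∀ v, U.Adj p v → v = q))
      (fun _ _ => Finset.mem_univ _) ?_
    intro U hU U' hU' heq
    obtain ⟨h1, c⟩ := Finset.mem_filter.1 hU
    obtain ⟨h1', c'⟩ := Finset.mem_filter.1 hU'
    obtain ⟨tU, ⟨x, hx⟩, ⟨y, hy⟩, _⟩ := hs U h1
    obtain ⟨tU', ⟨x', hx'⟩, ⟨y', hy'⟩, _⟩ := hs U' h1'
    rw [st_iff] at hx hy hx' hy'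
    simp only at heq
    have heq' : (∀ v, U.Adj p v → v = q) ↔ (∀ v, U'.Adj p v → v = q) := by
      simpa using heq
    refine hx.det hx' (tree_NT tU) (tree_NT tU') fun v => ?_
    by_cases hvq : v = q
    · subst hvq
      exact ⟨fun _ => c', fun _ => c⟩
    by_cases a : ∀ v, U.Adj p v → v = q
    · have a' := heq'.1 a
      exact ⟨fun b => absurd (a v b) hvq, fun b => absurd (a' v b) hvq⟩
    · have a' : ¬ ∀ v, U'.Adj p v → v = q := fun h => a (heq'.2 h)
      push Not at a a'
      obtain ⟨z, z1, z2⟩ := a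
      obtain ⟨z', z1', z2'⟩ := a'
      have g1 := inG hy c z z1 z2
      have g2 := inG hy' c' z' z1' z2'
      constructor
      · intro b
        rw [uniq v z' b.ne.symm z1'.ne.symm (inG hy c v b hvq) g2]
        exact z1'
      · intro b
        rw [uniq v z b.ne.symm z1.ne.symm (inG hy' c' v b hvq) g1]
        exact z1
  simpa using hsub


/-- consecutive labels, sharp form -/
lemma near_card2 (t : Fin n) (s : Finset (SimpleGraph (Fin (n + 1))))
    (hs : ∀ U ∈ s, U.IsTree ∧ (∃ x, x ≠ t ∧ Step T U t.castSucc x) ∧ ∃ y, Step T U t.succ y) :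
    s.card ≤ (nb T t).card + (if (nb T t).card = 1 then 1 else 0) := by
  classical
  by_cases hd : (nb T t).card = 1
  · rw [if_pos hd]
    exact near_card t s hs
  rw [if_neg hd, add_zero]
  have hne : t.castSucc ≠ t.succ := fun e => by
    have := congrArg Fin.val e
    simp at this
  have hq : t.castSucc.succAbove t = t.succ := sA_castSucc_self t
  have hp : t.succ.succAbove t = t.castSucc := sA_succ_self t
  set p := t.castSucc with hpd
  set q := t.succ with hqd
  have hN : ∀ v, v ≠ p → v ≠ q → ((GG T p).Adj q v ↔ (GG T q).Adj p v) := by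
    intro v h1 h2
    obtain ⟨j, rfl⟩ := Fin.exists_succAbove_eq h1
    have hj : j ≠ t := by
      rintro rfl
      exact h2 hq
    have e : q.succAbove j = p.succAbove j := sA_agree hj
    have e1 : (GG T p).Adj q (p.succAbove j) ↔ T.Adj t j := by
      rw [← hq, GG_adj']
    have e2 : (GG T q).Adj p (p.succAbove j) ↔ T.Adj t j := by
      have e3 : (GG T q).Adj (q.succAbove t) (q.succAbove j) ↔ T.Adj t j := GG_adj'
      rwa [hp, e] at e3
    rw [e1, e2]
  -- all trees have the edge `p q`
  have hadj : ∀ U ∈ s, U.Adj p q := by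
    intro U hU
    by_contra c
    obtain ⟨tU, ⟨x, hxt, hx⟩, ⟨y, hy⟩⟩ := hs U hU
    rw [st_iff] at hx hy
    have hfar := hy.far hne c
    have hfar' := hx.far hne.symm (fun a => c a.symm)
    have all : ∀ j, T.Adj t j → U.Adj p (p.succAbove j) ∧ U.Adj q (p.succAbove j) := by
      intro j hj
      have a1 : (GG T p).Adj q (p.succAbove j) := by
        rw [← hq, GG_adj']
        exact hj
      have a2 : p.succAbove j ≠ p := Fin.succAbove_ne p j
      have a3 : p.succAbove j ≠ q := by
        intro e
        rw [← hq] at e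
        exact hj.ne (Fin.succAbove_right_injective e).symm
      exact ⟨(hfar _).2 ⟨a3, (hN _ a2 a3).1 a1⟩, (hfar' _).2 ⟨a2, a1⟩⟩
    obtain ⟨b1, b2⟩ := (hfar _).1 hx.1
    have b3 := (hN _ (Fin.succAbove_ne p x) b1).2 b2
    rw [← hq, GG_adj'] at b3
    have h1 : 0 < (nb T t).card := Finset.card_pos.2 ⟨x, mem_nb.2 b3⟩
    have h2 : 1 < (nb T t).card := by omega
    obtain ⟨i, hi, j, hj, hij⟩ := Finset.one_lt_card.1 h2
    rw [mem_nb] at hi hj
    obtain ⟨i1, i2⟩ := all i hi
    obtain ⟨j1, j2⟩ := all j hj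
    exact no_four tU i1 i2.symm j1 j2.symm hne (fun e => hij (Fin.succAbove_right_injective e))
  let f : SimpleGraph (Fin (n + 1)) → Fin n := fun U =>
    if h : ∃ x, x ≠ t ∧ Step T U p x then Classical.choose h else t
  have hf : ∀ U ∈ s, f U ≠ t ∧ Step T U p (f U) := by
    intro U hU
    have h := (hs U hU).2.1
    show (dite _ _ _) ≠ t ∧ Step T U p (dite _ _ _)
    rw [dif_pos h]
    exact Classical.choose_spec h
  have hnb : ∀ U ∈ s, ∀ v, U.Adj p v ↔ v = q ∨ v = p.succAbove (f U) := by
    intro U hU v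
    obtain ⟨f1, f2⟩ := hf U hU
    have c := hadj U hU
    obtain ⟨tU, _, ⟨y, hy⟩⟩ := hs U hU
    rw [st_iff] at f2 hy
    constructor
    · intro a
      by_cases hvq : v = q
      · exact Or.inl hvq
      have b := (hN v a.ne.symm hvq).2 ((hy.adjY c hvq a.ne.symm).2 (Or.inl a))
      rcases (f2.adjY c.symm a.ne.symm hvq).1 b with d | d | d
      · exact absurd d (fun d => tree_NT tU p q v c d a)
      · exfalso
        apply f1
        apply Fin.succAbove_right_injective (p := p)
        rw [← d.1, hq]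
      · exact Or.inr d
    · rintro (rfl | rfl)
      · exact c
      · exact f2.1
  refine Finset.card_le_card_of_injOn f ?_ ?_
  · intro U hU
    obtain ⟨f1, f2⟩ := hf U hU
    have c := hadj U hU
    rw [st_iff] at f2
    have b := (f2.adjY c.symm (Fin.succAbove_ne p (f U)) (fun e => f1
      (Fin.succAbove_right_injective (p := p) (e.trans hq.symm)))).2 (Or.inr (Or.inr rfl))
    rw [← hq, GG_adj'] at b
    exact mem_nb.2 b
  · intro U hU U' hU' heq
    obtain ⟨f1, f2⟩ := hf U hU
    obtain ⟨f1', f2'⟩ := hf U' hU'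
    rw [st_iff] at f2 f2'
    refine f2.det f2' (tree_NT (hs U hU).1) (tree_NT (hs U' hU').1) fun v => ?_
    rw [hnb U hU v, hnb U' hU' v, heq]

end

open Classical in
/-- the elements of `F a ∩ F b` that are in no `F c` with `b < c < a` -/
noncomputable def cons2 {ι β : Type} [LinearOrder ι] (F : ι → Finset β) (s : Finset ι)
    (a b : ι) : Finset β :=
  (F a).filter (fun U => U ∈ F b ∧ ∀ c ∈ s, b < c → c < a → U ∉ F c)

lemma mem_cons2 {ι β : Type} [LinearOrder ι] {F : ι → Finset β} {s : Finset ι}
    {a b : ι} {U : β} : U ∈ cons2 F s a b ↔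
      U ∈ F a ∧ U ∈ F b ∧ ∀ c ∈ s, b < c → c < a → U ∉ F c := by
  simp [cons2]

/-- inclusion and exclusion with consecutive pairs -/
lemma bonf2 {ι β : Type} [LinearOrder ι] [DecidableEq β] (F : ι → Finset β) (s : Finset ι) :
    ∑ a ∈ s, (F a).card ≤ (s.biUnion F).card +
      ∑ a ∈ s, ∑ b ∈ s.filter (· < a), (cons2 F s a b).card := by
  induction s using Finset.induction_on_max with
  | empty => simp
  | insert a s ha ih =>
    have hna : a ∉ s := fun h => lt_irrefl a (ha a h)
    rw [Finset.sum_insert hna, Finset.biUnion_insert, Finset.sum_insert hna]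
    have e1 : (insert a s).filter (· < a) = s := by
      ext x
      simp only [Finset.mem_filter, Finset.mem_insert]
      constructor
      · rintro ⟨rfl | h, h'⟩
        · exact absurd h' (lt_irrefl _)
        · exact h
      · intro h
        exact ⟨Or.inr h, ha x h⟩
    have e2 : ∀ x ∈ s, (insert a s).filter (· < x) = s.filter (· < x) := by
      intro x hx
      rw [Finset.filter_insert, if_neg (not_lt.2 (ha x hx).le)]
    have e4 : ∀ x ∈ s, ∀ b, cons2 F (insert a s) x b = cons2 F s x b := by
      intro x hx b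
      ext U
      rw [mem_cons2, mem_cons2]
      refine and_congr_right fun _ => and_congr_right fun _ => ?_
      constructor
      · intro h c hc
        exact h c (Finset.mem_insert_of_mem hc)
      · intro h c hc h1 h2
        rcases Finset.mem_insert.1 hc with rfl | hc
        · exact absurd (ha x hx) (not_lt.2 h2.le)
        · exact h c hc h1 h2
    have e3 : ∑ x ∈ s, ∑ b ∈ (insert a s).filter (· < x), (cons2 F (insert a s) x b).card =
        ∑ x ∈ s, ∑ b ∈ s.filter (· < x), (cons2 F s x b).card :=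
      Finset.sum_congr rfl (fun x hx => by
        rw [e2 x hx]
        exact Finset.sum_congr rfl (fun b _ => by rw [e4 x hx b]))
    rw [e1, e3]
    have h1 := Finset.card_union_add_card_inter (F a) (s.biUnion F)
    have h2 : (F a ∩ s.biUnion F).card ≤ ∑ b ∈ s, (cons2 F (insert a s) a b).card := by
      refine le_trans (Finset.card_le_card ?_) Finset.card_biUnion_le
      intro U hU
      obtain ⟨hUa, hUs⟩ := Finset.mem_inter.1 hU
      obtain ⟨b0, hb0, hUb0⟩ := Finset.mem_biUnion.1 hUs
      obtain ⟨b, hb, hmax⟩ := Finset.exists_max_image (s.filter (fun b => U ∈ F b)) id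
        ⟨b0, Finset.mem_filter.2 ⟨hb0, hUb0⟩⟩
      obtain ⟨hbs, hUb⟩ := Finset.mem_filter.1 hb
      refine Finset.mem_biUnion.2 ⟨b, hbs, mem_cons2.2 ⟨hUa, hUb, ?_⟩⟩
      intro c hc hbc hca hUc
      rcases Finset.mem_insert.1 hc with rfl | hcs
      · exact lt_irrefl _ hca
      · exact absurd (hmax c (Finset.mem_filter.2 ⟨hcs, hUc⟩)) (not_le.2 hbc)
    omega

theorem mu_lower_best {n : ℕ} (T : SimpleGraph (Fin n)) (hT : T.IsTree) (hn : 3 ≤ n) :
    n * ∑ x, 2 ^ (nb T x).card + n + 1 ≤ mu T (n + 1) + 2 * n ^ 2 + (leaves T).card := by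
  classical
  obtain ⟨S, hS, hS'⟩ := mu_eq_card T (n + 1)
  rw [← hS]
  let F : Fin n → Fin (n + 1) → Finset (SimpleGraph (Fin (n + 1))) := fun x w =>
    S.filter (fun U => Step T U w x)
  have hFm : ∀ x w U, U ∈ F x w → U.IsTree ∧ Step T U w x := by
    intro x w U hU
    obtain ⟨h1, h2⟩ := Finset.mem_filter.1 hU
    exact ⟨((hS' U).1 h1).1, h2⟩
  have hFlow : ∀ x w, 2 ^ (nb T x).card ≤ (F x w).card := by
    intro x w
    obtain ⟨f, hx, hTf, hall⟩ := exists_parent hT x
    subst hTf
    have hNA : ∀ A ∈ (nb (parG f) x).powerset, ∀ i ∈ A, i ≠ x ∧ f i = x := by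
      intro A hA i hi
      have h1 : i ∈ nb (parG f) x := Finset.mem_powerset.1 hA hi
      rw [mem_nb] at h1
      obtain ⟨h2, h3 | h3⟩ := h1
      · rw [hx] at h3
        exact absurd h3 h2
      · exact ⟨h2.symm, h3⟩
    have hc : ((nb (parG f) x).powerset.image (SP f x w)).card = 2 ^ (nb (parG f) x).card := by
      rw [Finset.card_image_of_injOn, Finset.card_powerset]
      intro A hA B hB hAB
      have h1 := SP_cA (w := w) hx (hNA A hA)
      have h2 := SP_cA (w := w) hx (hNA B hB)
      have hAB' : SP f x w A = SP f x w B := hAB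
      rw [← h1, ← h2, hAB']
    rw [← hc]
    apply Finset.card_le_card
    intro U hU
    obtain ⟨A, hA, rfl⟩ := Finset.mem_image.1 hU
    have st : Step (parG f) (SP f x w A) w x := SP_step hx (hNA A hA)
    refine Finset.mem_filter.2 ⟨(hS' _).2 ⟨SP_isTree hx hall (hNA A hA), ?_⟩, st⟩
    exact displays_of_step _ _ w x st
  let X : Fin (n + 1) → Finset (Fin n) := fun w => Finset.univ.filter (fun x => w ≠ x.castSucc)
  have hXm : ∀ w x, x ∈ X w ↔ w ≠ x.castSucc := by
    intro w x
    simp [X]
  let G : Fin (n + 1) → Finset (SimpleGraph (Fin (n + 1))) := fun w =>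
    (X w).biUnion (fun x => F x w)
  have hGm : ∀ w U, U ∈ G w → U.IsTree ∧ ∃ x, w ≠ x.castSucc ∧ Step T U w x := by
    intro w U hU
    obtain ⟨x, hx, h⟩ := Finset.mem_biUnion.1 hU
    obtain ⟨h1, h2⟩ := hFm x w U h
    exact ⟨h1, x, (Finset.mem_filter.1 hx).2, h2⟩
  have hGs : ∀ w U, U ∈ S → ∀ x, w ≠ x.castSucc → Step T U w x → U ∈ G w := by
    intro w U hU x hx h
    exact Finset.mem_biUnion.2 ⟨x, (hXm w x).2 hx, Finset.mem_filter.2 ⟨hU, h⟩⟩
  -- (1) for each removed label
  have h1 : ∀ w, ∑ x ∈ X w, 2 ^ (nb T x).card ≤ (G w).card +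
      ∑ x, ∑ y ∈ (nb T x).filter (fun y => y < x), if w ≠ x.castSucc ∧ w ≠ y.castSucc
        then 1 else 0 := by
    intro w
    refine (Finset.sum_le_sum (fun x _ => hFlow x w)).trans ?_
    refine (bonf (fun x => F x w) (X w)).trans ?_
    refine Nat.add_le_add_left ?_ _
    have e1 : ∀ x ∈ X w, ∑ y ∈ (X w).filter (· < x), (F x w ∩ F y w).card ≤
        ∑ y ∈ (nb T x).filter (fun y => y < x), if w ≠ x.castSucc ∧ w ≠ y.castSucc
        then 1 else 0 := by
      intro x hx
      rw [← Finset.sum_filter_add_sum_filter_not ((X w).filter (· < x)) (fun y => T.Adj x y)]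
      have z : ∑ y ∈ ((X w).filter (· < x)).filter (fun y => ¬ T.Adj x y),
          (F x w ∩ F y w).card = 0 := by
        apply Finset.sum_eq_zero
        intro y hy
        obtain ⟨hy1, hy2⟩ := Finset.mem_filter.1 hy
        have hyx : y < x := (Finset.mem_filter.1 hy1).2
        have := same_card hT (w := w) (x := x) (x' := y) hyx.ne' (F x w ∩ F y w) (by
          intro U hU
          obtain ⟨a, b⟩ := Finset.mem_inter.1 hU
          exact ⟨(hFm x w U a).1, (hFm x w U a).2, (hFm y w U b).2⟩)
        rw [if_neg hy2] at this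
        exact Nat.le_zero.1 this
      rw [z, add_zero, ← Finset.sum_filter]
      refine (Finset.sum_le_sum (g := fun _ => 1) ?_).trans ?_
      · intro y hy
        obtain ⟨hy1, hy2⟩ := Finset.mem_filter.1 hy
        have hyx : y < x := (Finset.mem_filter.1 hy1).2
        have := same_card hT (w := w) (x := x) (x' := y) hyx.ne' (F x w ∩ F y w) (by
          intro U hU
          obtain ⟨a, b⟩ := Finset.mem_inter.1 hU
          exact ⟨(hFm x w U a).1, (hFm x w U a).2, (hFm y w U b).2⟩)
        rw [if_pos hy2] at this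
        exact this
      · apply Finset.sum_le_sum_of_subset
        intro y hy
        obtain ⟨hy1, hy2⟩ := Finset.mem_filter.1 hy
        obtain ⟨hy3, hy4⟩ := Finset.mem_filter.1 hy1
        exact Finset.mem_filter.2 ⟨Finset.mem_filter.2 ⟨mem_nb.2 hy2, hy4⟩,
          (hXm w x).1 hx, (hXm w y).1 hy3⟩
    refine (Finset.sum_le_sum e1).trans ?_
    exact Finset.sum_le_sum_of_subset (Finset.subset_univ _)
  have h1' : ∑ w : Fin (n + 1), (∑ x, ∑ y ∈ (nb T x).filter (fun y => y < x),
      if w ≠ x.castSucc ∧ w ≠ y.castSucc then 1 else 0) = (n - 1) * (n - 1) := by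
    rw [Finset.sum_comm]
    have e : ∀ x : Fin n, ∑ w : Fin (n + 1), (∑ y ∈ (nb T x).filter (fun y => y < x),
        if w ≠ x.castSucc ∧ w ≠ y.castSucc then 1 else 0) =
        ((nb T x).filter (fun y => y < x)).card * (n - 1) := by
      intro x
      rw [Finset.sum_comm, Finset.card_eq_sum_ones, Finset.sum_mul]
      refine Finset.sum_congr rfl fun y hy => ?_
      have hyx : y < x := (Finset.mem_filter.1 hy).2
      rw [← Finset.sum_filter, ← Finset.card_eq_sum_ones, one_mul]
      have : (Finset.univ.filter (fun w : Fin (n + 1) => w ≠ x.castSucc ∧ w ≠ y.castSucc)) =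
          (Finset.univ.erase x.castSucc).erase y.castSucc := by
        ext w
        simp
        tauto
      rw [this, Finset.card_erase_of_mem, Finset.card_erase_of_mem (Finset.mem_univ _)]
      · simp
      · rw [Finset.mem_erase]
        refine ⟨fun e => ?_, Finset.mem_univ _⟩
        exact hyx.ne (Fin.castSucc_injective n e)
    rw [Finset.sum_congr rfl (fun x _ => e x), ← Finset.sum_mul, sum_half T hT]
  -- (2) the total number of codes
  have h2 : ∑ w, ∑ x ∈ X w, 2 ^ (nb T x).card = n * ∑ x, 2 ^ (nb T x).card := by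
    have e : ∀ w, ∑ x ∈ X w, 2 ^ (nb T x).card =
        ∑ x, if w ≠ x.castSucc then 2 ^ (nb T x).card else 0 := by
      intro w
      rw [← Finset.sum_filter]
    rw [Finset.sum_congr rfl (fun w _ => e w), Finset.sum_comm, Finset.mul_sum]
    refine Finset.sum_congr rfl fun x _ => ?_
    rw [← Finset.sum_filter, Finset.sum_const, Finset.filter_ne', Finset.card_erase_of_mem
      (Finset.mem_univ _)]
    simp
  -- (3) different removed labels
  have h3 : ∀ t : Fin n, ∑ w' ∈ Finset.univ.filter (· < t.succ),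
      (cons2 G Finset.univ t.succ w').card ≤
      ((nb T t).card + (if (nb T t).card = 1 then 1 else 0)) + 2 * t.val := by
    intro t
    have e : Finset.univ.filter (· < t.succ) =
        insert t.castSucc (Finset.univ.filter (· < t.castSucc)) := by
      ext a
      simp only [Finset.mem_filter, Finset.mem_univ, true_and, Finset.mem_insert, Fin.lt_def,
        Fin.ext_iff, Fin.val_succ, Fin.val_castSucc]
      omega
    rw [e, Finset.sum_insert (by simp)]
    apply Nat.add_le_add
    · apply near_card2 t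
      intro U hU
      obtain ⟨a, b, _⟩ := mem_cons2.1 hU
      obtain ⟨tU, y, _, hy⟩ := hGm _ U a
      obtain ⟨_, x, hx, hx'⟩ := hGm _ U b
      exact ⟨tU, ⟨x, fun e => hx (by rw [e]), hx'⟩, ⟨y, hy⟩⟩
    · refine (Finset.sum_le_sum (g := fun _ => 2) ?_).trans ?_
      · intro w' hw'
        have hlt := (Finset.mem_filter.1 hw').2
        rw [Fin.lt_def] at hlt
        apply far2 hT hn (p := w') (q := t.succ)
        · simp at hlt ⊢
          omega
        · intro U hU
          obtain ⟨a, b, hU2⟩ := mem_cons2.1 hU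
          obtain ⟨tU, y, _, hy⟩ := hGm _ U a
          obtain ⟨_, x, _, hx⟩ := hGm _ U b
          refine ⟨tU, ⟨x, hx⟩, ⟨y, hy⟩, ?_⟩
          intro w w1 w2 z hz hst
          refine hU2 w (Finset.mem_univ _) w1 w2 (hGs w U ?_ z hz hst)
          obtain ⟨x', _, h'⟩ := Finset.mem_biUnion.1 a
          exact (Finset.mem_filter.1 h').1
      · rw [Finset.sum_const, smul_eq_mul, mul_comm]
        apply Nat.mul_le_mul_left
        have : (Finset.univ.filter (fun a : Fin (n + 1) => a < t.castSucc)) =
            Finset.Iio t.castSucc := by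
          ext a
          simp
        rw [this, Fin.card_Iio]
        simp
  have h4 := bonf2 G Finset.univ
  have h5 : (Finset.univ.biUnion G).card ≤ S.card := by
    apply Finset.card_le_card
    intro U hU
    obtain ⟨w, _, h⟩ := Finset.mem_biUnion.1 hU
    obtain ⟨x, _, h⟩ := Finset.mem_biUnion.1 h
    exact (Finset.mem_filter.1 h).1
  have h6 : ∑ w, ∑ w' ∈ Finset.univ.filter (· < w), (cons2 G Finset.univ w w').card ≤
      ∑ t : Fin n, (((nb T t).card + (if (nb T t).card = 1 then 1 else 0)) + 2 * t.val) := by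
    rw [Fin.sum_univ_succ]
    have z : ∑ w' ∈ Finset.univ.filter (fun a : Fin (n + 1) => a < 0),
        (cons2 G Finset.univ 0 w').card = 0 := by
      rw [Finset.filter_false_of_mem (by simp)]
      simp
    rw [z, zero_add]
    exact Finset.sum_le_sum fun t _ => h3 t
  have h7 : ∑ t : Fin n, (((nb T t).card + (if (nb T t).card = 1 then 1 else 0)) + 2 * t.val) =
      2 * (n - 1) + (leaves T).card + n * (n - 1) := by
    rw [Finset.sum_add_distrib, Finset.sum_add_distrib, sum_nb T hT, ← Finset.mul_sum]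
    have e : (∑ t : Fin n, t.val) * 2 = n * (n - 1) := by
      rw [Fin.sum_univ_eq_sum_range (fun i => i) n, Finset.sum_range_id_mul_two]
    have e' : (∑ t : Fin n, if (nb T t).card = 1 then 1 else 0) = (leaves T).card := by
      unfold leaves
      rw [← Finset.sum_filter, ← Finset.card_eq_sum_ones]
    omega
  have h8 : n * ∑ x, 2 ^ (nb T x).card ≤ ∑ w, (G w).card + (n - 1) * (n - 1) := by
    rw [← h2, ← h1', ← Finset.sum_add_distrib]
    exact Finset.sum_le_sum fun w _ => h1 w
  obtain ⟨k, rfl⟩ : ∃ k, n = k + 1 := ⟨n - 1, by omega⟩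
  simp only [Nat.add_sub_cancel] at h7 h8
  nlinarith [h4, h5, h6, h7, h8]

/-- the lower bound for the first support count, for all trees -/
theorem mu_lower_opt {n : ℕ} (T : SimpleGraph (Fin n)) (hT : T.IsTree) :
    n * ∑ x, 2 ^ (nb T x).card + n + 1 ≤ mu T (n + 1) + 2 * n ^ 2 + (leaves T).card := by
  rcases Nat.lt_or_ge n 3 with hn | hn
  · have h0 : 1 ≤ n := by
      obtain ⟨v⟩ := hT.connected.nonempty
      have := v.isLt
      omega
    have hs := sum_nb T hT
    have hcase : n = 1 ∨ n = 2 := by omega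
    rcases hcase with rfl | rfl
    · have h1 := mu_lower T hT 0
      rw [Fin.sum_univ_one] at hs ⊢
      simp only [Nat.sub_self, mul_zero] at hs h1
      rw [hs] at h1 ⊢
      simp at h1 ⊢
      omega
    · have h1 := mu_lower T hT 0
      have h2 := nb_pos T hT (le_refl 2) 0
      have h3 := nb_pos T hT (le_refl 2) 1
      have h4 := leaves_ge T hT (le_refl 2)
      rw [Fin.sum_univ_two] at hs ⊢
      have h5 : (nb T 0).card = 1 := by omega
      have h6 : (nb T 1).card = 1 := by omega
      rw [h5] at h1 ⊢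
      rw [h6]
      simp at h1 ⊢
      omega
  · exact mu_lower_best T hT hn

end StarTree
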