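import Pool.Agent.Lib.StarTree.Final

namespace StarTree

open SimpleGraph Finset

/-- parent functions give trees -/
lemma parG_isTree' {V : Type} [Fintype V] (f : V → V) (r : V) (hr : f r = r)
    (h : ∀ z, ∃ k, f^[k] z = r) : (parG f).IsTree := by
  classical
  have hfix : ∀ z, z ≠ r → z ≠ f z := by
    intro z hz hzf
    obtain ⟨k, hk⟩ := h z
    rw [Function.iterate_fixed hzf.symm] at hk
    exact hz hk
  have h2 : ∀ z, z ≠ r → f (f z) ≠ z := by
    intro z hz hzz
    obtain ⟨k, hk⟩ := h z
    have key : ∀ k, f^[k] z = z ∨ f^[k] z = f z := by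
      intro k
      induction k with
      | zero => left; rfl
      | succ k ih =>
        rw [Function.iterate_succ_apply']
        rcases ih with ih | ih
        · right; rw [ih]
        · left; rw [ih, hzz]
    rcases key k with h1 | h1
    · exact hz (h1.symm.trans hk)
    · rw [hk] at h1
      apply hz
      rw [← hzz, ← h1, hr]
  rw [isTree_iff_connected_and_card]
  constructor
  · have h1 : ∀ z, (parG f).Reachable (f z) z := by
      intro z
      by_cases hz : z = f z
      · rw [← hz]
      · exact Adj.reachable ⟨fun h => hz h.symm, Or.inr rfl⟩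
    have hb : ∀ z, (parG f).Reachable r z := by
      intro z
      obtain ⟨k, hk⟩ := h z
      have : ∀ k z, (parG f).Reachable (f^[k] z) z := by
        intro k
        induction k with
        | zero => intro z; exact Reachable.refl _
        | succ k ih =>
          intro z
          rw [Function.iterate_succ_apply]
          exact (ih (f z)).trans (h1 z)
      rw [← hk]
      exact this k z
    have : Nonempty V := ⟨r⟩
    exact ⟨fun a b => (hb a).symm.trans (hb b)⟩
  · have hbij : Nat.card {z : V // z ≠ r} = Nat.card (parG f).edgeSet := by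
      refine Nat.card_congr (Equiv.ofBijective
        (fun z : {z : V // z ≠ r} => (⟨s(z.1, f z.1), hfix z.1 z.2, Or.inl rfl⟩ :
          (parG f).edgeSet)) ⟨?_, ?_⟩)
      · rintro ⟨z, hz⟩ ⟨z', hz'⟩ heq
        simp only [Subtype.mk.injEq, Sym2.eq_iff] at heq
        rcases heq with ⟨h1, _⟩ | ⟨h1, h3⟩
        · exact Subtype.ext h1
        · exfalso
          apply h2 z hz
          rw [h3, ← h1]
      · rintro ⟨e, he⟩
        induction e with
        | _ x y =>
          obtain ⟨hne, h1 | h1⟩ := he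
          · refine ⟨⟨x, ?_⟩, ?_⟩
            · rintro rfl
              exact hne (by rw [← h1, hr])
            · simp [h1]
          · refine ⟨⟨y, ?_⟩, ?_⟩
            · rintro rfl
              exact hne (by rw [← h1, hr])
            · simp [h1, Sym2.eq_swap]
    rw [← hbij, Nat.card_eq_fintype_card, Nat.card_eq_fintype_card, Fintype.card_subtype,
      Finset.filter_ne', Finset.card_erase_of_mem (Finset.mem_univ _), Finset.card_univ]
    have : 0 < Fintype.card V := Fintype.card_pos_iff.2 ⟨r⟩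
    omega

/-- every tree comes from a parent function with a given root -/
lemma exists_parent {V : Type} [Fintype V] {T : SimpleGraph V} (hT : T.IsTree) (x : V) :
    ∃ f : V → V, f x = x ∧ T = parG f ∧ ∀ z, ∃ k, f^[k] z = x := by
  classical
  have hstep : ∀ z, ∃ y, (z = x → y = x) ∧ (z ≠ x → T.Adj z y ∧ T.dist y x + 1 = T.dist z x) := by
    intro z
    by_cases hz : z = x
    · exact ⟨x, fun _ => rfl, fun h => absurd hz h⟩
    · obtain ⟨p, hp⟩ := hT.connected.exists_walk_length_eq_dist z x
      cases p with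
      | nil => exact absurd rfl hz
      | @cons _ y _ h q =>
        refine ⟨y, fun h' => absurd h' hz, fun _ => ⟨h, ?_⟩⟩
        rw [Walk.length_cons] at hp
        have h1 : T.dist y x ≤ q.length := dist_le q
        have h2 : T.dist z x ≤ T.dist y x + 1 := by
          obtain ⟨q', hq'⟩ := hT.connected.exists_walk_length_eq_dist y x
          have := dist_le (Walk.cons h q')
          rw [Walk.length_cons, hq'] at this
          exact this
        omega
  choose f hf1 hf2 using hstep
  have hx : f x = x := hf1 x rfl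
  have hreach : ∀ d z, T.dist z x ≤ d → ∃ k, f^[k] z = x := by
    intro d
    induction d with
    | zero =>
      intro z hz
      refine ⟨0, ?_⟩
      have h0 : T.dist z x = 0 := by omega
      exact (hT.connected.dist_eq_zero_iff).1 h0
    | succ d ih =>
      intro z hz
      by_cases hzx : z = x
      · exact ⟨0, hzx⟩
      · obtain ⟨k, hk⟩ := ih (f z) (by have := (hf2 z hzx).2; omega)
        exact ⟨k + 1, by rw [Function.iterate_succ_apply]; exact hk⟩
  have hall : ∀ z, ∃ k, f^[k] z = x := fun z => hreach _ z le_rfl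
  refine ⟨f, hx, ?_, hall⟩
  refine eq_of_le_tree hT (parG_isTree' f x hx hall).connected (parG_le _ _ ?_)
  intro z hz
  have hzx : z ≠ x := by
    rintro rfl
    exact hz hx.symm
  exact (hf2 z hzx).1

section
variable {n : ℕ}

/-- the parent function after splitting `x` -/
noncomputable def spl (f : Fin n → Fin n) (x : Fin n) (w : Fin (n + 1)) (A : Finset (Fin n))
    (i : Fin n) : Fin (n + 1) :=
  if i ∈ A then w else w.succAbove (f i)

open Classical in
noncomputable def sf (f : Fin n → Fin n) (x : Fin n) (w : Fin (n + 1)) (A : Finset (Fin n))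
    (z : Fin (n + 1)) : Fin (n + 1) :=
  if h : ∃ i, w.succAbove i = z then spl f x w A h.choose else w.succAbove x

lemma sf_w (f : Fin n → Fin n) (x : Fin n) (w : Fin (n + 1)) (A : Finset (Fin n)) :
    sf f x w A w = w.succAbove x := by
  unfold sf
  rw [dif_neg]
  rintro ⟨i, hi⟩
  exact Fin.succAbove_ne w i hi

lemma sf_s (f : Fin n → Fin n) (x : Fin n) (w : Fin (n + 1)) (A : Finset (Fin n)) (i : Fin n) :
    sf f x w A (w.succAbove i) = if i ∈ A then w else w.succAbove (f i) := by
  unfold sf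
  have h : ∃ j, w.succAbove j = w.succAbove i := ⟨i, rfl⟩
  rw [dif_pos h]
  have : h.choose = i := Fin.succAbove_right_injective h.choose_spec
  rw [this]
  rfl

/-- the split tree -/
noncomputable def SP (f : Fin n → Fin n) (x : Fin n) (w : Fin (n + 1)) (A : Finset (Fin n)) :
    SimpleGraph (Fin (n + 1)) := parG (sf f x w A)

variable {f : Fin n → Fin n} {x : Fin n} {w : Fin (n + 1)} {A : Finset (Fin n)}

lemma SP_isTree (hx : f x = x) (hall : ∀ z, ∃ k, f^[k] z = x)
    (hA : ∀ i ∈ A, i ≠ x ∧ f i = x) : (SP f x w A).IsTree := by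
  have hxA : x ∉ A := fun h => (hA x h).1 rfl
  have hr : sf f x w A (w.succAbove x) = w.succAbove x := by
    rw [sf_s, if_neg hxA, hx]
  refine parG_isTree' _ (w.succAbove x) hr ?_
  have key : ∀ k i, f^[k] i = x → ∃ m, (sf f x w A)^[m] (w.succAbove i) = w.succAbove x := by
    intro k
    induction k with
    | zero =>
      intro i hi
      exact ⟨0, by simp at hi; simp [hi]⟩
    | succ k ih =>
      intro i hi
      rw [Function.iterate_succ_apply] at hi
      by_cases hiA : i ∈ A
      · refine ⟨2, ?_⟩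
        show sf f x w A (sf f x w A (w.succAbove i)) = _
        rw [sf_s, if_pos hiA, sf_w]
      · obtain ⟨m, hm⟩ := ih (f i) hi
        refine ⟨m + 1, ?_⟩
        rw [Function.iterate_succ_apply, sf_s, if_neg hiA]
        exact hm
  intro z
  by_cases hz : z = w
  · subst hz
    exact ⟨1, by show sf f x z A z = _; rw [sf_w]⟩
  · obtain ⟨i, rfl⟩ := Fin.exists_succAbove_eq hz
    obtain ⟨k, hk⟩ := hall i
    exact key k i hk

lemma SP_adj_w (hx : f x = x) (hA : ∀ i ∈ A, i ≠ x ∧ f i = x) (j : Fin n) :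
    (SP f x w A).Adj w (w.succAbove j) ↔ j = x ∨ j ∈ A := by
  constructor
  · rintro ⟨hne, h | h⟩
    · rw [sf_w] at h
      exact Or.inl (Fin.succAbove_right_injective h).symm
    · rw [sf_s] at h
      by_cases hj : j ∈ A
      · exact Or.inr hj
      · rw [if_neg hj] at h
        exact absurd h (Fin.succAbove_ne w _)
  · rintro (h | h)
    · subst h
      exact ⟨(Fin.succAbove_ne w j).symm, Or.inl (sf_w _ _ _ _)⟩
    · exact ⟨(Fin.succAbove_ne w j).symm, Or.inr (by rw [sf_s, if_pos h])⟩

lemma SP_cA (hx : f x = x) (hA : ∀ i ∈ A, i ≠ x ∧ f i = x) : cA (SP f x w A) w x = A := by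
  ext j
  rw [mem_cA, SP_adj_w hx hA]
  constructor
  · rintro ⟨h1, h2 | h2⟩
    · exact absurd h2 h1
    · exact h2
  · intro h
    exact ⟨(hA j h).1, Or.inr h⟩

lemma SP_step (hx : f x = x) (hA : ∀ i ∈ A, i ≠ x ∧ f i = x) :
    Step (parG f) (SP f x w A) w x := by
  have hxA : x ∉ A := fun h => (hA x h).1 rfl
  have hss : ∀ i j, i ≠ j → ((SP f x w A).Adj (w.succAbove i) (w.succAbove j) ↔
      (i ∉ A ∧ f i = j) ∨ (j ∉ A ∧ f j = i)) := by
    intro i j hij
    constructor
    · rintro ⟨hne, h | h⟩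
      · rw [sf_s] at h
        by_cases hi : i ∈ A
        · rw [if_pos hi] at h
          exact absurd h.symm (Fin.succAbove_ne w j)
        · rw [if_neg hi] at h
          exact Or.inl ⟨hi, Fin.succAbove_right_injective h⟩
      · rw [sf_s] at h
        by_cases hj : j ∈ A
        · rw [if_pos hj] at h
          exact absurd h.symm (Fin.succAbove_ne w i)
        · rw [if_neg hj] at h
          exact Or.inr ⟨hj, Fin.succAbove_right_injective h⟩
    · rintro (⟨h1, h2⟩ | ⟨h1, h2⟩)
      · exact ⟨fun h => hij (Fin.succAbove_right_injective h),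
          Or.inl (by rw [sf_s, if_neg h1, h2])⟩
      · exact ⟨fun h => hij (Fin.succAbove_right_injective h),
          Or.inr (by rw [sf_s, if_neg h1, h2])⟩
  refine ⟨(SP_adj_w hx hA x).2 (Or.inl rfl), ?_⟩
  intro i j hij
  rw [hss i j hij, (SP f x w A).adj_comm (w.succAbove i) w, SP_adj_w hx hA, SP_adj_w hx hA]
  constructor
  · rintro ⟨_, h | h⟩
    · by_cases hi : i ∈ A
      · right; right
        exact ⟨by rw [← h, (hA i hi).2], Or.inr hi⟩
      · exact Or.inl (Or.inl ⟨hi, h⟩)
    · by_cases hj : j ∈ A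
      · right; left
        exact ⟨by rw [← h, (hA j hj).2], Or.inr hj⟩
      · exact Or.inl (Or.inr ⟨hj, h⟩)
  · rintro ((⟨_, h⟩ | ⟨_, h⟩) | ⟨h1, h2 | h2⟩ | ⟨h1, h2 | h2⟩)
    · exact ⟨hij, Or.inl h⟩
    · exact ⟨hij, Or.inr h⟩
    · exact absurd (h1.trans h2.symm) hij
    · exact ⟨hij, Or.inr (by rw [(hA j h2).2, h1])⟩
    · exact absurd (h2.trans h1.symm) hij
    · exact ⟨hij, Or.inl (by rw [(hA i h2).2, h1])⟩

/-- no 4-cycle in a tree -/
lemma no_four {V : Type} [DecidableEq V] {G : SimpleGraph V} (hG : G.IsTree) {a b c d : V}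
    (h1 : G.Adj a b) (h2 : G.Adj b c) (h3 : G.Adj a d) (h4 : G.Adj d c) (hac : a ≠ c)
    (hbd : b ≠ d) : False := by
  have p1 : (Walk.cons h1 (Walk.cons h2 Walk.nil)).IsPath := by
    simp [Walk.cons_isPath_iff, h1.ne, h2.ne, hac]
  have p2 : (Walk.cons h3 (Walk.cons h4 Walk.nil)).IsPath := by
    simp [Walk.cons_isPath_iff, h3.ne, h4.ne, hac]
  have := (hG.existsUnique_path a c).unique p1 p2
  have h5 := congrArg Walk.support this
  simp at h5
  exact hbd h5

/-- an edge of one tree is, up to moving an end inside `{w, v}`, an edge of the other one -/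
lemma transfer {T : SimpleGraph (Fin n)} {U U' : SimpleGraph (Fin (n + 1))}
    (h : Step T U w x) (h' : Step T U' w x) {a b : Fin (n + 1)} (hab : U.Adj a b) :
    U'.Adj a b ∨ (a = w ∧ U'.Adj (w.succAbove x) b) ∨ (a = w.succAbove x ∧ U'.Adj w b) ∨
      (b = w ∧ U'.Adj a (w.succAbove x)) ∨ (b = w.succAbove x ∧ U'.Adj a w) := by
  have key : ∀ j, U.Adj w (w.succAbove j) →
      (U'.Adj w (w.succAbove j) ∨ U'.Adj (w.succAbove x) (w.succAbove j)) := by
    intro j hj
    by_cases hjx : j = x
    · subst hjx; exact Or.inl h'.1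
    · have h1 := (h.2 x j (Ne.symm hjx)).2 (Or.inr (Or.inl ⟨rfl, hj⟩))
      rcases (h'.2 x j (Ne.symm hjx)).1 h1 with h2 | h2 | h2
      · exact Or.inr h2
      · exact Or.inl h2.2
      · exact absurd h2.1 hjx
  by_cases ha : a = w
  · subst ha
    have hb : b ≠ a := hab.ne.symm
    obtain ⟨j, rfl⟩ := Fin.exists_succAbove_eq hb
    rcases key j hab with h1 | h1
    · exact Or.inl h1
    · exact Or.inr (Or.inl ⟨rfl, h1⟩)
  by_cases hb : b = w
  · subst hb
    obtain ⟨i, rfl⟩ := Fin.exists_succAbove_eq ha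
    rcases key i hab.symm with h1 | h1
    · exact Or.inl h1.symm
    · exact Or.inr (Or.inr (Or.inr (Or.inl ⟨rfl, h1.symm⟩)))
  obtain ⟨i, rfl⟩ := Fin.exists_succAbove_eq ha
  obtain ⟨j, rfl⟩ := Fin.exists_succAbove_eq hb
  have hij : i ≠ j := by
    rintro rfl
    exact hab.ne rfl
  have h1 := (h.2 i j hij).2 (Or.inl hab)
  rcases (h'.2 i j hij).1 h1 with h2 | ⟨rfl, h2⟩ | ⟨rfl, h2⟩
  · exact Or.inl h2
  · exact Or.inr (Or.inr (Or.inl ⟨rfl, h2⟩))
  · exact Or.inr (Or.inr (Or.inr (Or.inr ⟨rfl, h2⟩)))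

lemma not_both {w₁ w₂ : Fin (n + 1)} (h1 : w₁ ≠ x.castSucc) (h2 : w₂ ≠ x.castSucc)
    (e1 : w₁ = w₂.succAbove x) (e2 : w₂ = w₁.succAbove x) : False := by
  rcases sA_or x w₁ with h | h
  · exact h2 (e2.trans h)
  · rcases sA_or x w₂ with h' | h'
    · exact h1 (e1.trans h')
    · have h3 : w₁ = w₂ := by rw [e1, h', e2, h]
      rw [h3] at e2
      exact Fin.succAbove_ne w₂ x e2.symm

/-- two codes at `x` with different first entries determine the tree -/
lemma pair_det {T : SimpleGraph (Fin n)} {U U' : SimpleGraph (Fin (n + 1))}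
    {w₁ w₂ : Fin (n + 1)} (hU : U.IsTree) (hU' : U'.IsTree) (hw : w₁ ≠ w₂)
    (hn1 : w₁ ≠ x.castSucc) (hn2 : w₂ ≠ x.castSucc)
    (h1 : Step T U w₁ x) (h2 : Step T U w₂ x) (h1' : Step T U' w₁ x) (h2' : Step T U' w₂ x) :
    cA U w₁ x ⊆ cA U' w₁ x := by
  intro j hj
  rw [mem_cA] at hj ⊢
  obtain ⟨hjx, hadj⟩ := hj
  refine ⟨hjx, ?_⟩
  set q := w₁.succAbove j with hq
  have hqw : q ≠ w₁ := Fin.succAbove_ne w₁ j
  have hqv : q ≠ w₁.succAbove x := fun h => hjx (Fin.succAbove_right_injective h)
  have hB : U'.Adj w₁ q ∨ U'.Adj (w₁.succAbove x) q := by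
    rcases transfer h1 h1' hadj with h | h | h | h | h
    · exact Or.inl h
    · exact Or.inr h.2
    · exact absurd h.1.symm (Fin.succAbove_ne w₁ x)
    · exact absurd h.1 hqw
    · exact absurd h.1 hqv
  rcases hB with hB | hB
  · exact hB
  rcases transfer h2 h2' hadj with h | h | h | h | h
  · exact h
  · exact absurd h.1 hw
  · -- w₁ = v₂
    obtain ⟨e, h⟩ := h
    exfalso
    have hwv : w₂ ≠ w₁.succAbove x := fun h' => not_both hn1 hn2 e h'
    have e2 : U'.Adj w₁ w₂ := by
      have := h2'.1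
      rw [← e] at this
      exact this.symm
    exact no_four hU' e2 h h1'.1 hB hqw.symm hwv
  · -- q = w₂
    obtain ⟨e, h⟩ := h
    exfalso
    by_cases hvv : w₂.succAbove x = w₁.succAbove x
    · rw [e] at hadj
      have a1 := h2.1
      rw [hvv] at a1
      exact no_triangle hU hadj a1 h1.1
    · have a1 := h2'.1.symm
      rw [e] at hB
      exact no_four hU' h a1 h1'.1 hB hw hvv
  · -- q = v₂
    obtain ⟨e, h⟩ := h
    exfalso
    by_cases hvv : w₂ = w₁.succAbove x
    · have a1 := h2.1
      rw [← e, hvv] at a1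
      exact no_triangle hU hadj a1.symm h1.1
    · have a1 := h2'.1
      rw [← e] at a1
      exact no_four hU' h a1 h1'.1 hB hqw.symm hvv

end

end StarTree
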