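import Pool.Agent.Lib.StarTree.Lower

namespace StarTree

open SimpleGraph Finset

section
variable {n : ℕ}

/-- two codes with different edges determine the tree -/
lemma pair_det' {T : SimpleGraph (Fin n)} {U U' : SimpleGraph (Fin (n + 1))}
    {w₁ w₂ : Fin (n + 1)} {x₁ x₂ : Fin n} (hU : U.IsTree) (hU' : U'.IsTree)
    (he1 : ¬ (w₁ = w₂ ∧ w₂.succAbove x₂ = w₁.succAbove x₁))
    (he2 : ¬ (w₁ = w₂.succAbove x₂ ∧ w₂ = w₁.succAbove x₁))
    (h1 : Step T U w₁ x₁) (h2 : Step T U w₂ x₂) (h1' : Step T U' w₁ x₁)
    (h2' : Step T U' w₂ x₂) : cA U w₁ x₁ ⊆ cA U' w₁ x₁ := by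
  intro j hj
  rw [mem_cA] at hj ⊢
  obtain ⟨hjx, hadj⟩ := hj
  refine ⟨hjx, ?_⟩
  set q := w₁.succAbove j with hq
  have hqw : q ≠ w₁ := Fin.succAbove_ne w₁ j
  have hqv : q ≠ w₁.succAbove x₁ := fun h => hjx (Fin.succAbove_right_injective h)
  have hB : U'.Adj w₁ q ∨ U'.Adj (w₁.succAbove x₁) q := by
    rcases transfer h1 h1' hadj with h | h | h | h | h
    · exact Or.inl h
    · exact Or.inr h.2
    · exact absurd h.1.symm (Fin.succAbove_ne w₁ x₁)
    · exact absurd h.1 hqw
    · exact absurd h.1 hqv
  rcases hB with hB | hB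
  · exact hB
  rcases transfer h2 h2' hadj with h | h | h | h | h
  · exact h
  · -- w₁ = w₂
    obtain ⟨e, h⟩ := h
    exfalso
    have hvv : w₂.succAbove x₂ ≠ w₁.succAbove x₁ := fun h' => he1 ⟨e, h'⟩
    have e2 : U'.Adj w₁ (w₂.succAbove x₂) := by
      have := h2'.1
      rw [← e] at this ⊢
      exact this
    exact no_four hU' e2 h h1'.1 hB hqw.symm hvv
  · -- w₁ = v₂
    obtain ⟨e, h⟩ := h
    exfalso
    have hwv : w₂ ≠ w₁.succAbove x₁ := fun h' => he2 ⟨e, h'⟩
    have e2 : U'.Adj w₁ w₂ := by
      have := h2'.1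
      rw [← e] at this
      exact this.symm
    exact no_four hU' e2 h h1'.1 hB hqw.symm hwv
  · -- q = w₂
    obtain ⟨e, h⟩ := h
    exfalso
    by_cases hvv : w₂.succAbove x₂ = w₁.succAbove x₁
    · rw [e] at hadj
      have a1 := h2.1
      rw [hvv] at a1
      exact no_triangle hU hadj a1 h1.1
    · have a1 := h2'.1.symm
      rw [e] at hB
      have hw : w₁ ≠ w₂ := fun h' => hqw (e.trans h'.symm)
      exact no_four hU' h a1 h1'.1 hB hw hvv
  · -- q = v₂
    obtain ⟨e, h⟩ := h
    exfalso
    by_cases hvv : w₂ = w₁.succAbove x₁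
    · have a1 := h2.1
      rw [← e, hvv] at a1
      exact no_triangle hU hadj a1.symm h1.1
    · have a1 := h2'.1
      rw [← e] at a1
      exact no_four hU' h a1 h1'.1 hB hqw.symm hvv

lemma sA_val (w : Fin (n + 1)) (i : Fin n) :
    (w.succAbove i).val = if i.val < w.val then i.val else i.val + 1 := by
  by_cases h : i.val < w.val
  · rw [if_pos h, Fin.succAbove_of_castSucc_lt w i (by rw [Fin.lt_def]; simpa using h)]
    simp
  · rw [if_neg h, Fin.succAbove_of_le_castSucc w i (by rw [Fin.le_def]; simpa using h)]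
    simp

/-- the same edge can be contracted to `T` in two ways (not adjacent labels) only at a leaf -/
lemma same_edge {T : SimpleGraph (Fin n)} {U : SimpleGraph (Fin (n + 1))}
    (hT : T.IsTree) {w w' : Fin (n + 1)} {x x' : Fin n} (hlt : w < w')
    (hx : w' = w.succAbove x) (hx' : w = w'.succAbove x') (hne : w ≠ x.castSucc)
    (h : Step T U w x) (h' : Step T U w' x') : (nb T x).card ≤ 1 := by
  classical
  have v1 : w.val ≤ x.val ∧ w'.val = x.val + 1 := by
    have e := congrArg Fin.val hx
    rw [sA_val] at e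
    have l := Fin.lt_def.1 hlt
    split_ifs at e with c
    · omega
    · omega
  have v2 : x'.val = w.val := by
    have e := congrArg Fin.val hx'
    rw [sA_val] at e
    have l := Fin.lt_def.1 hlt
    split_ifs at e with c
    · omega
    · omega
  have v3 : w.val < x.val := by
    rcases Nat.lt_or_ge w.val x.val with c | c
    · exact c
    · exfalso
      apply hne
      apply Fin.ext
      simp
      omega
  -- the shift
  let s : Fin n → Fin n := fun i =>
    if hi : w.val ≤ i.val ∧ i.val < x.val then ⟨i.val + 1, by have := x.isLt; omega⟩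
    else if i = x then x' else i
  have s1 : ∀ i : Fin n, w.val ≤ i.val → i.val < x.val → (s i).val = i.val + 1 := by
    intro i c1 c2
    show (dite _ _ _ : Fin n).val = _
    rw [dif_pos ⟨c1, c2⟩]
  have s2 : s x = x' := by
    show dite _ _ _ = _
    rw [dif_neg (by omega), if_pos rfl]
  have s3 : ∀ i : Fin n, ¬ (w.val ≤ i.val ∧ i.val ≤ x.val) → s i = i := by
    intro i c
    show dite _ _ _ = _
    rw [dif_neg (by omega), if_neg (by rintro rfl; omega)]
  have s4 : ∀ i : Fin n, i ≠ x → w.succAbove i = w'.succAbove (s i) := by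
    intro i hi
    have hi' : i.val ≠ x.val := fun h => hi (Fin.ext h)
    apply Fin.ext
    rw [sA_val, sA_val]
    by_cases c : w.val ≤ i.val ∧ i.val < x.val
    · rw [s1 i c.1 c.2]
      split_ifs <;> omega
    · have e : s i = i := s3 i (by omega)
      rw [e]
      split_ifs <;> omega
  have s5 : ∀ i j, i ≠ j → s i ≠ s j := by
    intro i j hij hs
    by_cases hi : i = x
    · subst hi
      have hj : j ≠ i := hij.symm
      have e := s4 j hj
      rw [← hs, s2, ← hx'] at e
      exact Fin.succAbove_ne w j e
    by_cases hj : j = x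
    · subst hj
      have e := s4 i hi
      rw [hs, s2, ← hx'] at e
      exact Fin.succAbove_ne w i e
    · have e1 := s4 i hi
      rw [hs, ← s4 j hj] at e1
      exact hij (Fin.succAbove_right_injective e1)
  have half : ∀ j, j ≠ x → T.Adj x j → T.Adj x' (s j) := by
    intro j hj hadj
    have hne2 : x' ≠ s j := by rw [← s2]; exact s5 x j hj.symm
    have e := s4 j hj
    rcases (h.2 x j hj.symm).1 hadj with c | c | c
    · refine (h'.2 x' (s j) hne2).2 (Or.inr (Or.inl ⟨rfl, ?_⟩))
      rw [← hx, e] at c
      exact c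
    · refine (h'.2 x' (s j) hne2).2 (Or.inl ?_)
      rw [← hx', ← e]
      exact c.2
    · exact absurd c.1 hj
  have hs : ∀ i j, T.Adj i j → T.Adj (s i) (s j) := by
    intro i j hadj
    by_cases hi : i = x
    · subst hi
      rw [s2]
      exact half j hadj.ne.symm hadj
    by_cases hj : j = x
    · subst hj
      rw [s2]
      exact (half i hi hadj.symm).symm
    · have c : U.Adj (w.succAbove i) (w.succAbove j) := by
        rcases (h.2 i j hadj.ne).1 hadj with c | c | c
        · exact c
        · exact absurd c.1 hi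
        · exact absurd c.1 hj
      rw [s4 i hi, s4 j hj] at c
      exact (h'.2 (s i) (s j) (s5 i j hadj.ne)).2 (Or.inl c)
  -- upward induction from x' to x
  have up : ∀ (P : Fin n → Prop), (∀ i, P i → P (s i)) → P x →
      ∀ i : Fin n, w.val ≤ i.val → i.val ≤ x.val → P i := by
    intro P hP hPx
    have : ∀ k, ∀ i : Fin n, i.val = w.val + k → i.val ≤ x.val → P i := by
      intro k
      induction k with
      | zero =>
        intro i hi _
        have : i = x' := Fin.ext (by omega)
        rw [this, ← s2]
        exact hP x hPx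
      | succ k ih =>
        intro i hi hix
        have hlt' : w.val + k < n := by have := x.isLt; omega
        have h1 := ih ⟨w.val + k, hlt'⟩ rfl (by simp; omega)
        have h2 := hP _ h1
        have h3 : s ⟨w.val + k, hlt'⟩ = i := by
          apply Fin.ext
          rw [s1 _ (by simp) (by simp; omega)]
          simp
          omega
        rw [h3] at h2
        exact h2
    intro i h1 h2
    exact this (i.val - w.val) i (by omega) h2
  by_contra hcon
  push Not at hcon
  have two : ∀ y, T.Adj x y → ∃ z, z ≠ y ∧ T.Adj x z := by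
    intro y _
    by_contra hno
    push Not at hno
    have : nb T x ⊆ {y} := by
      intro z hz
      rw [mem_nb] at hz
      rw [Finset.mem_singleton]
      by_contra hzy
      exact hno z hzy hz
    have := Finset.card_le_card this
    rw [Finset.card_singleton] at this
    omega
  -- no neighbour of x outside the interval
  have inside : ∀ y, T.Adj x y → w.val ≤ y.val ∧ y.val ≤ x.val := by
    intro y hy
    by_contra hout
    have hall := up (fun i => T.Adj i y) (fun i hi => by
      have := hs i y hi
      rw [s3 y hout] at this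
      exact this) hy
    obtain ⟨z, hzy, hz⟩ := two y hy
    by_cases hzi : w.val ≤ z.val ∧ z.val ≤ x.val
    · exact no_triangle hT hz (hall z hzi.1 hzi.2) hy
    · have hall' := up (fun i => T.Adj i z) (fun i hi => by
        have := hs i z hi
        rw [s3 z hzi] at this
        exact this) hz
      have e1 := hall x' (by omega) (by omega)
      have e2 := hall' x' (by omega) (by omega)
      have hxx : x ≠ x' := by
        rintro rfl
        omega
      exact no_four hT hy e1.symm hz e2.symm hxx hzy.symm
  have inside' : ∀ i : Fin n, w.val ≤ i.val → i.val ≤ x.val → ∀ y, T.Adj i y →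
      w.val ≤ y.val ∧ y.val ≤ x.val := by
    intro i h1 h2 y hy
    by_contra hout
    -- move up to x
    have : ∀ k, ∀ i : Fin n, i.val + k = x.val → w.val ≤ i.val → T.Adj i y → T.Adj x y := by
      intro k
      induction k with
      | zero =>
        intro i hi _ hiy
        have : i = x := Fin.ext (by omega)
        rw [this] at hiy
        exact hiy
      | succ k ih =>
        intro i hi hwi hiy
        have h3 := hs i y hiy
        rw [s3 y hout] at h3
        have h4 := s1 i hwi (by omega)
        exact ih (s i) (by omega) (by omega) h3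
    exact hout (inside y (this (x.val - i.val) i (by omega) h1 hy))
  have hall : ∀ y : Fin n, w.val ≤ y.val ∧ y.val ≤ x.val := by
    intro y
    obtain ⟨W⟩ := hT.connected.preconnected x y
    have : ∀ {a b : Fin n} (W : T.Walk a b), (w.val ≤ a.val ∧ a.val ≤ x.val) →
        (w.val ≤ b.val ∧ b.val ≤ x.val) := by
      intro a b W
      induction W with
      | nil => exact id
      | cons hab _ ih => exact fun ha => ih (inside' _ ha.1 ha.2 _ hab)
    exact this W ⟨by omega, le_rfl⟩
  have hdeg : ∀ i, 2 ≤ (nb T i).card := by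
    intro i
    refine up (fun i => 2 ≤ (nb T i).card) ?_ (by omega) i (hall i).1 (hall i).2
    intro i hi
    refine hi.trans ?_
    have hsub : (nb T i).image s ⊆ nb T (s i) := by
      intro z hz
      obtain ⟨y, hy, rfl⟩ := Finset.mem_image.1 hz
      rw [mem_nb] at hy ⊢
      exact hs i y hy
    have hc : ((nb T i).image s).card = (nb T i).card := by
      apply Finset.card_image_of_injective
      intro a b hab
      by_contra hne'
      exact s5 a b hne' hab
    rw [← hc]
    exact Finset.card_le_card hsub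
  have h1 := sum_nb T hT
  have h2 := Finset.sum_le_sum (fun i (_ : i ∈ (Finset.univ : Finset (Fin n))) => hdeg i)
  rw [h1] at h2
  simp only [Finset.sum_const, Finset.card_univ, Fintype.card_fin, smul_eq_mul] at h2
  have := x.isLt
  omega

end

lemma bonferroni {α β : Type} [DecidableEq α] [DecidableEq β] (F : α → Finset β) (c : ℕ)
    (s : Finset α) (h : ∀ a ∈ s, ∀ b ∈ s, a ≠ b → (F a ∩ F b).card ≤ c) :
    2 * ∑ a ∈ s, (F a).card ≤ 2 * (s.biUnion F).card + c * (s.card * (s.card - 1)) := by
  induction s using Finset.induction_on with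
  | empty => simp
  | insert a s ha ih =>
    have ih' := ih (fun a ha' b hb' => h a (Finset.mem_insert_of_mem ha') b
      (Finset.mem_insert_of_mem hb'))
    rw [Finset.sum_insert ha, Finset.biUnion_insert, Finset.card_insert_of_notMem ha]
    have h1 := Finset.card_union_add_card_inter (F a) (s.biUnion F)
    have h2 : (F a ∩ s.biUnion F).card ≤ c * s.card := by
      rw [Finset.inter_biUnion]
      refine Finset.card_biUnion_le.trans ?_
      have h3 : ∀ b ∈ s, (F a ∩ F b).card ≤ c := fun b hb =>
        h a (Finset.mem_insert_self _ _) b (Finset.mem_insert_of_mem hb)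
          (fun hab => ha (hab ▸ hb))
      refine (Finset.sum_le_sum h3).trans ?_
      rw [Finset.sum_const, smul_eq_mul, mul_comm]
    have h4 : (s.card + 1) * (s.card + 1 - 1) = s.card * (s.card - 1) + 2 * s.card := by
      rcases Nat.eq_zero_or_pos s.card with h0 | h0
      · rw [h0]
      · obtain ⟨k, hk⟩ : ∃ k, s.card = k + 1 := ⟨s.card - 1, by omega⟩
        rw [hk]
        simp only [Nat.add_sub_cancel]
        ring
    rw [h4]
    have h5 : c * (s.card * (s.card - 1) + 2 * s.card) =
        c * (s.card * (s.card - 1)) + 2 * (c * s.card) := by ring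
    rw [h5]
    omega

theorem mu_lower_all {n : ℕ} (T : SimpleGraph (Fin n)) (hT : T.IsTree) :
    n * ∑ x, 2 ^ (nb T x).card ≤ mu T (n + 1) + n ^ 2 * (n ^ 2 - 1) := by
  classical
  obtain ⟨S, hS, hS'⟩ := mu_eq_card T (n + 1)
  rw [← hS]
  let W : Finset (Σ _ : Fin n, Fin (n + 1)) :=
    Finset.univ.sigma (fun x => Finset.univ.erase x.castSucc)
  have hWmem : ∀ p, p ∈ W ↔ p.2 ≠ p.1.castSucc := by
    intro p
    simp [W]
  have hWc : W.card = n ^ 2 := by
    show (Finset.univ.sigma _).card = _
    rw [Finset.card_sigma]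
    simp [pow_two]
  let F : (Σ _ : Fin n, Fin (n + 1)) → Finset (SimpleGraph (Fin (n + 1))) := fun p =>
    S.filter (fun U => Step T U p.2 p.1)
  have hFm : ∀ p U, U ∈ F p → U.IsTree ∧ Step T U p.2 p.1 := by
    intro p U hU
    obtain ⟨h1, h2⟩ := Finset.mem_filter.1 hU
    exact ⟨((hS' U).1 h1).1, h2⟩
  have hFlow : ∀ p, 2 ^ (nb T p.1).card ≤ (F p).card := by
    rintro ⟨x, w⟩
    obtain ⟨f, hx, hTf, hall⟩ := exists_parent hT x
    subst hTf
    have hNA : ∀ A ∈ (nb (parG f) x).powerset, ∀ i ∈ A, i ≠ x ∧ f i = x := by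
      intro A hA i hi
      have h1 : i ∈ nb (parG f) x := Finset.mem_powerset.1 hA hi
      rw [mem_nb] at h1
      obtain ⟨h2, h3 | h3⟩ := h1
      · rw [hx] at h3
        exact absurd h3 h2
      · exact ⟨h2.symm, h3⟩
    have hc : ((nb (parG f) x).powerset.image (SP f x w)).card = 2 ^ (nb (parG f) x).card := by
      rw [Finset.card_image_of_injOn, Finset.card_powerset]
      intro A hA B hB hAB
      have h1 := SP_cA (w := w) hx (hNA A hA)
      have h2 := SP_cA (w := w) hx (hNA B hB)
      have hAB' : SP f x w A = SP f x w B := hAB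
      rw [← h1, ← h2, hAB']
    rw [← hc]
    apply Finset.card_le_card
    intro U hU
    obtain ⟨A, hA, rfl⟩ := Finset.mem_image.1 hU
    have st : Step (parG f) (SP f x w A) w x := SP_step hx (hNA A hA)
    refine Finset.mem_filter.2 ⟨(hS' _).2 ⟨SP_isTree hx hall (hNA A hA), ?_⟩, st⟩
    exact displays_of_step _ _ w x st
  have hFup : ∀ p, (F p).card ≤ 2 ^ (nb T p.1).card := by
    rintro ⟨x, w⟩
    rw [← Finset.card_powerset]
    refine Finset.card_le_card_of_injOn (fun U => cA U w x) ?_ ?_
    · intro U hU
      have h1 := hFm _ U hU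
      exact Finset.mem_powerset.2 (cA_sub h1.2)
    · intro U hU U' hU' heq
      have h1 := hFm _ U hU
      have h2 := hFm _ U' hU'
      exact det h1.1 h2.1 h1.2 h2.2 heq
  have hint : ∀ p ∈ W, ∀ p' ∈ W, p ≠ p' → (F p ∩ F p').card ≤ 2 := by
    rintro ⟨x, w⟩ hp ⟨x', w'⟩ hp' hne
    rw [hWmem] at hp hp'
    simp only at hp hp'
    by_cases he : w = w'.succAbove x' ∧ w' = w.succAbove x
    · -- same edge
      rcases Finset.eq_empty_or_nonempty (F ⟨x, w⟩ ∩ F ⟨x', w'⟩) with h0 | ⟨U, hU⟩
      · rw [h0]; simp
      rw [Finset.mem_inter] at hU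
      have st := (hFm _ U hU.1).2
      have st' := (hFm _ U hU.2).2
      simp only at st st'
      rcases lt_or_gt_of_ne (show w ≠ w' by
        intro h
        rw [← h] at he
        exact Fin.succAbove_ne w x he.2.symm) with hlt | hlt
      · have hd := same_edge hT hlt he.2 he.1 hp st st'
        refine (Finset.card_le_card Finset.inter_subset_left).trans ((hFup ⟨x, w⟩).trans ?_)
        calc 2 ^ (nb T x).card ≤ 2 ^ 1 := Nat.pow_le_pow_right (by norm_num) hd
          _ = 2 := by norm_num
      · have hd := same_edge hT hlt he.1 he.2 hp' st' st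
        refine (Finset.card_le_card Finset.inter_subset_right).trans ((hFup ⟨x', w'⟩).trans ?_)
        calc 2 ^ (nb T x').card ≤ 2 ^ 1 := Nat.pow_le_pow_right (by norm_num) hd
          _ = 2 := by norm_num
    · have he1 : ¬ (w = w' ∧ w'.succAbove x' = w.succAbove x) := by
        rintro ⟨rfl, h2⟩
        apply hne
        rw [Fin.succAbove_right_injective h2]
      have h1 : (F ⟨x, w⟩ ∩ F ⟨x', w'⟩).card ≤ 1 := by
        rw [Finset.card_le_one]
        intro U hU U' hU'
        rw [Finset.mem_inter] at hU hU'
        obtain ⟨t1, s1⟩ := hFm _ U hU.1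
        obtain ⟨_, s2⟩ := hFm _ U hU.2
        obtain ⟨t1', s1'⟩ := hFm _ U' hU'.1
        obtain ⟨_, s2'⟩ := hFm _ U' hU'.2
        exact det t1 t1' s1 s1' (Finset.Subset.antisymm
          (pair_det' t1 t1' he1 he s1 s2 s1' s2') (pair_det' t1' t1 he1 he s1' s2' s1 s2))
      omega
  have h1 := bonferroni F 2 W hint
  have h2 : (W.biUnion F).card ≤ S.card := by
    apply Finset.card_le_card
    intro U hU
    obtain ⟨p, _, h⟩ := Finset.mem_biUnion.1 hU
    exact (Finset.mem_filter.1 h).1
  have h3 : n * ∑ x, 2 ^ (nb T x).card ≤ ∑ p ∈ W, (F p).card := by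
    refine le_trans ?_ (Finset.sum_le_sum (fun p _ => hFlow p))
    show _ ≤ ∑ p ∈ Finset.univ.sigma _, _
    rw [Finset.sum_sigma, Finset.mul_sum]
    refine Finset.sum_le_sum fun x _ => ?_
    show _ ≤ ∑ _s ∈ Finset.univ.erase x.castSucc, 2 ^ (nb T x).card
    rw [Finset.sum_const, Finset.card_erase_of_mem (Finset.mem_univ _)]
    simp
  rw [hWc] at h1
  omega

end StarTree
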