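import Pool.Agent.Lib.StarTree.Count

namespace StarTree

open SimpleGraph Finset

open Classical in
/-- neighbours as a finset -/
noncomputable def nb {n : ℕ} (T : SimpleGraph (Fin n)) (x : Fin n) : Finset (Fin n) :=
  Finset.univ.filter (fun y => T.Adj x y)

open Classical in
/-- the vertices attached to `w`, besides the merging partner -/
noncomputable def cA {n : ℕ} (U : SimpleGraph (Fin (n + 1))) (w : Fin (n + 1)) (x : Fin n) :
    Finset (Fin n) :=
  Finset.univ.filter (fun j => j ≠ x ∧ U.Adj w (w.succAbove j))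

section
variable {n : ℕ} {T : SimpleGraph (Fin n)} {U : SimpleGraph (Fin (n + 1))} {w : Fin (n + 1)}
  {x : Fin n}

lemma mem_nb {y : Fin n} : y ∈ nb T x ↔ T.Adj x y := by simp [nb]
lemma mem_cA {y : Fin n} : y ∈ cA U w x ↔ y ≠ x ∧ U.Adj w (w.succAbove y) := by simp [cA]

lemma no_triangle {V : Type} [DecidableEq V] {G : SimpleGraph V} (hG : G.IsTree) {a b c : V}
    (h1 : G.Adj a b) (h2 : G.Adj b c) (h3 : G.Adj a c) : False :=
  hG.isAcyclic.cliqueFree (le_refl 3) {a, b, c} (is3Clique_triple_iff.2 ⟨h1, h3, h2⟩)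

lemma cA_sub (h : Step T U w x) : cA U w x ⊆ nb T x := by
  intro y hy
  rw [mem_cA] at hy
  rw [mem_nb]
  exact (h.2 x y hy.1.symm).2 (Or.inr (Or.inl ⟨rfl, hy.2⟩))

/-- the tree is determined by its code -/
lemma det {U' : SimpleGraph (Fin (n + 1))} (hU : U.IsTree) (hU' : U'.IsTree)
    (h : Step T U w x) (h' : Step T U' w x) (hA : cA U w x = cA U' w x) : U = U' := by
  have key : ∀ j, U.Adj w (w.succAbove j) ↔ U'.Adj w (w.succAbove j) := by
    intro j
    by_cases hj : j = x
    · subst hj; exact ⟨fun _ => h'.1, fun _ => h.1⟩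
    · have h1 : j ∈ cA U w x ↔ j ∈ cA U' w x := by rw [hA]
      rw [mem_cA, mem_cA] at h1
      exact ⟨fun h2 => (h1.1 ⟨hj, h2⟩).2, fun h2 => (h1.2 ⟨hj, h2⟩).2⟩
  have aux : ∀ (W : SimpleGraph (Fin (n + 1))), W.IsTree → Step T W w x → ∀ j, j ≠ x →
      (W.Adj (w.succAbove x) (w.succAbove j) ↔ T.Adj x j ∧ ¬ W.Adj w (w.succAbove j)) := by
    intro W hW hs j hj
    constructor
    · intro h1
      exact ⟨(hs.2 x j hj.symm).2 (Or.inl h1), fun h2 => no_triangle hW hs.1 h1 h2⟩
    · rintro ⟨h1, h2⟩
      rcases (hs.2 x j hj.symm).1 h1 with h3 | h3 | h3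
      · exact h3
      · exact absurd h3.2 h2
      · exact absurd h3.1 hj
  have key2 : ∀ i j, U.Adj (w.succAbove i) (w.succAbove j) ↔
      U'.Adj (w.succAbove i) (w.succAbove j) := by
    intro i j
    by_cases hij : i = j
    · subst hij; simp
    by_cases hi : i = x
    · subst hi
      have hj : j ≠ i := fun h => hij h.symm
      rw [aux U hU h j hj, aux U' hU' h' j hj, key j]
    by_cases hj : j = x
    · subst hj
      rw [U.adj_comm, U'.adj_comm, aux U hU h i hi, aux U' hU' h' i hi, key i]
    · have h1 := h.2 i j hij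
      have h2 := h'.2 i j hij
      simp only [hi, hj, false_and, or_false] at h1 h2
      rw [← h1, h2]
  ext a b
  by_cases ha : a = w
  · subst ha
    by_cases hb : b = a
    · subst hb; simp
    · obtain ⟨j, rfl⟩ := Fin.exists_succAbove_eq hb
      exact key j
  · obtain ⟨i, rfl⟩ := Fin.exists_succAbove_eq ha
    by_cases hb : b = w
    · subst hb
      rw [U.adj_comm, U'.adj_comm]
      exact key i
    · obtain ⟨j, rfl⟩ := Fin.exists_succAbove_eq hb
      exact key2 i j

lemma sA_castSucc_self (x : Fin n) : x.castSucc.succAbove x = x.succ := sA_le x le_rfl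
lemma sA_succ_self (x : Fin n) : x.succ.succAbove x = x.castSucc := sA_gt x (cc_lt_cs x)

lemma sA_agree {x i : Fin n} (h : i ≠ x) : x.succ.succAbove i = x.castSucc.succAbove i := by
  rcases lt_or_gt_of_ne h with h | h
  · rw [Fin.succAbove_of_castSucc_lt _ _ (by
      exact lt_trans (Fin.castSucc_lt_castSucc_iff.2 h) (cc_lt_cs x)),
      Fin.succAbove_of_castSucc_lt _ _ (Fin.castSucc_lt_castSucc_iff.2 h)]
  · rw [Fin.succAbove_of_le_castSucc _ _ (by
      rw [Fin.le_def]; simp; exact h),
      Fin.succAbove_of_le_castSucc _ _ (Fin.castSucc_le_castSucc_iff.2 h.le)]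

lemma swap (h : Step T U x.castSucc x) : Step T U x.succ x := by
  obtain ⟨h1, h2⟩ := h
  rw [sA_castSucc_self] at h1
  refine ⟨by rw [sA_succ_self]; exact h1.symm, ?_⟩
  intro i j hij
  rw [h2 i j hij]
  by_cases hi : i = x
  · subst hi
    have hj : j ≠ i := fun h => hij h.symm
    rw [sA_agree hj, sA_succ_self, sA_castSucc_self]
    simp only [hj, false_and, or_false, true_and]
    exact or_comm
  by_cases hj : j = x
  · subst hj
    rw [sA_agree hi, sA_succ_self, sA_castSucc_self]
    simp only [hi, false_and, false_or, true_and]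
    exact or_comm
  · rw [sA_agree hi, sA_agree hj]
    simp only [hi, hj, false_and]

lemma subdiv {y : Fin n} (h : Step T U w x) (hA : cA U w x = {y}) : Step T U w y := by
  have hy : y ≠ x ∧ U.Adj w (w.succAbove y) := mem_cA.1 (by rw [hA]; simp)
  have hw : ∀ j, U.Adj w (w.succAbove j) ↔ j = x ∨ j = y := by
    intro j
    constructor
    · intro h1
      by_cases hj : j = x
      · exact Or.inl hj
      · right
        have : j ∈ cA U w x := mem_cA.2 ⟨hj, h1⟩
        rw [hA] at this
        simpa using this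
    · rintro (rfl | rfl)
      · exact h.1
      · exact hy.2
  refine ⟨hy.2, ?_⟩
  intro i j hij
  rw [h.2 i j hij, U.adj_comm (w.succAbove i) w, hw i, hw j]
  constructor
  · rintro (h1 | ⟨h1, h2⟩ | ⟨h1, h2⟩)
    · exact Or.inl h1
    · rcases h2 with h2 | h2
      · exact absurd (h1.trans h2.symm) hij
      · exact Or.inr (Or.inr ⟨h2, Or.inl h1⟩)
    · rcases h2 with h2 | h2
      · exact absurd (h2.trans h1.symm) hij
      · exact Or.inr (Or.inl ⟨h2, Or.inl h1⟩)
  · rintro (h1 | ⟨h1, h2⟩ | ⟨h1, h2⟩)
    · exact Or.inl h1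
    · rcases h2 with h2 | h2
      · exact Or.inr (Or.inr ⟨h2, Or.inr h1⟩)
      · exact absurd (h1.trans h2.symm) hij
    · rcases h2 with h2 | h2
      · exact Or.inr (Or.inl ⟨h2, Or.inr h1⟩)
      · exact absurd (h2.trans h1.symm) hij

/-- leaf move: `l` is a leaf of `T` at `x` and `w` is a leaf of `U`, next label -/
lemma leafmove {l : Fin n} (h : Step T U l.castSucc x) (hA : cA U l.castSucc x = ∅)
    (hl : ∀ y, T.Adj l y ↔ y = x) : Step T U l.succ x := by
  have hlx : l ≠ x := ((hl x).2 rfl).ne
  have hw : ∀ j, U.Adj l.castSucc (l.castSucc.succAbove j) ↔ j = x := by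
    intro j
    constructor
    · intro h1
      by_contra hj
      have : j ∈ cA U l.castSucc x := mem_cA.2 ⟨hj, h1⟩
      rw [hA] at this
      simp at this
    · rintro rfl; exact h.1
  have hT : ∀ i j, i ≠ j → (T.Adj i j ↔
      U.Adj (l.castSucc.succAbove i) (l.castSucc.succAbove j)) := by
    intro i j hij
    rw [h.2 i j hij, U.adj_comm (l.castSucc.succAbove i) l.castSucc, hw i, hw j]
    constructor
    · rintro (h1 | ⟨h1, h2⟩ | ⟨h1, h2⟩)
      · exact h1
      · exact absurd (h1.trans h2.symm) hij
      · exact absurd (h2.trans h1.symm) hij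
    · exact Or.inl
  have hTl : ∀ j, j ≠ l → (U.Adj l.succ (l.castSucc.succAbove j) ↔ j = x) := by
    intro j hj
    have h1 := hT l j hj.symm
    rw [sA_castSucc_self, hl j] at h1
    exact h1.symm
  refine ⟨?_, ?_⟩
  · rw [sA_agree hlx.symm]
    exact (hTl x hlx.symm).2 rfl
  intro i j hij
  by_cases hi : i = l
  · subst hi
    have hj : j ≠ i := fun h => hij h.symm
    rw [sA_agree hj, sA_succ_self, hw j, hl j]
    constructor
    · exact Or.inl
    · rintro (h1 | h1 | h1)
      · exact h1
      · exact absurd h1.1 hlx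
      · exact h1.1
  by_cases hj : j = l
  · subst hj
    rw [sA_agree hi, sA_succ_self, T.adj_comm, hl i, U.adj_comm _ j.castSucc, hw i]
    constructor
    · exact Or.inl
    · rintro (h1 | h1 | h1)
      · exact h1
      · exact h1.1
      · exact absurd h1.1 hlx
  · rw [sA_agree hi, sA_agree hj, hT i j hij, hTl j hj, U.adj_comm _ l.succ, hTl i hi]
    constructor
    · exact Or.inl
    · rintro (h1 | h1 | h1)
      · exact h1
      · exact absurd (h1.1.trans h1.2.symm) hij
      · exact absurd (h1.2.trans h1.1.symm) hij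

/-- canonical code of a tree which displays `T` -/
lemma canonical (h : Displays T U) : ∃ w x, Step T U w x ∧ w ≠ x.castSucc ∧
    (∀ y, cA U w x = {y} → y < x ∧ w ≠ y.castSucc) ∧
    (cA U w x = ∅ → ∀ l, (∀ y, T.Adj l y ↔ y = x) → w ≠ l.castSucc) := by
  classical
  obtain ⟨w0, x0, h0⟩ := step_of_displays T U h
  obtain ⟨⟨w, x⟩, hm, hmax⟩ := Finset.exists_max_image
    ((Finset.univ : Finset (Fin (n + 1) × Fin n)).filter (fun p => Step T U p.1 p.2))
    (fun p => p.1.val * n + p.2.val) ⟨(w0, x0), by simpa using h0⟩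
  simp only [Finset.mem_filter, Finset.mem_univ, true_and] at hm
  have hmax' : ∀ w' x', Step T U w' x' → w'.val * n + x'.val ≤ w.val * n + x.val := by
    intro w' x' hs
    exact hmax (w', x') (by simpa using hs)
  have hup : ∀ (v : Fin n) x', w = v.castSucc → Step T U v.succ x' → False := by
    intro v x' hv hs
    have h1 := hmax' _ _ hs
    rw [hv] at h1
    simp only [Fin.val_succ, Fin.val_castSucc] at h1
    have h2 := x.isLt
    nlinarith
  refine ⟨w, x, hm, ?_, ?_, ?_⟩
  · intro hw
    rw [hw] at hm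
    exact hup x x hw (swap hm)
  · intro y hy
    have hs := subdiv hm hy
    have hyx : y ≠ x := (mem_cA.1 (by rw [hy]; simp : y ∈ cA U w x)).1
    refine ⟨?_, ?_⟩
    · rcases lt_or_gt_of_ne hyx with h1 | h1
      · exact h1
      · have h2 := hmax' _ _ hs
        have h3 : x.val < y.val := h1
        omega
    · intro hw
      rw [hw] at hs
      exact hup y y hw (swap hs)
  · intro hA l hl hw
    rw [hw] at hm hA
    exact hup l x hw (leafmove hm hA hl)

end

section bound
variable {n : ℕ} (T : SimpleGraph (Fin n))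

open Classical in
/-- leaves of `T` hanging at `x` -/
noncomputable def lf (x : Fin n) : Finset (Fin n) :=
  Finset.univ.filter (fun l => ∀ y, T.Adj l y ↔ y = x)

open Classical in
noncomputable def E2 (x : Fin n) : Finset (Fin (n + 1) × Finset (Fin n)) :=
  (Finset.univ.erase x.castSucc) ×ˢ ((nb T x).powerset.filter (fun A => 2 ≤ A.card))

open Classical in
noncomputable def E1 (x : Fin n) : Finset (Σ _ : Fin n, Fin (n + 1)) :=
  ((nb T x).filter (fun y => y < x)).sigma
    (fun y => (Finset.univ.erase x.castSucc).erase y.castSucc)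

open Classical in
noncomputable def E0 (x : Fin n) : Finset (Fin (n + 1)) :=
  (Finset.univ.erase x.castSucc) \ ((lf T x).image Fin.castSucc)

open Classical in
noncomputable def EE : Finset (Fin (n + 1) × Fin n × Finset (Fin n)) :=
  Finset.univ.biUnion (fun x => (E2 T x).image (fun p => (p.1, x, p.2)) ∪
    ((E1 T x).image (fun s => (s.2, x, {s.1})) ∪ (E0 T x).image (fun w => (w, x, ∅))))

lemma card_E2 (x : Fin n) : (E2 T x).card + n * (1 + (nb T x).card) = n * 2 ^ (nb T x).card := by
  classical
  unfold E2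
  rw [Finset.card_product, Finset.card_erase_of_mem (Finset.mem_univ _)]
  have h1 : ((nb T x).powerset.filter (fun A => 2 ≤ A.card)).card + (1 + (nb T x).card) =
      2 ^ (nb T x).card := by
    rw [← Finset.card_powerset (nb T x)]
    have h2 := Finset.card_filter_add_card_filter_not (s := (nb T x).powerset)
      (fun A => 2 ≤ A.card)
    rw [← h2]
    congr 1
    have h3 : (nb T x).powerset.filter (fun A => ¬ 2 ≤ A.card) =
        (nb T x).powersetCard 0 ∪ (nb T x).powersetCard 1 := by
      ext A
      simp only [Finset.mem_filter, Finset.mem_powerset, Finset.mem_union,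
        Finset.mem_powersetCard]
      constructor
      · rintro ⟨h4, h5⟩
        have : A.card = 0 ∨ A.card = 1 := by omega
        rcases this with h | h
        · exact Or.inl ⟨h4, h⟩
        · exact Or.inr ⟨h4, h⟩
      · rintro (⟨h4, h5⟩ | ⟨h4, h5⟩)
        · exact ⟨h4, by omega⟩
        · exact ⟨h4, by omega⟩
    rw [h3, Finset.card_union_of_disjoint, Finset.card_powersetCard, Finset.card_powersetCard]
    · simp
    · rw [Finset.disjoint_left]
      intro A h4 h5
      rw [Finset.mem_powersetCard] at h4 h5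
      omega
  simp only [Finset.card_univ, Fintype.card_fin, Nat.add_sub_cancel]
  rw [← Nat.mul_add, h1]

lemma card_E1 (x : Fin n) :
    (E1 T x).card = (n - 1) * ((nb T x).filter (fun y => y < x)).card := by
  classical
  unfold E1
  rw [Finset.card_sigma]
  have : ∀ y ∈ (nb T x).filter (fun y => y < x),
      ((Finset.univ.erase x.castSucc).erase y.castSucc : Finset (Fin (n + 1))).card = n - 1 := by
    intro y hy
    rw [Finset.mem_filter] at hy
    rw [Finset.card_erase_of_mem, Finset.card_erase_of_mem (Finset.mem_univ _)]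
    · simp
    · rw [Finset.mem_erase]
      refine ⟨?_, Finset.mem_univ _⟩
      intro h
      exact hy.2.ne (Fin.castSucc_injective _ h)
  rw [Finset.sum_congr rfl this, Finset.sum_const, smul_eq_mul, mul_comm]

lemma card_E0 (x : Fin n) : (E0 T x).card + (lf T x).card = n := by
  classical
  unfold E0
  have hsub : (lf T x).image Fin.castSucc ⊆ Finset.univ.erase x.castSucc := by
    intro w hw
    rw [Finset.mem_image] at hw
    obtain ⟨l, hl, rfl⟩ := hw
    unfold lf at hl
    rw [Finset.mem_filter] at hl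
    rw [Finset.mem_erase]
    refine ⟨?_, Finset.mem_univ _⟩
    intro h
    have h1 := Fin.castSucc_injective _ h
    exact ((hl.2 x).2 rfl).ne h1
  have h1 := Finset.card_sdiff_add_card_eq_card hsub
  rw [Finset.card_image_of_injective _ (Fin.castSucc_injective n)] at h1
  rw [h1, Finset.card_erase_of_mem (Finset.mem_univ _)]
  simp

lemma card_EE_le : (EE T).card ≤
    ∑ x, ((E2 T x).card + ((E1 T x).card + (E0 T x).card)) := by
  classical
  unfold EE
  refine Finset.card_biUnion_le.trans (Finset.sum_le_sum fun x _ => ?_)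
  refine (Finset.card_union_le _ _).trans (Nat.add_le_add Finset.card_image_le ?_)
  exact (Finset.card_union_le _ _).trans (Nat.add_le_add Finset.card_image_le
    Finset.card_image_le)

theorem mu_le_EE : mu T (n + 1) ≤ (EE T).card := by
  classical
  unfold mu
  have hch : ∀ U : {U : SimpleGraph (Fin (n + 1)) // U.IsTree ∧ Displays T U},
      ∃ q : {q // q ∈ EE T}, Step T U.1 q.1.1 q.1.2.1 ∧ cA U.1 q.1.1 q.1.2.1 = q.1.2.2 := by
    rintro ⟨U, hU, hd⟩
    obtain ⟨w, x, hs, h1, h2, h3⟩ := canonical hd
    refine ⟨⟨(w, x, cA U w x), ?_⟩, hs, rfl⟩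
    have hsub := cA_sub hs
    unfold EE
    rw [Finset.mem_biUnion]
    refine ⟨x, Finset.mem_univ _, ?_⟩
    rw [Finset.mem_union, Finset.mem_union]
    rcases Nat.lt_or_ge (cA U w x).card 2 with hc | hc
    · right
      have : (cA U w x).card = 0 ∨ (cA U w x).card = 1 := by omega
      rcases this with hc | hc
      · right
        rw [Finset.card_eq_zero] at hc
        rw [Finset.mem_image]
        refine ⟨w, ?_, by rw [hc]⟩
        unfold E0
        rw [Finset.mem_sdiff, Finset.mem_erase, Finset.mem_image]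
        refine ⟨⟨h1, Finset.mem_univ _⟩, ?_⟩
        rintro ⟨l, hl, hlw⟩
        unfold lf at hl
        rw [Finset.mem_filter] at hl
        exact h3 hc l hl.2 hlw.symm
      · left
        rw [Finset.card_eq_one] at hc
        obtain ⟨y, hy⟩ := hc
        obtain ⟨h4, h5⟩ := h2 y hy
        rw [Finset.mem_image]
        refine ⟨⟨y, w⟩, ?_, by rw [hy]⟩
        unfold E1
        rw [Finset.mem_sigma, Finset.mem_filter]
        refine ⟨⟨hsub (by rw [hy]; simp), h4⟩, ?_⟩
        rw [Finset.mem_erase, Finset.mem_erase]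
        exact ⟨h5, h1, Finset.mem_univ _⟩
    · left
      rw [Finset.mem_image]
      refine ⟨(w, cA U w x), ?_, rfl⟩
      unfold E2
      rw [Finset.mem_product, Finset.mem_erase, Finset.mem_filter, Finset.mem_powerset]
      exact ⟨⟨h1, Finset.mem_univ _⟩, hsub, hc⟩
  choose f hf1 hf2 using hch
  have hinj : Function.Injective f := by
    intro U U' heq
    apply Subtype.ext
    have a1 := hf1 U
    have a2 := hf2 U
    rw [heq] at a1 a2
    exact det U.2.1 U'.2.1 a1 (hf1 U') (a2.trans (hf2 U').symm)
  have := Nat.card_le_card_of_injective f hinj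
  refine this.trans ?_
  rw [Nat.card_eq_fintype_card, Fintype.card_coe]

end bound

end StarTree
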